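import Pool.Agent.H3.OVW.Words

/-! MODULE BAD (project MP_d1c297_lc): only finitely many levels are bad.

Suppose not: for every `M0` there is a bad `M ≥ M0`: `k^M ≤ d * cnt S M` but for all `m ≥ m0(M)` with `k^m ≤ d * cnt S m`:
`2 d² cnt (S ∘ take M ∧ S) m < k^m`.  Choose bad `M_1 < M_2 < … < M_R` (`R > 2 d²`), each `M_{j+1} ≥ m0(M_j)` (and all earlier thresholds), so for
`i < j`: `2 d² cnt (fun x => S (x.take M_i) ∧ S x) M_j < k^{M_j}`.  On `A^m`, `m = M_R`, with `E_i = {x | S (x.take M_i)}` (`k^m ≤ d |E_i|`,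
`2 d² |E_i ∩ E_j| < k^m`) the second moment inequality `(∑ |E_i|)² ≤ k^m ∑_{i,j} |E_i ∩ E_j|` gives `R²/d² ≤ R + R²/(2d²)`, i.e. `R ≤ 2d²`. -/

namespace OVW

open scoped BigOperators

open Classical in
theorem bad_cnt_sum {k : ℕ} (P : Word k → Prop) (m : ℕ) :
    (cnt P m : ℝ) = ∑ x ∈ (words k m).toFinset, if P x then (1 : ℝ) else 0 := by
  rw [cnt_eq_card ((words k m).toFinset.filter P)]
  · rw [Finset.sum_boole]
  · intro x
    rw [Finset.mem_filter, List.mem_toFinset, mem_words]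

theorem bad_congr {k : ℕ} {P Q : Word k → Prop} {m : ℕ}
    (h : ∀ x : Word k, x.length = m → (P x ↔ Q x)) : cnt P m = cnt Q m :=
  le_antisymm (cnt_mono fun x hx => (h x hx).1) (cnt_mono fun x hx => (h x hx).2)

/-- events which depend on a prefix only -/
theorem bad_take {k : ℕ} (Q : Word k → Prop) {M m : ℕ} (h : M ≤ m) :
    cnt (fun x => Q (x.take M)) m = k ^ (m - M) * cnt Q M := by
  rw [cnt_split _ h]
  have h1 : (words k (m - M)).map (fun u => cnt (fun q => Q ((q ++ u).take M)) M) =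
      (words k (m - M)).map (fun _ => cnt Q M) := by
    apply List.map_congr_left
    intro u _
    apply bad_congr
    intro x hx
    rw [← hx, List.take_left]
  rw [h1, List.map_const', List.sum_replicate, length_words, smul_eq_mul]

open Classical in
theorem bad_moment {k : ℕ} (m R : ℕ) (E : ℕ → Word k → Prop) :
    (∑ i ∈ Finset.range R, (cnt (E i) m : ℝ)) ^ 2 ≤
      (k : ℝ) ^ m * ∑ i ∈ Finset.range R, ∑ j ∈ Finset.range R,
        (cnt (fun x => E i x ∧ E j x) m : ℝ) := by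
  set W := (words k m).toFinset with hW
  have hcard : (W.card : ℝ) = (k : ℝ) ^ m := by
    rw [hW, List.toFinset_card_of_nodup (nodup_words k m), length_words]
    push_cast
    rfl
  have h1 : ∑ i ∈ Finset.range R, (cnt (E i) m : ℝ) =
      ∑ x ∈ W, ∑ i ∈ Finset.range R, if E i x then (1 : ℝ) else 0 := by
    rw [Finset.sum_comm]
    exact Finset.sum_congr rfl fun i _ => bad_cnt_sum (E i) m
  have h2 : ∑ i ∈ Finset.range R, ∑ j ∈ Finset.range R,
      (cnt (fun x => E i x ∧ E j x) m : ℝ) =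
      ∑ x ∈ W, (∑ i ∈ Finset.range R, if E i x then (1 : ℝ) else 0) ^ 2 := by
    have h3 : ∀ x ∈ W, (∑ i ∈ Finset.range R, if E i x then (1 : ℝ) else 0) ^ 2 =
        ∑ i ∈ Finset.range R, ∑ j ∈ Finset.range R, if E i x ∧ E j x then (1 : ℝ) else 0 := by
      intro x _
      rw [sq, Finset.sum_mul_sum]
      refine Finset.sum_congr rfl fun i _ => Finset.sum_congr rfl fun j _ => ?_
      by_cases hi : E i x
      · by_cases hj : E j x
        · simp [hi, hj]
        · simp [hi, hj]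
      · simp [hi]
    rw [Finset.sum_congr rfl h3]
    refine Eq.trans ?_ Finset.sum_comm
    refine Finset.sum_congr rfl fun i _ => ?_
    refine Eq.trans ?_ Finset.sum_comm
    refine Finset.sum_congr rfl fun j _ => ?_
    rw [bad_cnt_sum]
    refine Finset.sum_congr rfl fun x _ => ?_
    by_cases h : E i x ∧ E j x
    · rw [if_pos h, if_pos h]
    · rw [if_neg h, if_neg h]
  rw [h1, h2, ← hcard]
  exact sq_sum_le_card_mul_sum_sq

theorem bad_finite {k d : ℕ} (hk : 0 < k) (hd : 0 < d) (S : Word k → Prop) :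
    ∃ M0 : ℕ, ∀ M, M0 ≤ M → k ^ M ≤ d * cnt S M → Dense d S →
      ∀ m0, ∃ m, m0 ≤ m ∧ M ≤ m ∧ k ^ m ≤ d * cnt S m ∧
        k ^ m ≤ 2 * d ^ 2 * cnt (fun x => S (x.take M) ∧ S x) m := by
  by_contra hcon
  push Not at hcon
  choose f hf1 hf2 _ g hg using hcon
  -- the thresholds
  let B : ℕ → ℕ := fun n => Nat.rec (motive := fun _ => ℕ) 0
    (fun _ b => max b (max (g b) (f b + 1))) n
  have hBs : ∀ n, B (n + 1) = max (B n) (max (g (B n)) (f (B n) + 1)) := fun n => rfl
  have hBmono : ∀ i j, i ≤ j → B i ≤ B j := by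
    intro i j hij
    induction hij with
    | refl => exact le_rfl
    | step _ ih => exact ih.trans ((le_max_left _ _).trans_eq (hBs _).symm)
  set M : ℕ → ℕ := fun n => f (B n) with hM
  have hMg : ∀ i j, i < j → g (B i) ≤ M j := by
    intro i j hij
    have h1 : g (B i) ≤ B (i + 1) := by
      rw [hBs]
      exact (le_max_left _ _).trans (le_max_right _ _)
    exact h1.trans ((hBmono _ _ hij).trans (hf1 (B j)))
  have hMM : ∀ i j, i < j → M i < M j := by
    intro i j hij
    have h1 : f (B i) + 1 ≤ B (i + 1) := by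
      rw [hBs]
      exact (le_max_right _ _).trans (le_max_right _ _)
    have h2 : B (i + 1) ≤ M j := (hBmono _ _ hij).trans (hf1 (B j))
    have h3 : M i = f (B i) := rfl
    omega
  have hdens : ∀ i, k ^ (M i) ≤ d * cnt S (M i) := fun i => hf2 (B i)
  have hpair : ∀ i j, i < j →
      2 * d ^ 2 * cnt (fun x => S (x.take (M i)) ∧ S x) (M j) < k ^ (M j) := by
    intro i j hij
    exact hg (B i) (M j) (hMg i j hij) (hMM i j hij).le (hdens j)
  -- the counting
  set R : ℕ := 2 * d ^ 2 with hR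
  have hRpos : 0 < R := by positivity
  set m : ℕ := M R with hm
  have hmi : ∀ i ∈ Finset.range R, M i ≤ m := fun i hi => (hMM i R (Finset.mem_range.1 hi)).le
  set E : ℕ → Word k → Prop := fun i x => S (x.take (M i)) with hE
  have hkm : (0 : ℝ) < (k : ℝ) ^ m := by positivity
  have hdR : (0 : ℝ) < (d : ℝ) := by exact_mod_cast hd
  have h1 : ∀ i ∈ Finset.range R, (k : ℝ) ^ m / d ≤ (cnt (E i) m : ℝ) := by
    intro i hi
    have h2 : k ^ m ≤ d * cnt (E i) m := by
      have h3 : cnt (E i) m = k ^ (m - M i) * cnt S (M i) := bad_take S (hmi i hi)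
      rw [h3]
      calc k ^ m = k ^ (m - M i) * k ^ (M i) := by
            rw [← pow_add]
            congr 1
            have := hmi i hi
            omega
        _ ≤ k ^ (m - M i) * (d * cnt S (M i)) := Nat.mul_le_mul_left _ (hdens i)
        _ = d * (k ^ (m - M i) * cnt S (M i)) := by ring
    rw [div_le_iff₀ hdR]
    have h4 : ((k ^ m : ℕ) : ℝ) ≤ ((d * cnt (E i) m : ℕ) : ℝ) := by exact_mod_cast h2
    push_cast at h4
    linarith
  have hlt : ∀ i j, i < j → j ∈ Finset.range R →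
      (cnt (fun x => E i x ∧ E j x) m : ℝ) ≤ (k : ℝ) ^ m / (2 * d ^ 2) := by
    intro i j hij hj
    have h3 : cnt (fun x => E i x ∧ E j x) m =
        k ^ (m - M j) * cnt (fun x => S (x.take (M i)) ∧ S x) (M j) := by
      rw [← bad_take (fun x => S (x.take (M i)) ∧ S x) (hmi j hj)]
      apply bad_congr
      intro x _
      show (S (x.take (M i)) ∧ S (x.take (M j))) ↔
        (S ((x.take (M j)).take (M i)) ∧ S (x.take (M j)))
      rw [List.take_take, min_eq_left (hMM i j hij).le]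
    have h4 : 2 * d ^ 2 * cnt (fun x => E i x ∧ E j x) m ≤ k ^ m := by
      rw [h3]
      calc 2 * d ^ 2 * (k ^ (m - M j) * cnt (fun x => S (x.take (M i)) ∧ S x) (M j))
          = k ^ (m - M j) * (2 * d ^ 2 * cnt (fun x => S (x.take (M i)) ∧ S x) (M j)) := by ring
        _ ≤ k ^ (m - M j) * k ^ (M j) := Nat.mul_le_mul_left _ (hpair i j hij).le
        _ = k ^ m := by
            rw [← pow_add]
            congr 1
            have := hmi j hj
            omega
    rw [le_div_iff₀ (by positivity)]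
    have h5 : ((2 * d ^ 2 * cnt (fun x => E i x ∧ E j x) m : ℕ) : ℝ) ≤ ((k ^ m : ℕ) : ℝ) := by
      exact_mod_cast h4
    push_cast at h5
    linarith
  have hij : ∀ i ∈ Finset.range R, ∀ j ∈ Finset.range R,
      (cnt (fun x => E i x ∧ E j x) m : ℝ) ≤
        (k : ℝ) ^ m / (2 * d ^ 2) + if i = j then (k : ℝ) ^ m - (k : ℝ) ^ m / (2 * d ^ 2) else 0 := by
    intro i hi j hj
    rcases lt_trichotomy i j with h | h | h
    · rw [if_neg h.ne, add_zero]
      exact hlt i j h hj
    · rw [if_pos h]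
      have h6 : (cnt (fun x => E i x ∧ E j x) m : ℝ) ≤ (k : ℝ) ^ m := by
        exact_mod_cast cnt_le (fun x => E i x ∧ E j x) m
      linarith
    · rw [if_neg h.ne', add_zero]
      have h6 : cnt (fun x => E i x ∧ E j x) m = cnt (fun x => E j x ∧ E i x) m :=
        bad_congr fun x _ => and_comm
      rw [h6]
      exact hlt j i h hi
  have hmom := bad_moment m R E
  have hlow : (R : ℝ) * ((k : ℝ) ^ m / d) ≤ ∑ i ∈ Finset.range R, (cnt (E i) m : ℝ) := by
    have := Finset.sum_le_sum h1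
    rwa [Finset.sum_const, Finset.card_range, nsmul_eq_mul] at this
  have hup : ∑ i ∈ Finset.range R, ∑ j ∈ Finset.range R,
      (cnt (fun x => E i x ∧ E j x) m : ℝ) ≤
      (R : ℝ) * (R * ((k : ℝ) ^ m / (2 * d ^ 2)) + ((k : ℝ) ^ m - (k : ℝ) ^ m / (2 * d ^ 2))) := by
    have h7 : ∀ i ∈ Finset.range R, ∑ j ∈ Finset.range R,
        (cnt (fun x => E i x ∧ E j x) m : ℝ) ≤
        R * ((k : ℝ) ^ m / (2 * d ^ 2)) + ((k : ℝ) ^ m - (k : ℝ) ^ m / (2 * d ^ 2)) := by
      intro i hi
      refine (Finset.sum_le_sum (hij i hi)).trans ?_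
      rw [Finset.sum_add_distrib, Finset.sum_const, Finset.card_range, nsmul_eq_mul,
        Finset.sum_ite_eq, if_pos hi]
    refine (Finset.sum_le_sum h7).trans ?_
    rw [Finset.sum_const, Finset.card_range, nsmul_eq_mul]
  have hRR : (R : ℝ) = 2 * (d : ℝ) ^ 2 := by
    rw [hR]
    push_cast
    ring
  have hfin : ((R : ℝ) * ((k : ℝ) ^ m / d)) ^ 2 ≤ (k : ℝ) ^ m *
      ((R : ℝ) * (R * ((k : ℝ) ^ m / (2 * d ^ 2)) + ((k : ℝ) ^ m - (k : ℝ) ^ m / (2 * d ^ 2)))) := by
    refine le_trans ?_ (hmom.trans (mul_le_mul_of_nonneg_left hup hkm.le))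
    exact pow_le_pow_left₀ (by positivity) hlow 2
  rw [hRR] at hfin
  set K : ℝ := (k : ℝ) ^ m with hK
  have hl : (2 * (d : ℝ) ^ 2 * (K / d)) ^ 2 = 4 * d ^ 2 * K ^ 2 := by
    field_simp
    ring
  have hr : K * (2 * (d : ℝ) ^ 2 * (2 * (d : ℝ) ^ 2 * (K / (2 * d ^ 2)) +
      (K - K / (2 * d ^ 2)))) = K ^ 2 * (4 * (d : ℝ) ^ 2 - 1) := by
    field_simp
    ring
  rw [hl, hr] at hfin
  nlinarith [pow_pos hkm 2]

end OVW
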