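import Pool.Agent.H3.OVW.Ex

/-! MODULE BESSEL (project MP_d1c297_lc).

`bessel`: for independent uniform letters `y p`, the functions `χ (y p)` are orthogonal in `L²`.
Proof: with signs `ε p = ±1`, `∑ |Ex (H * χ_p)| = Ex (H * ∑ ε_p χ_p) ≤ √Ex (∑ ε_p χ_p)² = √(∑_p Ex χ_p²) ≤ √(v |W|)`
(Cauchy–Schwarz; the cross terms `Ex (χ (y p) * χ (y p'))` vanish: resample coordinate `p` by `Ex_update`).

`force_one`: overwriting the letter at the place `P g`, `g` uniform in `Fin G`, costs at most `√(|Γ|/G)`.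
Proof: let `ρ = #κ⁻¹(a) / |Γ| ≥ 1/|Γ|`, `χ g = ind (κ g = a) / ρ - 1` (mean 0, `Ex χ² = (1-ρ)/ρ ≤ |Γ|`);
`Ex_y H(update (κ∘y) π a) = Ex_y (H(κ∘y) * ind (κ (y π) = a)) / ρ` (resample coordinate `π` by `Ex_update`), so the difference is
`(1/G) ∑_g Ex (H(κ∘y) χ(y (P g)))`; apply `bessel` to `W = image P`.

`force_bit`: `Ex_b H(update b π true) - Ex_b H(update b π false) = 2 Ex_b (H b * χ (b π))`, `χ = ±1`. -/

namespace OVW

open scoped BigOperators

theorem bessel_sq {Ω : Type} [Fintype Ω] [Nonempty Ω] (f : Ω → ℝ) :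
    (Ex f) ^ 2 ≤ Ex (fun ω => f ω ^ 2) := by
  have h1 : 0 ≤ Ex (fun ω => (f ω - Ex f) ^ 2) := Ex_nonneg fun ω => sq_nonneg _
  have h2 : ∀ ω, (f ω - Ex f) ^ 2 = (f ω ^ 2 - f ω * (2 * Ex f)) + (Ex f) ^ 2 := by
    intro ω; ring
  simp only [h2] at h1
  rw [Ex_add, Ex_const, Ex_sub, Ex_mul_right] at h1
  nlinarith

theorem bessel_cross {Γ : Type} [Fintype Γ] [Nonempty Γ] {L : ℕ} (χ : Γ → ℝ) (h0 : Ex χ = 0)
    {p q : Fin L} (hpq : p ≠ q) : Ex (fun y : Fin L → Γ => χ (y p) * χ (y q)) = 0 := by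
  classical
  rw [Ex_update _ p]
  have h1 : ∀ (y : Fin L → Γ) (x : Γ), χ (Function.update y p x p) * χ (Function.update y p x q) =
      χ x * χ (y q) := by
    intro y x
    rw [Function.update_self, Function.update_of_ne (Ne.symm hpq)]
  simp only [h1]
  simp only [Ex_mul_right, h0, zero_mul]
  exact Ex_const 0

theorem bessel_diag {Γ : Type} [Fintype Γ] [Nonempty Γ] {L : ℕ} (f : Γ → ℝ)
    (p : Fin L) : Ex (fun y : Fin L → Γ => f (y p)) = Ex f := by
  classical
  rw [Ex_update _ p]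
  have h1 : ∀ (y : Fin L → Γ) (x : Γ), f (Function.update y p x p) = f x := by
    intro y x
    rw [Function.update_self]
  simp only [h1]
  exact Ex_const _

theorem bessel {Γ : Type} [Fintype Γ] [Nonempty Γ] (L : ℕ) (H : (Fin L → Γ) → ℝ)
    (hH : ∀ y, |H y| ≤ 1) (χ : Γ → ℝ) (h0 : Ex χ = 0) (v : ℝ) (hv : Ex (fun g => χ g ^ 2) ≤ v)
    (W : Finset (Fin L)) :
    ∑ p ∈ W, |Ex (fun y : Fin L → Γ => H y * χ (y p))| ≤ Real.sqrt (v * W.card) := by
  classical
  set E : Fin L → ℝ := fun p => Ex (fun y : Fin L → Γ => H y * χ (y p)) with hE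
  set s : Fin L → ℝ := fun p => if 0 ≤ E p then 1 else -1 with hs
  have hs2 : ∀ p, s p * s p = 1 := by
    intro p
    simp only [hs]
    split_ifs <;> norm_num
  have habs : ∀ p, |E p| = s p * E p := by
    intro p
    simp only [hs]
    split_ifs with h
    · rw [abs_of_nonneg h, one_mul]
    · push Not at h
      rw [abs_of_neg h]; ring
  set S : (Fin L → Γ) → ℝ := fun y => ∑ p ∈ W, s p * χ (y p) with hS
  have h1 : ∑ p ∈ W, |E p| = Ex (fun y => H y * S y) := by
    have : ∀ y, H y * S y = ∑ p ∈ W, s p * (H y * χ (y p)) := by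
      intro y
      simp only [hS]
      rw [Finset.mul_sum]
      exact Finset.sum_congr rfl fun p _ => by ring
    simp only [this]
    rw [Ex_sum]
    refine Finset.sum_congr rfl fun p _ => ?_
    rw [habs p, Ex_mul_left]
  have h2 : Ex (fun y => S y ^ 2) = W.card * Ex (fun g => χ g ^ 2) := by
    have : ∀ y, S y ^ 2 = ∑ p ∈ W, ∑ q ∈ W, (s p * s q) * (χ (y p) * χ (y q)) := by
      intro y
      simp only [hS]
      rw [sq, Finset.sum_mul_sum]
      exact Finset.sum_congr rfl fun p _ => Finset.sum_congr rfl fun q _ => by ring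
    simp only [this]
    rw [Ex_sum]
    have h3 : ∀ p ∈ W, Ex (fun y : Fin L → Γ => ∑ q ∈ W, (s p * s q) * (χ (y p) * χ (y q))) =
        Ex (fun g => χ g ^ 2) := by
      intro p hp
      rw [Ex_sum, Finset.sum_eq_single p]
      · rw [hs2 p]
        have : ∀ y : Fin L → Γ, 1 * (χ (y p) * χ (y p)) = χ (y p) ^ 2 := by
          intro y; ring
        simp only [this]
        exact bessel_diag (fun g => χ g ^ 2) p
      · intro q _ hq
        rw [Ex_mul_left, bessel_cross χ h0 (Ne.symm hq), mul_zero]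
      · intro h; exact absurd hp h
    rw [Finset.sum_congr rfl h3, Finset.sum_const, nsmul_eq_mul]
  change ∑ p ∈ W, |E p| ≤ _
  rw [h1]
  apply Real.le_sqrt_of_sq_le
  refine (bessel_sq _).trans ?_
  have h4 : Ex (fun y => (H y * S y) ^ 2) ≤ Ex (fun y => S y ^ 2) := by
    refine Ex_mono fun y => ?_
    rw [mul_pow]
    have h5 : H y ^ 2 ≤ 1 := by
      have := hH y
      rw [← sq_abs]
      have h6 := abs_nonneg (H y)
      nlinarith
    have h7 := sq_nonneg (S y)
    nlinarith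
  refine h4.trans ?_
  rw [h2, mul_comm v]
  exact mul_le_mul_of_nonneg_left hv (Nat.cast_nonneg _)

theorem bessel_avg {Γ : Type} [Fintype Γ] [Nonempty Γ] {L G : ℕ} (hG : 0 < G)
    (P : Fin G → Fin L) (hP : Function.Injective P) (H : (Fin L → Γ) → ℝ)
    (hH : ∀ y, |H y| ≤ 1) (χ : Γ → ℝ) (h0 : Ex χ = 0) (v : ℝ) (hv0 : 0 ≤ v)
    (hv : Ex (fun g => χ g ^ 2) ≤ v) :
    Ex (fun g : Fin G => |Ex (fun y : Fin L → Γ => H y * χ (y (P g)))|) ≤ Real.sqrt (v / G) := by
  classical
  have h1 := bessel L H hH χ h0 v hv (Finset.univ.map ⟨P, hP⟩)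
  rw [Finset.sum_map, Finset.card_map, Finset.card_univ, Fintype.card_fin] at h1
  have hG' : (0 : ℝ) < G := by exact_mod_cast hG
  unfold Ex at h1 ⊢
  rw [Fintype.card_fin G, div_le_iff₀ hG']
  refine h1.trans (le_of_eq ?_)
  rw [Real.sqrt_mul hv0, Real.sqrt_div hv0]
  have h2 : Real.sqrt (G : ℝ) * Real.sqrt (G : ℝ) = G := Real.mul_self_sqrt hG'.le
  have h3 : Real.sqrt (G : ℝ) ≠ 0 := (Real.sqrt_pos.2 hG').ne'
  field_simp
  rw [sq, h2]

theorem force_one {A Γ : Type} [Fintype Γ] [Nonempty Γ] [DecidableEq A] (κ : Γ → A) (a : A)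
    (ha : ∃ g, κ g = a) (L G : ℕ) (hG : 0 < G) (P : Fin G → Fin L) (hP : Function.Injective P)
    (H : (Fin L → A) → ℝ) (hH : ∀ x, |H x| ≤ 1) :
    |Ex (fun g : Fin G => Ex (fun y : Fin L → Γ => H (Function.update (fun i => κ (y i)) (P g) a)))
      - Ex (fun y : Fin L → Γ => H (fun i => κ (y i)))| ≤
      Real.sqrt ((Fintype.card Γ : ℝ) / G) := by
  classical
  have hGne : Nonempty (Fin G) := ⟨⟨0, hG⟩⟩
  have hΓ : (0 : ℝ) < Fintype.card Γ := card_pos'
  set ρ : ℝ := Ex (fun g => ind (κ g = a)) with hρ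
  have hρ1 : 1 / (Fintype.card Γ : ℝ) ≤ ρ := by
    obtain ⟨g0, hg0⟩ := ha
    rw [hρ]
    unfold Ex
    apply div_le_div_of_nonneg_right _ hΓ.le
    calc (1 : ℝ) = ind (κ g0 = a) := (ind_true hg0).symm
      _ ≤ ∑ g, ind (κ g = a) :=
        Finset.single_le_sum (f := fun g => ind (κ g = a)) (fun g _ => ind_nonneg _)
          (Finset.mem_univ g0)
  have hρ0 : 0 < ρ := lt_of_lt_of_le (by positivity) hρ1
  set χ : Γ → ℝ := fun g => ind (κ g = a) * ρ⁻¹ - 1 with hχ
  have hχ0 : Ex χ = 0 := by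
    simp only [hχ]
    rw [Ex_sub, Ex_const, Ex_mul_right, ← hρ, mul_inv_cancel₀ hρ0.ne', sub_self]
  have hχ2 : Ex (fun g => χ g ^ 2) ≤ Fintype.card Γ := by
    have h1 : ∀ g, χ g ^ 2 = ind (κ g = a) * (ρ⁻¹ * ρ⁻¹ - 2 * ρ⁻¹) + 1 := by
      intro g
      simp only [hχ]
      by_cases h : κ g = a
      · rw [ind_true h]; ring
      · rw [ind_false h]; ring
    simp only [h1]
    rw [Ex_add, Ex_const, Ex_mul_right, ← hρ]
    have h2 : ρ * (ρ⁻¹ * ρ⁻¹ - 2 * ρ⁻¹) + 1 = ρ⁻¹ - 1 := by
      field_simp; ring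
    rw [h2]
    have h3 : ρ⁻¹ ≤ Fintype.card Γ := by
      rw [inv_le_comm₀ hρ0 hΓ, ← one_div]
      exact hρ1
    linarith
  have hstep : ∀ p : Fin L,
      Ex (fun y : Fin L → Γ => H (Function.update (fun i => κ (y i)) p a)) -
        Ex (fun y : Fin L → Γ => H (fun i => κ (y i))) =
      Ex (fun y : Fin L → Γ => H (fun i => κ (y i)) * χ (y p)) := by
    intro p
    have h1 : Ex (fun y : Fin L → Γ => H (fun i => κ (y i)) * ind (κ (y p) = a)) =
        Ex (fun y : Fin L → Γ => H (Function.update (fun i => κ (y i)) p a)) * ρ := by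
      rw [Ex_update _ p]
      have h2 : ∀ (y : Fin L → Γ) (x : Γ),
          H (fun i => κ (Function.update y p x i)) * ind (κ (Function.update y p x p) = a) =
          H (Function.update (fun i => κ (y i)) p a) * ind (κ x = a) := by
        intro y x
        rw [Function.update_self]
        by_cases h : κ x = a
        · congr 2
          funext i
          by_cases hi : i = p
          · subst hi
            rw [Function.update_self, Function.update_self, h]
          · rw [Function.update_of_ne hi, Function.update_of_ne hi]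
        · rw [ind_false h, mul_zero, mul_zero]
      simp only [h2]
      simp only [Ex_mul_left, ← hρ]
      rw [Ex_mul_right]
    have h3 : ∀ y : Fin L → Γ, H (fun i => κ (y i)) * χ (y p) =
        H (fun i => κ (y i)) * ind (κ (y p) = a) * ρ⁻¹ - H (fun i => κ (y i)) := by
      intro y
      simp only [hχ]
      ring
    simp only [h3]
    rw [Ex_sub, Ex_mul_right, h1, mul_assoc, mul_inv_cancel₀ hρ0.ne', mul_one]
  have h5 : Ex (fun g : Fin G => Ex (fun y : Fin L → Γ =>
        H (Function.update (fun i => κ (y i)) (P g) a)))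
      - Ex (fun y : Fin L → Γ => H (fun i => κ (y i))) =
      Ex (fun g : Fin G => Ex (fun y : Fin L → Γ => H (fun i => κ (y i)) * χ (y (P g)))) := by
    simp only [← hstep]
    rw [Ex_sub, Ex_const]
  rw [h5]
  refine (abs_Ex_le_Ex_abs _).trans ?_
  exact bessel_avg hG P hP (fun y => H (fun i => κ (y i))) (fun y => hH _) χ hχ0 _ hΓ.le hχ2

theorem bessel_bool (f : Bool → ℝ) : Ex f = (f true + f false) / 2 := by
  unfold Ex
  rw [Fintype.sum_bool, Fintype.card_bool]
  norm_num

theorem force_bit (L G : ℕ) (hG : 0 < G) (P : Fin G → Fin L) (hP : Function.Injective P)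
    (H : (Fin L → Bool) → ℝ) (hH : ∀ x, |H x| ≤ 1) :
    Ex (fun g : Fin G => |Ex (fun b : Fin L → Bool => H (Function.update b (P g) true))
      - Ex (fun b : Fin L → Bool => H (Function.update b (P g) false))|) ≤ 2 / Real.sqrt G := by
  classical
  have hG' : (0 : ℝ) < G := by exact_mod_cast hG
  set χ : Bool → ℝ := fun b => if b then 1 else -1 with hχ
  have hstep : ∀ p : Fin L, Ex (fun b : Fin L → Bool => H (Function.update b p true))
      - Ex (fun b : Fin L → Bool => H (Function.update b p false)) =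
      2 * Ex (fun b : Fin L → Bool => H b * χ (b p)) := by
    intro p
    rw [Ex_update (fun b : Fin L → Bool => H b * χ (b p)) p]
    simp only [Function.update_self]
    simp only [bessel_bool]
    simp only [hχ]
    rw [← Ex_sub, ← Ex_mul_left]
    congr 1
    funext b
    simp
    ring
  have h1 : Ex (fun g : Fin G => |Ex (fun b : Fin L → Bool => H (Function.update b (P g) true))
      - Ex (fun b : Fin L → Bool => H (Function.update b (P g) false))|) =
      2 * Ex (fun g : Fin G => |Ex (fun b : Fin L → Bool => H b * χ (b (P g)))|) := by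
    simp only [hstep]
    simp only [abs_mul, abs_of_pos (by norm_num : (0 : ℝ) < 2)]
    rw [Ex_mul_left]
  rw [h1]
  have h2 := bessel_avg hG P hP H hH χ (by rw [bessel_bool]; simp [hχ]) 1 zero_le_one
    (by rw [bessel_bool]; simp [hχ])
  calc 2 * Ex (fun g : Fin G => |Ex (fun b : Fin L → Bool => H b * χ (b (P g)))|)
      ≤ 2 * Real.sqrt (1 / G) := by linarith
    _ = 2 / Real.sqrt G := by
      rw [Real.sqrt_div zero_le_one, Real.sqrt_one]; ring

end OVW
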