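import Pool.Agent.H3.OVW.Words

/-! MODULE COMP (project MP_d1c297_lc): bounded quantifiers over computable lists preserve computability, and
computability of the basic list functions. -/

namespace OVW

section general
variable {α β : Type} [Primcodable α] [Primcodable β]

theorem comp_exists_bool {p : α → Prop} (hp : ComputablePred p) :
    ∃ f : α → Bool, Computable f ∧ ∀ a, f a = true ↔ p a := by
  obtain ⟨f, hf, hpf⟩ := ComputablePred.computable_iff.1 hp
  subst hpf
  exact ⟨f, hf, fun a => Iff.rfl⟩

theorem comp_of_bool {p : α → Prop} {f : α → Bool} (hf : Computable f)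
    (h : ∀ a, f a = true ↔ p a) : ComputablePred p := by
  refine ComputablePred.computable_iff.2 ⟨f, hf, ?_⟩
  funext a
  exact propext (h a).symm

theorem comp_foldl {σ : Type} [Primcodable σ] {l : α → List β} {g : α → σ} {h : α → σ × β → σ}
    (hl : Computable l) (hg : Computable g) (hh : Computable₂ h) :
    Computable (fun a => (l a).foldl (fun s b => h a (s, b)) (g a)) := by
  have h1 : Computable (fun a => Nat.rec (motive := fun _ => σ) (g a)
      (fun n IH => Option.casesOn (motive := fun _ => σ) ((l a)[n]?) IH (fun b => h a (IH, b)))
      (l a).length) := by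
    refine Computable.nat_rec (f := fun a => (l a).length) (g := g)
      (h := fun a (x : ℕ × σ) => Option.casesOn (motive := fun _ => σ) ((l a)[x.1]?) x.2
        (fun b => h a (x.2, b))) (Computable.list_length.comp hl) hg ?_
    refine Computable.option_casesOn (α := α × (ℕ × σ)) (o := fun x => (l x.1)[x.2.1]?)
      (f := fun x => x.2.2) (g := fun x b => h x.1 (x.2.2, b)) ?_ ?_ ?_
    · exact Computable.list_getElem?.comp (hl.comp Computable.fst)
        (Computable.fst.comp Computable.snd)
    · exact Computable.snd.comp Computable.snd
    · exact hh.comp (Computable.fst.comp Computable.fst)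
        ((Computable.snd.comp (Computable.snd.comp Computable.fst)).pair Computable.snd)
  refine h1.of_eq ?_
  intro a
  have key : ∀ n, Nat.rec (motive := fun _ => σ) (g a)
      (fun n IH => Option.casesOn (motive := fun _ => σ) ((l a)[n]?) IH (fun b => h a (IH, b))) n =
      ((l a).take n).foldl (fun s b => h a (s, b)) (g a) := by
    intro n
    induction n with
    | zero => simp
    | succ n ih =>
      have h2 : Nat.rec (motive := fun _ => σ) (g a)
          (fun n IH => Option.casesOn (motive := fun _ => σ) ((l a)[n]?) IH
            (fun b => h a (IH, b))) (n + 1) =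
          Option.casesOn (motive := fun _ => σ) ((l a)[n]?)
            (((l a).take n).foldl (fun s b => h a (s, b)) (g a))
            (fun b => h a (((l a).take n).foldl (fun s b => h a (s, b)) (g a), b)) := by
        rw [← ih]
      rw [h2, List.take_add_one, List.foldl_append]
      cases (l a)[n]? <;> rfl
  rw [key, List.take_length]

omit [Primcodable β] in
theorem comp_foldl_count (q : β → Bool) (l : List β) : ∀ s : ℕ,
    l.foldl (fun s b => cond (q b) (s + 1) s) s = s + (l.filter q).length := by
  induction l with
  | nil => intro s; simp
  | cons b l ih =>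
    intro s
    rw [List.foldl_cons, ih]
    cases hb : q b <;> simp [hb]
    omega

/-- number of elements of a computable list satisfying a computable predicate -/
theorem comp_filter_length_bool {q : α → β → Bool}
    (hq : Computable (fun x : α × β => q x.1 x.2))
    {l : α → List β} (hl : Computable l) :
    Computable (fun a => ((l a).filter (q a)).length) := by
  have h1 : Computable (fun a => (l a).foldl
      (fun s b => (fun a (x : ℕ × β) => cond (q a x.2) (x.1 + 1) x.1) a (s, b)) 0) := by
    refine comp_foldl (g := fun _ => 0) (h := fun a (x : ℕ × β) => cond (q a x.2) (x.1 + 1) x.1)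
      hl (Computable.const 0) ?_
    refine Computable.cond ?_ ?_ ?_
    · exact hq.comp (Computable.fst.pair (Computable.snd.comp Computable.snd))
    · exact Computable.succ.comp (Computable.fst.comp Computable.snd)
    · exact Computable.fst.comp Computable.snd
  refine h1.of_eq ?_
  intro a
  rw [comp_foldl_count (q a) (l a) 0, zero_add]

theorem comp_not {p : α → Prop} (hp : ComputablePred p) : ComputablePred (fun a => ¬ p a) :=
  hp.not

theorem comp_and {p q : α → Prop} (hp : ComputablePred p) (hq : ComputablePred q) :
    ComputablePred (fun a => p a ∧ q a) := by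
  obtain ⟨f, hf, hf'⟩ := comp_exists_bool hp
  obtain ⟨g, hg, hg'⟩ := comp_exists_bool hq
  refine comp_of_bool (Primrec.and.to_comp.comp hf hg) ?_
  intro a
  rw [Bool.and_eq_true, hf', hg']

theorem comp_or {p q : α → Prop} (hp : ComputablePred p) (hq : ComputablePred q) :
    ComputablePred (fun a => p a ∨ q a) := by
  obtain ⟨f, hf, hf'⟩ := comp_exists_bool hp
  obtain ⟨g, hg, hg'⟩ := comp_exists_bool hq
  refine comp_of_bool (Primrec.or.to_comp.comp hf hg) ?_
  intro a
  rw [Bool.or_eq_true, hf', hg']

theorem comp_imp {p q : α → Prop} (hp : ComputablePred p) (hq : ComputablePred q) :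
    ComputablePred (fun a => p a → q a) :=
  (comp_or (comp_not hp) hq).of_eq (fun a => by tauto)

theorem comp_comp {p : β → Prop} (hp : ComputablePred p) {f : α → β} (hf : Computable f) :
    ComputablePred (fun a => p (f a)) := by
  obtain ⟨g, hg, hg'⟩ := comp_exists_bool hp
  exact comp_of_bool (hg.comp hf) (fun a => hg' (f a))

/-- decide `∃ b ∈ l a, p a b` -/
theorem comp_exists_mem {p : α → β → Prop} (hp : ComputablePred (fun x : α × β => p x.1 x.2))
    {l : α → List β} (hl : Computable l) : ComputablePred (fun a => ∃ b ∈ l a, p a b) := by
  obtain ⟨g, hg, hg'⟩ := comp_exists_bool hp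
  have h1 : Computable (fun a => ((l a).filter (fun b => g (a, b))).length) :=
    comp_filter_length_bool (q := fun a b => g (a, b)) hg hl
  have h2 : Computable (fun a => decide (0 < ((l a).filter (fun b => g (a, b))).length)) :=
    (Primrec.nat_lt.decide.to_comp.comp (Computable.const 0) h1)
  refine comp_of_bool h2 ?_
  intro a
  rw [decide_eq_true_eq, List.length_pos_iff_exists_mem]
  constructor
  · rintro ⟨b, hb⟩
    rw [List.mem_filter] at hb
    exact ⟨b, hb.1, (hg' (a, b)).1 hb.2⟩
  · rintro ⟨b, hb, hpb⟩
    exact ⟨b, List.mem_filter.2 ⟨hb, (hg' (a, b)).2 hpb⟩⟩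

/-- decide `∀ b ∈ l a, p a b` by recursion on the index (`Computable.nat_rec`, `Computable.list_getElem?`) -/
theorem comp_forall_mem {p : α → β → Prop} (hp : ComputablePred (fun x : α × β => p x.1 x.2))
    {l : α → List β} (hl : Computable l) : ComputablePred (fun a => ∀ b ∈ l a, p a b) := by
  have h1 : ComputablePred (fun a => ¬ ∃ b ∈ l a, ¬ p a b) :=
    comp_not (comp_exists_mem (p := fun a b => ¬ p a b) (comp_not hp) hl)
  refine h1.of_eq ?_
  intro a
  push Not
  rfl

/-- number of elements of a computable list satisfying a computable predicate -/
theorem comp_filter_length {p : α → β → Prop} [∀ a, DecidablePred (p a)]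
    (hp : ComputablePred (fun x : α × β => p x.1 x.2))
    {l : α → List β} (hl : Computable l) :
    Computable (fun a => ((l a).filter (fun b => decide (p a b))).length) := by
  obtain ⟨g, hg, hg'⟩ := comp_exists_bool hp
  refine (comp_filter_length_bool (q := fun a b => g (a, b)) hg hl).of_eq ?_
  intro a
  congr 2
  funext b
  rw [Bool.eq_iff_iff, hg' (a, b), decide_eq_true_eq]

end general

variable {k : ℕ}

theorem primrec_words (k : ℕ) : Primrec (words k) := by
  have h : Primrec (fun m : ℕ => Nat.rec (motive := fun _ => List (Word k)) [[]]
      (fun _ ih => ih.flatMap fun w => (List.finRange k).map fun a => a :: w) m) := by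
    refine Primrec.nat_rec₁ (f := fun _ (ih : List (Word k)) =>
      ih.flatMap fun w => (List.finRange k).map fun a => a :: w) [[]] ?_
    refine Primrec.list_flatMap (α := ℕ × List (Word k)) (f := fun x => x.2)
      (g := fun _ w => (List.finRange k).map fun a => a :: w) Primrec.snd ?_
    refine Primrec.list_map (α := (ℕ × List (Word k)) × Word k) (f := fun _ => List.finRange k)
      (g := fun x a => a :: x.2) (Primrec.const _) ?_
    exact Primrec.list_cons.comp Primrec.snd (Primrec.snd.comp Primrec.fst)
  refine h.of_eq ?_
  intro m
  induction m with
  | zero => rfl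
  | succ m ih => show List.flatMap _ _ = List.flatMap _ _; rw [ih]

theorem primrec_sub : Primrec₂ (sub : Fin k → XWord k → Word k) := by
  refine Primrec.list_map (α := Fin k × XWord k) (f := fun x => x.2)
    (g := fun x (o : Option (Fin k)) => o.getD x.1) Primrec.snd ?_
  exact Primrec.option_getD.comp Primrec.snd (Primrec.fst.comp Primrec.fst)

theorem primrec_leaves : Primrec (leaves : List (XWord k) → List (Word k)) := by
  have h : Primrec (fun L : List (XWord k) => L.foldr (fun W acc =>
      (fun (_ : List (XWord k)) (x : XWord k × List (Word k)) =>
        (List.finRange k).flatMap fun a => x.2.map fun l => sub a x.1 ++ l) L (W, acc)) [[]]) := by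
    refine Primrec.list_foldr (α := List (XWord k)) (f := fun L => L) (g := fun _ => [[]])
      (h := fun _ (x : XWord k × List (Word k)) =>
        (List.finRange k).flatMap fun a => x.2.map fun l => sub a x.1 ++ l)
      Primrec.id (Primrec.const _) ?_
    refine Primrec.list_flatMap (α := List (XWord k) × (XWord k × List (Word k)))
      (f := fun _ => List.finRange k) (g := fun x a => x.2.2.map fun l => sub a x.2.1 ++ l)
      (Primrec.const _) ?_
    refine Primrec.list_map (α := (List (XWord k) × (XWord k × List (Word k))) × Fin k)
      (f := fun x => x.1.2.2) (g := fun x l => sub x.2 x.1.2.1 ++ l)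
      (Primrec.snd.comp (Primrec.snd.comp Primrec.fst)) ?_
    exact Primrec.list_append.comp
      (primrec_sub.comp (Primrec.snd.comp Primrec.fst)
        (Primrec.fst.comp (Primrec.snd.comp (Primrec.fst.comp Primrec.fst)))) Primrec.snd
  refine h.of_eq ?_
  intro L
  induction L with
  | nil => rfl
  | cons W L ih => rw [List.foldr_cons, leaves]; simp only at ih ⊢; rw [ih]

/-- all sublists, by right fold (same members as `List.sublists`) -/
def subl {β : Type} : List β → List (List β)
  | [] => [[]]
  | b :: l => subl l ++ (subl l).map (fun s => b :: s)

theorem mem_subl {β : Type} {l s : List β} : s ∈ subl l ↔ s.Sublist l := by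
  induction l generalizing s with
  | nil => simp [subl]
  | cons b l ih =>
    rw [subl, List.mem_append, List.mem_map, List.sublist_cons_iff, ih]
    constructor
    · rintro (h | ⟨r, hr, rfl⟩)
      · exact Or.inl h
      · exact Or.inr ⟨r, rfl, ih.1 hr⟩
    · rintro (h | ⟨r, rfl, hr⟩)
      · exact Or.inl h
      · exact Or.inr ⟨r, ih.2 hr, rfl⟩

theorem primrec_subl {β : Type} [Primcodable β] : Primrec (subl : List β → List (List β)) := by
  have h : Primrec (fun L : List β => L.foldr (fun b acc =>
      (fun (_ : List β) (x : β × List (List β)) => x.2 ++ x.2.map (fun s => x.1 :: s))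
        L (b, acc)) [[]]) := by
    refine Primrec.list_foldr (α := List β) (f := fun L => L) (g := fun _ => [[]])
      (h := fun _ (x : β × List (List β)) => x.2 ++ x.2.map (fun s => x.1 :: s))
      Primrec.id (Primrec.const _) ?_
    refine Primrec.list_append.comp (Primrec.snd.comp Primrec.snd) ?_
    refine Primrec.list_map (α := List β × (β × List (List β))) (f := fun x => x.2.2)
      (g := fun x s => x.2.1 :: s) (Primrec.snd.comp Primrec.snd) ?_
    exact Primrec.list_cons.comp (Primrec.fst.comp (Primrec.snd.comp Primrec.fst)) Primrec.snd
  refine h.of_eq ?_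
  intro L
  induction L with
  | nil => rfl
  | cons W L ih => rw [List.foldr_cons, subl]; simp only at ih ⊢; rw [ih]

/-- words over `⋆' , ⋆ , letters`, cut into blocks in front of every `⋆'` -/
def parse : List (Option (Option (Fin k))) → List (XWord k)
  | [] => [[]]
  | none :: Z => [] :: (match parse Z with
      | [] => []
      | b :: bs => (none :: b) :: bs)
  | some o :: Z => match parse Z with
      | [] => []
      | b :: bs => (o :: b) :: bs

/-- one step of `parse` -/
def comp_step (x : Option (Option (Fin k))) (P : List (XWord k)) : List (XWord k) :=
  Option.casesOn (motive := fun _ => List (XWord k)) x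
    ([] :: (List.casesOn (motive := fun _ => List (XWord k)) P []
      (fun b bs => (none :: b) :: bs)))
    (fun o => List.casesOn (motive := fun _ => List (XWord k)) P []
      (fun b bs => (o :: b) :: bs))

theorem comp_parse_cons (x : Option (Option (Fin k))) (Z : List (Option (Option (Fin k)))) :
    parse (x :: Z) = comp_step x (parse Z) := by
  cases x with
  | none => simp only [parse, comp_step]; cases parse Z <;> rfl
  | some o => simp only [parse, comp_step]; cases parse Z <;> rfl

theorem primrec_parse : Primrec (parse : List (Option (Option (Fin k))) → List (XWord k)) := by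
  have h : Primrec (fun L : List (Option (Option (Fin k))) => L.foldr (fun b acc =>
      (fun (_ : List (Option (Option (Fin k)))) (x : Option (Option (Fin k)) × List (XWord k)) =>
        comp_step x.1 x.2) L (b, acc)) [[]]) := by
    refine Primrec.list_foldr (α := List (Option (Option (Fin k)))) (f := fun L => L)
      (g := fun _ => [[]])
      (h := fun _ (x : Option (Option (Fin k)) × List (XWord k)) => comp_step x.1 x.2)
      Primrec.id (Primrec.const _) ?_
    refine Primrec.option_casesOn
      (α := List (Option (Option (Fin k))) × (Option (Option (Fin k)) × List (XWord k)))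
      (o := fun x => x.2.1)
      (f := fun x => [] :: (List.casesOn (motive := fun _ => List (XWord k)) x.2.2 []
        (fun b bs => (none :: b) :: bs)))
      (g := fun x o => List.casesOn (motive := fun _ => List (XWord k)) x.2.2 []
        (fun b bs => (o :: b) :: bs)) (Primrec.fst.comp Primrec.snd) ?_ ?_
    · refine Primrec.list_cons.comp (Primrec.const _) ?_
      refine Primrec.list_casesOn
        (α := List (Option (Option (Fin k))) × (Option (Option (Fin k)) × List (XWord k)))
        (f := fun x => x.2.2) (g := fun _ => [])
        (h := fun _ (y : XWord k × List (XWord k)) => (none :: y.1) :: y.2)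
        (Primrec.snd.comp Primrec.snd) (Primrec.const _) ?_
      exact Primrec.list_cons.comp
        (Primrec.list_cons.comp (Primrec.const _) (Primrec.fst.comp Primrec.snd))
        (Primrec.snd.comp Primrec.snd)
    · refine Primrec.list_casesOn
        (α := (List (Option (Option (Fin k))) × (Option (Option (Fin k)) × List (XWord k))) ×
          Option (Fin k))
        (f := fun x => x.1.2.2) (g := fun _ => [])
        (h := fun x (y : XWord k × List (XWord k)) => (x.2 :: y.1) :: y.2)
        (Primrec.snd.comp (Primrec.snd.comp Primrec.fst)) (Primrec.const _) ?_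
      exact Primrec.list_cons.comp
        (Primrec.list_cons.comp (Primrec.snd.comp Primrec.fst) (Primrec.fst.comp Primrec.snd))
        (Primrec.snd.comp Primrec.snd)
  refine h.of_eq ?_
  intro L
  induction L with
  | nil => rfl
  | cons W L ih => rw [List.foldr_cons, comp_parse_cons]; simp only at ih ⊢; rw [ih]

/-- all words of length `m` over `⋆', ⋆, letters` -/
def bigWords (k : ℕ) : ℕ → List (List (Option (Option (Fin k))))
  | 0 => [[]]
  | m + 1 => (bigWords k m).flatMap fun w =>
      (none :: some none :: (List.finRange k).map (fun a => some (some a))).map fun a => a :: w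

theorem primrec_bigWords (k : ℕ) : Primrec (bigWords k) := by
  have h : Primrec (fun m : ℕ => Nat.rec
      (motive := fun _ => List (List (Option (Option (Fin k))))) [[]]
      (fun _ ih => ih.flatMap fun w =>
        (none :: some none :: (List.finRange k).map (fun a => some (some a))).map
          fun a => a :: w) m) := by
    refine Primrec.nat_rec₁ (f := fun _ (ih : List (List (Option (Option (Fin k))))) =>
      ih.flatMap fun w => (none :: some none ::
        (List.finRange k).map (fun a => some (some a))).map fun a => a :: w) [[]] ?_
    refine Primrec.list_flatMap (α := ℕ × List (List (Option (Option (Fin k)))))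
      (f := fun x => x.2)
      (g := fun _ w => (none :: some none ::
        (List.finRange k).map (fun a => some (some a))).map fun a => a :: w) Primrec.snd ?_
    refine Primrec.list_map
      (α := (ℕ × List (List (Option (Option (Fin k))))) × List (Option (Option (Fin k))))
      (f := fun _ => none :: some none :: (List.finRange k).map (fun a => some (some a)))
      (g := fun x a => a :: x.2) (Primrec.const _) ?_
    exact Primrec.list_cons.comp Primrec.snd (Primrec.snd.comp Primrec.fst)
  refine h.of_eq ?_
  intro m
  induction m with
  | zero => rfl
  | succ m ih => show List.flatMap _ _ = List.flatMap _ _; rw [ih]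

theorem comp_mem_bigWords (Z : List (Option (Option (Fin k)))) : Z ∈ bigWords k Z.length := by
  induction Z with
  | nil => simp [bigWords]
  | cons x Z ih =>
    rw [List.length_cons, bigWords, List.mem_flatMap]
    refine ⟨Z, ih, ?_⟩
    rw [List.mem_map]
    refine ⟨x, ?_, rfl⟩
    rcases x with _ | _ | a
    · simp
    · simp
    · simp

/-- inverse of `parse` on lists of left variable words -/
def comp_unp : List (XWord k) → List (Option (Option (Fin k)))
  | [] => []
  | w :: ws => (none :: w.tail.map some) ++ comp_unp ws

theorem comp_parse_append (x : XWord k) (Z : List (Option (Option (Fin k)))) (b : XWord k)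
    (bs : List (XWord k)) (h : parse Z = b :: bs) : parse (x.map some ++ Z) = (x ++ b) :: bs := by
  induction x with
  | nil => simpa using h
  | cons o x ih =>
    rw [List.map_cons, List.cons_append, parse, ih]
    simp

theorem comp_parse_unp (ws : List (XWord k)) (h : ∀ w ∈ ws, LV w) :
    parse (comp_unp ws) = [] :: ws := by
  induction ws with
  | nil => rfl
  | cons w ws ih =>
    have h1 := ih (fun w' hw' => h w' (List.mem_cons_of_mem _ hw'))
    have h2 : LV w := h w List.mem_cons_self
    obtain ⟨w', rfl⟩ : ∃ w', w = none :: w' := by
      unfold LV at h2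
      cases w with
      | nil => simp at h2
      | cons o w' => simp at h2; exact ⟨w', by rw [h2]⟩
    rw [comp_unp, List.tail_cons, List.cons_append, parse,
      comp_parse_append w' (comp_unp ws) [] ws h1]
    simp

theorem comp_length_unp (ws : List (XWord k)) (h : ∀ w ∈ ws, LV w) :
    (comp_unp ws).length = ws.flatten.length := by
  induction ws with
  | nil => rfl
  | cons w ws ih =>
    have h1 := ih (fun w' hw' => h w' (List.mem_cons_of_mem _ hw'))
    have h2 : LV w := h w List.mem_cons_self
    obtain ⟨w', rfl⟩ : ∃ w', w = none :: w' := by
      unfold LV at h2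
      cases w with
      | nil => simp at h2
      | cons o w' => simp at h2; exact ⟨w', by rw [h2]⟩
    rw [comp_unp, List.flatten_cons, List.length_append, List.length_append, h1]
    simp

/-- every block list of the right shape and length is `parse` of a big word -/
theorem exists_parse {L : List (XWord k)} (h : Shape L) :
    ∃ Z ∈ bigWords k L.flatten.length, parse Z = L := by
  obtain ⟨c, ws, rfl, hws⟩ := h
  refine ⟨(c.map some).map some ++ comp_unp ws, ?_, ?_⟩
  · have h1 : ((c.map some).map some ++ comp_unp ws).length =
        (c.map some :: ws).flatten.length := by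
      rw [List.length_append, comp_length_unp ws hws, List.flatten_cons, List.length_append]
      simp
    rw [← h1]
    exact comp_mem_bigWords _
  · rw [comp_parse_append (c.map some) (comp_unp ws) [] ws (comp_parse_unp ws hws),
      List.append_nil]

end OVW
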