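import Pool.Agent.H3.OVW.RT

/-! MODULE CORR (project MP_d1c297_lc): a random tree whose nodes `z` are correlated with their far random extensions.

Let `A = Fin (k+1)`.  Choose `R ≥ 2/β²` and blocks `𝓑_i = {i K', …, (i+1) K' - 1}` (`i < R`), `L = R K'`, where `K' ≥ K` is so large that
`(β²/4) K' ≥ (N1+1) G + 1` with `G` from `exists_G` (`N1 √((k+1)/G) ≤ β²/8`).
For `x : Fin L → A` uniform put `f_i (ω, x) = avg_{m ∈ 𝓑_i} ind (B ((ofFn x).take m) ω) ∈ [0,1]`; `Ex f_i ≥ β`.
Second moment: `R² β² ≤ Ex (∑ f_i)² ≤ R + ∑_{i≠j} Ex (f_i f_j)`, so some `i < j` has `Ex (f_i f_j) ≥ β² - 1/R ≥ β²/2`.  Put `a = j K'`,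
`bbar (x : Word) = avg_{t < K'} avg_{y : Fin L → A} Ex_ω ind (B x ω ∧ B (x ++ (ofFn y).take (a + t - x.length)) ω)`.  For `m ∈ 𝓑_i`:
`avg_{x ∈ A^m} bbar x = avg_{m' ∈ 𝓑_j} Ex_{x : Fin L → A} Ex_ω ind (B (x↾m) ω ∧ B (x↾m') ω)` (independence of disjoint coordinates), so
`avg_{m ∈ 𝓑_i} avg_{x ∈ A^m} bbar x ≥ β²/2`, and the set of `m ∈ 𝓑_i` with `avg_{x ∈ A^m} bbar x ≥ β²/4` has `≥ (β²/4) K'` elements (`Ex_markov`).
Apply `exists_enum` and `RT` (with `κ = id`, `Γ = A`, `ψ = bbar`, `n = N1`, `τ = β²/4`).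
(`Bd L β B` for `β > 1` is impossible, so one may assume `β ≤ 1`; then the statement is only used for `β ≤ 1`.) -/

namespace OVW

open scoped BigOperators

/-- average of `F` over the words of length `m` -/
private noncomputable def corrAvg (k m : ℕ) (F : Word k → ℝ) : ℝ :=
  Ex (fun x : Fin m → Fin k => F (List.ofFn x))

private theorem corrAvg_zero (k : ℕ) (F : Word k → ℝ) : corrAvg k 0 F = F [] := by
  unfold corrAvg Ex
  simp

private theorem corrAvg_succ (k m : ℕ) (F : Word k → ℝ) :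
    corrAvg k (m + 1) F = Ex (fun a : Fin k => corrAvg k m (fun w => F (a :: w))) := by
  unfold corrAvg
  rw [← Ex_equiv (Fin.consEquiv (fun _ : Fin (m + 1) => Fin k)), Ex_prod]
  congr 1
  funext a
  congr 1
  funext b
  show F (List.ofFn (Fin.cons a b)) = F (a :: List.ofFn b)
  rw [List.ofFn_cons]

private theorem corrAvg_congr (k m : ℕ) (F G : Word k → ℝ)
    (h : ∀ w : Word k, w.length = m → F w = G w) : corrAvg k m F = corrAvg k m G := by
  unfold corrAvg
  congr 1
  funext x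
  exact h _ (List.length_ofFn)

private theorem corrAvg_mono (k m : ℕ) (F G : Word k → ℝ)
    (h : ∀ w : Word k, w.length = m → F w ≤ G w) : corrAvg k m F ≤ corrAvg k m G := by
  unfold corrAvg
  exact Ex_mono (fun x => h _ (List.length_ofFn))

private theorem corrAvg_add (k m n : ℕ) (F : Word k → ℝ) :
    corrAvg k (m + n) F = corrAvg k m (fun w => corrAvg k n (fun w' => F (w ++ w'))) := by
  induction m generalizing F with
  | zero => rw [corrAvg_zero, Nat.zero_add]; simp
  | succ m ih =>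
    rw [Nat.add_right_comm, corrAvg_succ, corrAvg_succ]
    congr 1
    funext a
    rw [ih]
    rfl

private theorem corrAvg_const (k m : ℕ) [NeZero k] (c : ℝ) : corrAvg k m (fun _ => c) = c := by
  unfold corrAvg
  exact Ex_const c

private theorem corrAvg_take (k m L : ℕ) [NeZero k] (hm : m ≤ L) (F : Word k → ℝ) :
    corrAvg k L (fun w => F (w.take m)) = corrAvg k m F := by
  obtain ⟨n, rfl⟩ := Nat.exists_eq_add_of_le hm
  rw [corrAvg_add]
  apply corrAvg_congr
  intro w hw
  have h1 : ∀ w' : Word k, (w ++ w').take m = w := by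
    intro w'
    rw [← hw, List.take_left']
    rfl
  simp_rw [h1]
  exact corrAvg_const k n _

/-- two prefixes of a random word: the longer one extends the shorter one by a random word -/
private theorem corrAvg_two (k m m' L : ℕ) [NeZero k] (h : m ≤ m') (h' : m' ≤ L)
    (F : Word k → Word k → ℝ) :
    corrAvg k m (fun x => corrAvg k L (fun y => F x (x ++ y.take (m' - x.length)))) =
      corrAvg k L (fun z => F (z.take m) (z.take m')) := by
  have h1 : corrAvg k L (fun z => F (z.take m) (z.take m')) =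
      corrAvg k L (fun z => (fun u : Word k => F (u.take m) u) (z.take m')) := by
    apply corrAvg_congr
    intro z hz
    simp only [List.take_take, Nat.min_eq_left h]
  rw [h1, corrAvg_take k m' L h' (fun u => F (u.take m) u)]
  obtain ⟨n, rfl⟩ := Nat.exists_eq_add_of_le h
  rw [corrAvg_add]
  apply corrAvg_congr
  intro x hx
  have h2 : ∀ y : Word k, m + n - x.length = n := by intro y; omega
  have h3 : corrAvg k L (fun y => F x (x ++ y.take (m + n - x.length))) =
      corrAvg k L (fun y => (fun u : Word k => F x (x ++ u)) (y.take n)) := by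
    apply corrAvg_congr
    intro y _
    simp only [h2 y]
  rw [h3, corrAvg_take k n L (by omega) (fun u => F x (x ++ u))]
  apply corrAvg_congr
  intro y _
  have h4 : (x ++ y).take m = x := by
    rw [← hx, List.take_left']
    rfl
  rw [h4]

private theorem corr_sq {Ω : Type} [Fintype Ω] [Nonempty Ω] (g : Ω → ℝ) :
    Ex g ^ 2 ≤ Ex (fun ω => g ω ^ 2) := by
  have h : 0 ≤ Ex (fun ω => (g ω - Ex g) ^ 2) := Ex_nonneg (fun ω => sq_nonneg _)
  have h2 : Ex (fun ω => (g ω - Ex g) ^ 2) = Ex (fun ω => g ω ^ 2) - Ex g ^ 2 := by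
    have h3 : (fun ω => (g ω - Ex g) ^ 2) =
        fun ω => (g ω ^ 2 - (2 * Ex g) * g ω) + Ex g ^ 2 := by
      funext ω; ring
    rw [h3, Ex_add, Ex_const, Ex_sub, Ex_mul_left]
    ring
  rw [h2] at h
  linarith

private theorem corr_second {Ω : Type} [Fintype Ω] [Nonempty Ω] (R : ℕ) (f : Fin R → Ω → ℝ)
    (h0 : ∀ i ω, 0 ≤ f i ω) (h1 : ∀ i ω, f i ω ≤ 1) {β : ℝ} (hβ : 0 < β)
    (hf : ∀ i, β ≤ Ex (f i)) (hR : 2 < R * β ^ 2) :
    ∃ i j, i < j ∧ β ^ 2 / 2 ≤ Ex (fun ω => f i ω * f j ω) := by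
  by_contra hcon
  push Not at hcon
  have h2 : ∀ i j, Ex (fun ω => f i ω * f j ω) ≤ β ^ 2 / 2 + (if i = j then 1 else 0) := by
    intro i j
    rcases lt_trichotomy i j with h | h | h
    · rw [if_neg h.ne]; linarith [hcon i j h]
    · subst h
      rw [if_pos rfl]
      have : Ex (fun ω => f i ω * f i ω) ≤ 1 := by
        apply Ex_le_of_le
        intro ω
        nlinarith [h0 i ω, h1 i ω]
      nlinarith [sq_nonneg β]
    · rw [if_neg h.ne']
      have h3 := hcon j i h
      have h4 : (fun ω => f i ω * f j ω) = fun ω => f j ω * f i ω := by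
        funext ω; ring
      rw [h4]
      linarith
  have h5 : Ex (fun ω => (∑ i, f i ω) ^ 2) = ∑ i, ∑ j, Ex (fun ω => f i ω * f j ω) := by
    have : (fun ω => (∑ i, f i ω) ^ 2) = fun ω => ∑ i, ∑ j, f i ω * f j ω := by
      funext ω
      rw [sq, Finset.sum_mul_sum]
    rw [this, Ex_sum]
    refine Finset.sum_congr rfl fun i _ => ?_
    rw [Ex_sum]
  have h6 : ∑ i, ∑ j, Ex (fun ω => f i ω * f j ω) ≤
      ∑ i : Fin R, ∑ j : Fin R, (β ^ 2 / 2 + (if i = j then (1 : ℝ) else 0)) :=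
    Finset.sum_le_sum fun i _ => Finset.sum_le_sum fun j _ => h2 i j
  have h7 : ∑ i : Fin R, ∑ j : Fin R, (β ^ 2 / 2 + (if i = j then (1 : ℝ) else 0)) =
      R * (R * (β ^ 2 / 2)) + R := by
    simp [Finset.sum_add_distrib]
  have h8 : (R : ℝ) * β ≤ Ex (fun ω => ∑ i, f i ω) := by
    rw [Ex_sum]
    calc (R : ℝ) * β = ∑ _i : Fin R, β := by simp
      _ ≤ _ := Finset.sum_le_sum fun i _ => hf i
  have h9 := corr_sq (fun ω => ∑ i, f i ω)
  have h10 : ((R : ℝ) * β) ^ 2 ≤ Ex (fun ω => ∑ i, f i ω) ^ 2 :=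
    pow_le_pow_left₀ (by positivity) h8 2
  have hRpos : (0 : ℝ) < R := by
    by_contra hneg
    push Not at hneg
    nlinarith [sq_nonneg β]
  have h11 : (R : ℝ) * (R * β ^ 2) ≤ R * 2 := by nlinarith
  have h12 := le_of_mul_le_mul_left h11 hRpos
  linarith

theorem corr {k : ℕ} {β : ℝ} (hβ : 0 < β) (N1 K : ℕ) :
    ∃ K' L : ℕ, K ≤ K' ∧ 0 < K' ∧ ∀ (Ω : Type) [Fintype Ω] [Nonempty Ω]
      (B : Word (k + 1) → Ω → Prop), Bd L β B →
      ∃ (U : Type) (_ : Fintype U) (_ : Nonempty U) (u0 : U → Word (k + 1))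
        (u : U → ℕ → XWord (k + 1)) (a : ℕ), a + K' ≤ L + 1 ∧
        (∀ x, tlen (u0 x) (u x) N1 ≤ a) ∧
        ∀ z : Word (k + 1), z.length ≤ N1 →
          β ^ 2 / 8 ≤ Ex (fun p : (U × Fin K') × (Fin L → Fin (k + 1)) =>
            Ex (fun ω => ind (B (tnode (u0 p.1.1) (u p.1.1) z) ω ∧
              B (tnode (u0 p.1.1) (u p.1.1) z ++
                (List.ofFn p.2).take (a + p.1.2 - (tnode (u0 p.1.1) (u p.1.1) z).length)) ω))) := by
  obtain ⟨R, hR⟩ := exists_nat_gt (2 / β ^ 2)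
  have hR2 : 2 < R * β ^ 2 := by
    rwa [div_lt_iff₀ (by positivity)] at hR
  obtain ⟨G, hG0, hG⟩ := exists_G (k + 1) N1 (ε := β ^ 2 / 8) (by positivity)
  obtain ⟨K0, hK0⟩ := exists_nat_ge (((N1 + 1) * G + 1 : ℕ) / (β ^ 2 / 4) : ℝ)
  set K' : ℕ := max (max K 1) K0 with hK'
  have hKK' : K ≤ K' := le_trans (le_max_left _ _) (le_max_left _ _)
  have hK'0 : 0 < K' := lt_of_lt_of_le Nat.one_pos (le_trans (le_max_right K 1) (le_max_left _ _))
  have hK'K0 : K0 ≤ K' := le_max_right _ _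
  have : Nonempty (Fin K') := ⟨⟨0, hK'0⟩⟩
  refine ⟨K', R * K', hKK', hK'0, ?_⟩
  intro Ω _ _ B hB
  -- the functions `f_i`
  let f : Fin R → ((Fin (R * K') → Fin (k + 1)) × Ω) → ℝ := fun i p =>
    Ex (fun t : Fin K' => ind (B ((List.ofFn p.1).take (i * K' + t)) p.2))
  have hf0 : ∀ i p, 0 ≤ f i p := fun i p => Ex_nonneg fun t => ind_nonneg _
  have hf1 : ∀ i p, f i p ≤ 1 := fun i p => Ex_le_of_le fun t => ind_le_one _
  have hfE : ∀ i, β ≤ Ex (f i) := by
    intro i
    rw [Ex_prod]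
    apply le_Ex_of_le
    intro x
    show β ≤ Ex (fun ω : Ω => Ex (fun t : Fin K' => ind (B ((List.ofFn x).take (i * K' + t)) ω)))
    rw [Ex_comm]
    apply le_Ex_of_le
    intro t
    apply hB
    have h1 := List.length_take_le' (i * K' + t) (List.ofFn x)
    rw [List.length_ofFn] at h1
    exact h1
  obtain ⟨i, j, hij, hfij⟩ := corr_second R f hf0 hf1 hβ hfE hR2
  set a : ℕ := j * K' with ha
  have hiR : ((i : ℕ) + 1) * K' ≤ a := Nat.mul_le_mul_right K' hij
  have hjR : ((j : ℕ) + 1) * K' ≤ R * K' := Nat.mul_le_mul_right K' j.2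
  let bbar : Word (k + 1) → ℝ := fun x => Ex (fun t : Fin K' => corrAvg (k + 1) (R * K') (fun y =>
    Ex (fun ω => ind (B x ω ∧ B (x ++ y.take (a + t - x.length)) ω))))
  have hb0 : ∀ x, 0 ≤ bbar x := fun x => Ex_nonneg fun t => Ex_nonneg fun y => Ex_nonneg fun ω =>
    ind_nonneg _
  have hb1 : ∀ x, bbar x ≤ 1 := fun x => Ex_le_of_le fun t => Ex_le_of_le fun y =>
    Ex_le_of_le fun ω => ind_le_one _
  let φ : Fin K' → ℝ := fun s => corrAvg (k + 1) (i * K' + s) bbar
  have hφ1 : ∀ s, φ s ≤ 1 := fun s => Ex_le_of_le fun x => hb1 _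
  have hφ : Ex φ = Ex (fun p => f i p * f j p) := by
    have h1 : ∀ s : Fin K', φ s = Ex (fun t : Fin K' => corrAvg (k + 1) (R * K') (fun z =>
        Ex (fun ω => ind (B (z.take (i * K' + s)) ω ∧ B (z.take (a + t)) ω)))) := by
      intro s
      show Ex (fun x : Fin (i * K' + s) → Fin (k + 1) => Ex (fun t : Fin K' =>
        corrAvg (k + 1) (R * K') (fun y => Ex (fun ω => ind (B (List.ofFn x) ω ∧
          B (List.ofFn x ++ y.take (a + t - (List.ofFn x).length)) ω))))) = _
      rw [Ex_comm]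
      congr 1
      funext t
      have h2 : (i : ℕ) * K' + s ≤ a + t := by
        have := s.2
        have h3 : ((i : ℕ) + 1) * K' = i * K' + K' := by ring
        omega
      have h3 : a + (t : ℕ) ≤ R * K' := by
        have := t.2
        have h3 : ((j : ℕ) + 1) * K' = a + K' := by rw [ha]; ring
        omega
      exact corrAvg_two (k + 1) (i * K' + s) (a + t) (R * K') h2 h3
        (fun x x' => Ex (fun ω => ind (B x ω ∧ B x' ω)))
    have h4 : Ex φ = Ex (fun s : Fin K' => Ex (fun t : Fin K' =>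
        Ex (fun z : Fin (R * K') → Fin (k + 1) =>
          Ex (fun ω => ind (B ((List.ofFn z).take (i * K' + s)) ω) *
            ind (B ((List.ofFn z).take (a + t)) ω))))) := by
      congr 1
      funext s
      rw [h1 s]
      congr 1
      funext t
      show Ex (fun z : Fin (R * K') → Fin (k + 1) => Ex (fun ω =>
        ind (B ((List.ofFn z).take (i * K' + s)) ω ∧ B ((List.ofFn z).take (a + t)) ω))) = _
      simp_rw [ind_and]
    rw [h4, Ex_prod]
    have h5 : ∀ (z : Fin (R * K') → Fin (k + 1)) (ω : Ω), f i (z, ω) * f j (z, ω) =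
        Ex (fun s : Fin K' => Ex (fun t : Fin K' =>
          ind (B ((List.ofFn z).take (i * K' + s)) ω) *
            ind (B ((List.ofFn z).take (a + t)) ω))) := by
      intro z ω
      show Ex (fun t : Fin K' => ind (B ((List.ofFn z).take (i * K' + t)) ω)) *
        Ex (fun t : Fin K' => ind (B ((List.ofFn z).take (j * K' + t)) ω)) = _
      rw [← Ex_mul_right]
      congr 1
      funext s
      rw [← Ex_mul_left]
    simp_rw [h5]
    -- commute the averages
    have h6 : ∀ s : Fin K', Ex (fun t : Fin K' => Ex (fun z : Fin (R * K') → Fin (k + 1) =>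
          Ex (fun ω => ind (B ((List.ofFn z).take (i * K' + s)) ω) *
            ind (B ((List.ofFn z).take (a + t)) ω)))) =
        Ex (fun z : Fin (R * K') → Fin (k + 1) => Ex (fun ω : Ω => Ex (fun t : Fin K' =>
          ind (B ((List.ofFn z).take (i * K' + s)) ω) *
            ind (B ((List.ofFn z).take (a + t)) ω)))) := by
      intro s
      rw [Ex_comm]
      congr 1
      funext z
      rw [Ex_comm]
    simp_rw [h6]
    rw [Ex_comm]
    congr 1
    funext z
    rw [Ex_comm]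
  have hφE : 2 * (β ^ 2 / 4) ≤ Ex φ := by
    rw [hφ]
    linarith
  have hmark := Ex_markov (by positivity) hφ1 hφE
  classical
  -- the good levels
  set S : Finset (Fin K') := Finset.univ.filter (fun s => β ^ 2 / 4 ≤ φ s) with hS
  have hScard : β ^ 2 / 4 * K' ≤ S.card := by
    have h1 : Ex (fun s => ind (β ^ 2 / 4 ≤ φ s)) = (S.card : ℝ) / K' := by
      unfold Ex
      rw [Fintype.card_fin]
      congr 1
      rw [hS, Finset.card_filter]
      push_cast
      refine Finset.sum_congr rfl fun s _ => ?_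
      by_cases h : β ^ 2 / 4 ≤ φ s
      · rw [ind_true h, if_pos h]
      · rw [ind_false h, if_neg h]
    rw [h1] at hmark
    rwa [le_div_iff₀ (by exact_mod_cast hK'0)] at hmark
  set M : Finset ℕ := S.image (fun s : Fin K' => (i : ℕ) * K' + (s : ℕ)) with hM
  have hMcard : M.card = S.card := by
    apply Finset.card_image_of_injective
    intro s s' hss
    have : (s : ℕ) = s' := by
      have h1 : (i : ℕ) * K' + s = i * K' + s' := hss
      omega
    exact Fin.ext this
  have hT : (N1 + 1) * G + 1 ≤ M.card := by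
    rw [hMcard]
    have h1 : (((N1 + 1) * G + 1 : ℕ) : ℝ) ≤ S.card := by
      rw [div_le_iff₀ (by positivity)] at hK0
      have h2 : (K0 : ℝ) ≤ K' := by exact_mod_cast hK'K0
      have h3 : (K0 : ℝ) * (β ^ 2 / 4) ≤ K' * (β ^ 2 / 4) :=
        mul_le_mul_of_nonneg_right h2 (by positivity)
      linarith
    exact_mod_cast h1
  obtain ⟨e, he, heM⟩ := exists_enum M ((N1 + 1) * G + 1) hT
  have heM' : ∀ t < (N1 + 1) * G + 1, β ^ 2 / 4 ≤ corrAvg (k + 1) (e t) bbar ∧ e t < a := by
    intro t ht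
    have h1 := heM t ht
    rw [hM, Finset.mem_image] at h1
    obtain ⟨s, hs, hse⟩ := h1
    rw [hS, Finset.mem_filter] at hs
    rw [← hse]
    refine ⟨hs.2, ?_⟩
    have := s.2
    have h3 : ((i : ℕ) + 1) * K' = i * K' + K' := by ring
    omega
  obtain ⟨U, hU1, hU2, u0, u, hlen, hU⟩ := RT (k := k + 1) (Γ := Fin (k + 1)) id
    Function.surjective_id N1 G hG0 e he bbar
    (fun x => by rw [abs_of_nonneg (hb0 x)]; exact hb1 x) (β ^ 2 / 4)
    (fun t ht => (heM' t (by omega)).1)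
  refine ⟨U, hU1, hU2, u0, u, a, ?_, ?_, ?_⟩
  · have h3 : ((j : ℕ) + 1) * K' = a + K' := by rw [ha]; ring
    omega
  · intro x
    have h1 := hlen x N1 le_rfl
    have h2 := (heM' ((N1 + 1) * G) (by omega)).2
    omega
  · intro z hz
    have h1 := hU z hz
    rw [Fintype.card_fin] at h1
    have h2 : β ^ 2 / 8 ≤ Ex (fun x => bbar (tnode (u0 x) (u x) z)) := by
      have h3 : (N1 : ℝ) * Real.sqrt (((k + 1 : ℕ) : ℝ) / G) ≤ β ^ 2 / 8 := hG
      linarith
    rw [Ex_prod, Ex_prod]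
    exact h2

end OVW
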