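import Pool.Agent.H3.OVW.Tree

/-! MODULE WORDS (project MP_d1c297_lc): enumeration of words, counting, leaves. -/

namespace OVW

open scoped BigOperators

variable {k : ℕ}

theorem words_succ_product (k m : ℕ) : words k (m + 1) =
    ((words k m).product (List.finRange k)).map (fun p => p.2 :: p.1) := by
  rw [words, List.product.eq_def, List.map_flatMap]
  congr 1
  funext w
  rw [List.map_map]
  rfl

theorem mem_words {m : ℕ} {x : Word k} : x ∈ words k m ↔ x.length = m := by
  induction m generalizing x with
  | zero => simp [words]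
  | succ m ih =>
    rw [words, List.mem_flatMap]
    constructor
    · rintro ⟨w, hw, hx⟩
      rw [List.mem_map] at hx
      obtain ⟨a, _, rfl⟩ := hx
      rw [List.length_cons, ih.1 hw]
    · intro hx
      cases x with
      | nil => simp at hx
      | cons a w =>
        refine ⟨w, ih.2 (by simpa using hx), ?_⟩
        rw [List.mem_map]
        exact ⟨a, List.mem_finRange a, rfl⟩

theorem nodup_words (k m : ℕ) : (words k m).Nodup := by
  induction m with
  | zero => simp [words]
  | succ m ih =>
    rw [words_succ_product]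
    refine List.Nodup.map ?_ (List.Nodup.product ih (List.nodup_finRange k))
    rintro ⟨a, b⟩ ⟨a', b'⟩ h
    simp only [List.cons.injEq] at h
    rw [h.1, h.2]

theorem length_words (k m : ℕ) : (words k m).length = k ^ m := by
  induction m with
  | zero => simp [words]
  | succ m ih =>
    have h1 : ((words k m).product (List.finRange k)).length =
        (words k m).length * (List.finRange k).length := List.length_product _ _
    rw [words_succ_product, List.length_map, h1, ih, List.length_finRange, pow_succ]

/-- `cnt` as the cardinality of any finset of the same members -/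
theorem cnt_eq_card {S : Word k → Prop} {m : ℕ} (s : Finset (Word k))
    (hs : ∀ x, x ∈ s ↔ x.length = m ∧ S x) : cnt S m = s.card := by
  classical
  unfold cnt
  rw [← List.toFinset_card_of_nodup ((nodup_words k m).filter _)]
  congr 1
  ext x
  rw [List.mem_toFinset, List.mem_filter, hs, mem_words]
  simp

theorem cnt_mono {S S' : Word k → Prop} {m : ℕ} (h : ∀ x, x.length = m → S x → S' x) :
    cnt S m ≤ cnt S' m := by
  classical
  unfold cnt
  rw [← List.countP_eq_length_filter, ← List.countP_eq_length_filter]
  apply List.countP_mono_left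
  intro x hx hS
  simp only [decide_eq_true_eq] at hS ⊢
  exact h x (mem_words.1 hx) hS

theorem cnt_le (S : Word k → Prop) (m : ℕ) : cnt S m ≤ k ^ m := by
  unfold cnt
  rw [← length_words]
  exact List.length_filter_le _ _

/-- relation with the uniform average -/
theorem Ex_ind_eq_cnt (hk : 0 < k) (S : Word k → Prop) (m : ℕ) :
    Ex (fun x : Fin m → Fin k => ind (S (List.ofFn x))) = (cnt S m : ℝ) / (k : ℝ) ^ m := by
  classical
  unfold Ex
  have hc : (Fintype.card (Fin m → Fin k) : ℝ) = (k : ℝ) ^ m := by
    simp
  rw [hc]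
  congr 1
  have h1 : cnt S m = ((Finset.univ.filter (fun x : Fin m → Fin k => S (List.ofFn x))).image
      List.ofFn).card := by
    apply cnt_eq_card
    intro x
    rw [Finset.mem_image]
    constructor
    · rintro ⟨y, hy, rfl⟩
      exact ⟨List.length_ofFn, (Finset.mem_filter.1 hy).2⟩
    · rintro ⟨h1, h2⟩
      subst h1
      refine ⟨x.get, ?_, List.ofFn_get x⟩
      rw [Finset.mem_filter, List.ofFn_get]
      exact ⟨Finset.mem_univ _, h2⟩
  rw [h1, Finset.card_image_of_injective _ List.ofFn_injective, Finset.card_filter]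
  push_cast
  refine Finset.sum_congr rfl fun x _ => ?_
  by_cases h : S (List.ofFn x) <;> simp [ind, h]

theorem words_add (k r M : ℕ) : words k (M + r) =
    (words k r).flatMap (fun u => (words k M).map (fun q => q ++ u)) := by
  induction M with
  | zero =>
    rw [Nat.zero_add]
    have : (fun u : Word k => (words k 0).map (fun q => q ++ u)) = fun u => [u] := by
      funext u; simp [words]
    rw [this]
    simp
  | succ M ih =>
    rw [show M + 1 + r = (M + r) + 1 by omega, words, ih, List.flatMap_assoc]
    congr 1
    funext u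
    rw [List.flatMap_map, words, List.map_flatMap]
    congr 1
    funext q
    rw [List.map_map]
    rfl

/-- counting by prefix and suffix -/
theorem cnt_split (S : Word k → Prop) {M m : ℕ} (h : M ≤ m) :
    cnt S m = ((words k (m - M)).map (fun u => cnt (fun q => S (q ++ u)) M)).sum := by
  classical
  obtain ⟨r, rfl⟩ := Nat.exists_eq_add_of_le h
  rw [Nat.add_sub_cancel_left]
  unfold cnt
  rw [words_add, List.filter_flatMap, List.length_flatMap]
  congr 1
  apply List.map_congr_left
  intro u _
  rw [List.filter_map, List.length_map]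
  rfl

theorem mem_leaves_cons {W : XWord k} {L : List (XWord k)} {l : Word k} :
    l ∈ leaves (W :: L) ↔ ∃ a : Fin k, ∃ l2 ∈ leaves L, l = sub a W ++ l2 := by
  rw [leaves, List.mem_flatMap]
  constructor
  · rintro ⟨a, _, h⟩
    rw [List.mem_map] at h
    obtain ⟨l2, h2, rfl⟩ := h
    exact ⟨a, l2, h2, rfl⟩
  · rintro ⟨a, l2, h2, rfl⟩
    exact ⟨a, List.mem_finRange a, List.mem_map.2 ⟨l2, h2, rfl⟩⟩

theorem mem_leaves_append {L L' : List (XWord k)} {l : Word k} :
    l ∈ leaves (L ++ L') ↔ ∃ l1 ∈ leaves L, ∃ l2 ∈ leaves L', l = l1 ++ l2 := by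
  induction L generalizing l with
  | nil => simp [leaves]
  | cons W L ih =>
    rw [List.cons_append, mem_leaves_cons]
    constructor
    · rintro ⟨a, l2, h2, rfl⟩
      obtain ⟨l3, h3, l4, h4, rfl⟩ := ih.1 h2
      exact ⟨sub a W ++ l3, mem_leaves_cons.2 ⟨a, l3, h3, rfl⟩, l4, h4,
        (List.append_assoc _ _ _).symm⟩
    · rintro ⟨l1, h1, l4, h4, rfl⟩
      obtain ⟨a, l3, h3, rfl⟩ := mem_leaves_cons.1 h1
      exact ⟨a, l3 ++ l4, ih.2 ⟨l3, h3, l4, h4, rfl⟩, List.append_assoc _ _ _⟩

theorem length_of_mem_leaves {L : List (XWord k)} {l : Word k} (h : l ∈ leaves L) :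
    l.length = L.flatten.length := by
  induction L generalizing l with
  | nil =>
    have : l = [] := by simpa [leaves] using h
    subst this
    rfl
  | cons W L ih =>
    obtain ⟨a, l2, h2, rfl⟩ := mem_leaves_cons.1 h
    rw [List.length_append, length_sub, ih h2, List.flatten_cons, List.length_append]

/-- gluing a constant word to the last block -/
theorem mem_leaves_glue (hk : 0 < k) {L L' : List (XWord k)} {y : XWord k} {c : Word k}
    {l : Word k} :
    l ∈ leaves (L ++ (y ++ c.map some) :: L') ↔
      ∃ l1 ∈ leaves (L ++ [y]), ∃ l2 ∈ leaves (c.map some :: L'), l = l1 ++ l2 := by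
  constructor
  · intro h
    obtain ⟨l0, h0, l3, h3, rfl⟩ := mem_leaves_append.1 h
    obtain ⟨a, l4, h4, rfl⟩ := mem_leaves_cons.1 h3
    refine ⟨l0 ++ sub a y, ?_, c ++ l4, ?_, ?_⟩
    · refine mem_leaves_append.2 ⟨l0, h0, sub a y, mem_leaves_cons.2 ⟨a, [], by simp [leaves], ?_⟩,
        rfl⟩
      simp
    · refine mem_leaves_cons.2 ⟨a, l4, h4, ?_⟩
      rw [sub_map_some]
    · rw [sub_append, sub_map_some]
      simp [List.append_assoc]
  · rintro ⟨l1, h1, l2, h2, rfl⟩
    obtain ⟨l0, h0, l3, h3, rfl⟩ := mem_leaves_append.1 h1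
    obtain ⟨a, l5, h5, rfl⟩ := mem_leaves_cons.1 h3
    have h5' : l5 = [] := by simpa [leaves] using h5
    subst h5'
    obtain ⟨b, l4, h4, rfl⟩ := mem_leaves_cons.1 h2
    rw [sub_map_some]
    refine mem_leaves_append.2 ⟨l0, h0, sub a y ++ c ++ l4, mem_leaves_cons.2 ⟨a, l4, h4, ?_⟩, ?_⟩
    · rw [sub_append, sub_map_some]
    · simp [List.append_assoc]

theorem length_le_of_LV {ws : List (XWord k)} (h : ∀ w ∈ ws, LV w) :
    ws.length ≤ ws.flatten.length := by
  induction ws with
  | nil => simp
  | cons w ws ih =>
    rw [List.length_cons, List.flatten_cons, List.length_append]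
    have h1 := ih (fun w' hw' => h w' (List.mem_cons_of_mem _ hw'))
    have h2 : LV w := h w List.mem_cons_self
    have h3 : 0 < w.length := by
      cases w with
      | nil => simp [LV] at h2
      | cons a w => simp
    omega

/-- finitely many block lists of the right shape and total length `M` -/
theorem finite_shape (k M : ℕ) : {L : List (XWord k) | Shape L ∧ L.flatten.length = M}.Finite := by
  have hfin : Finite {W : XWord k // W.length ≤ M} := (List.finite_length_le (Option (Fin k)) M).to_subtype
  have h1 : ({l : List {W : XWord k // W.length ≤ M} | l.length ≤ M + 1}).Finite :=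
    List.finite_length_le _ _
  refine (h1.image (fun l => l.map Subtype.val)).subset ?_
  rintro L ⟨hS, hL⟩
  have hb : ∀ W ∈ L, W.length ≤ M := by
    intro W hW
    rw [← hL]
    exact (List.sublist_flatten_of_mem hW).length_le
  obtain ⟨c, ws, rfl, hws⟩ := hS
  have hlen : (c.map some :: ws).length ≤ M + 1 := by
    have := length_le_of_LV hws
    rw [List.flatten_cons, List.length_append] at hL
    rw [List.length_cons]
    omega
  refine ⟨(c.map some :: ws).attachWith (fun W => W.length ≤ M) hb, ?_, ?_⟩
  · simpa using hlen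
  · simp

end OVW
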