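import Pool.Agent.H3.OVW.DMain
import Pool.Agent.H3.OVW.Words

/-! MODULE DCOR (project MP_d1c297_lc): the density Carlson–Simpson theorem for lines.  See the header of `DMain`. -/

namespace OVW

open scoped BigOperators

theorem dense_line {k d : ℕ} (hd : 0 < d) (S : Word (k + 1) → Prop) (hS : Dense d S) :
    ∃ (c : Word (k + 1)) (w : XWord (k + 1)), S c ∧ ∀ a, S (c ++ a :: sub a w) := by
  have hd' : (0 : ℝ) < d := by exact_mod_cast hd
  have hβ : (0 : ℝ) < 1 / (2 * d) := by positivity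
  obtain ⟨N, hN⟩ := D1_all k (1 / (2 * d)) hβ
  obtain ⟨G, hG, hGN⟩ := exists_G (k + 1) N hβ
  obtain ⟨e, he, hPe⟩ := Nat.exists_strictMono_subsequence
    (P := fun m => (k + 1) ^ m ≤ d * cnt S m) (fun n => by
      obtain ⟨m, hm, h⟩ := hS (n + 1)
      exact ⟨m, hm, h⟩)
  have hψ : ∀ x : Word (k + 1), |ind (S x)| ≤ 1 := by
    intro x
    rw [abs_of_nonneg (ind_nonneg _)]
    exact ind_le_one _
  obtain ⟨U, fU, nU, u0, u, _, hU⟩ := RT (k := k + 1) (Γ := Fin (k + 1)) id
    Function.surjective_id N G hG e he (fun x => ind (S x)) hψ (1 / d) (by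
      intro t _
      simp only [id]
      rw [Ex_ind_eq_cnt (Nat.succ_pos k) S (e t), div_le_div_iff₀ hd' (by positivity), one_mul]
      have := hPe t
      rw [mul_comm] at this
      exact_mod_cast this)
  have hBd : Bd N (1 / (2 * d)) (fun q (x : U) => S (tnode (u0 x) (u x) q)) := by
    intro z hz
    refine le_trans ?_ (hU z hz)
    rw [Fintype.card_fin]
    have h1 : (1 : ℝ) / d = 1 / (2 * d) + 1 / (2 * d) := by field_simp; norm_num
    linarith
  have hnot := hN U (fun q (x : U) => S (tnode (u0 x) (u x) q)) hBd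
  unfold LineFree at hnot
  push Not at hnot
  obtain ⟨c, w, x, _, hc, hall⟩ := hnot
  obtain ⟨W, _, hW⟩ := tnode_line (u0 x) (u x) c w
  exact ⟨tnode (u0 x) (u x) c, W, hc, fun a => by rw [← hW]; exact hall a⟩

end OVW
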