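import Pool.Agent.H3.OVW.Tree

/-! MODULE QUANT (project MP_d1c297_lc): quantitative forms of `D1` and `Dn`.

Let `N` be given by `D1 k` (`Dn k n`) for `β/2`.  For a system `B` with `Bd N β B` let `T ω = {z | z.length ≤ N ∧ B z ω}` (a subset of
the finite type `{z : Word k // z.length ≤ N}`; `List.finite_length_le`), and let `E` be the event ``T ω` contains a line (tree)`.
If `Ex (ind E) < β/2` then `B' z ω := B z ω ∧ ¬ E ω` has `Bd N (β/2) B'` but no line (tree), contradiction.  So `Ex (ind E) ≥ β/2`, and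
by the pigeonhole principle over the finitely many values of `T ω` there is a value `T0` containing a line (tree) with
`Ex (ind (T ω = T0)) ≥ β / (2 * 2^(number of words of length ≤ N)) =: ρ`. -/

namespace OVW

open scoped BigOperators

theorem quant_pigeon {Ω X : Type} [Fintype Ω] [Nonempty Ω] [Fintype X] (T : Ω → X)
    (E : X → Prop) {c : ℝ} (hc : 0 < c) (h : c ≤ Ex (fun ω => ind (E (T ω)))) :
    ∃ x, E x ∧ c / Fintype.card X ≤ Ex (fun ω => ind (T ω = x)) := by
  classical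
  by_contra hcon
  push Not at hcon
  have h1 : Ex (fun ω => ind (E (T ω))) =
      ∑ x ∈ Finset.univ.filter (fun x => E x), Ex (fun ω => ind (T ω = x)) := by
    rw [← Ex_sum]
    congr 1
    funext ω
    by_cases hE : E (T ω)
    · rw [ind_true hE, Finset.sum_eq_single (T ω)]
      · rw [ind_true rfl]
      · intro x _ hx
        exact ind_false (fun h => hx h.symm)
      · intro hx
        exact absurd (Finset.mem_filter.2 ⟨Finset.mem_univ _, hE⟩) hx
    · rw [ind_false hE]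
      symm
      apply Finset.sum_eq_zero
      intro x hx
      apply ind_false
      rintro rfl
      exact hE (Finset.mem_filter.1 hx).2
  rw [h1] at h
  obtain ⟨ω0⟩ := (inferInstance : Nonempty Ω)
  have hX : (0 : ℝ) < Fintype.card X := by
    have : Nonempty X := ⟨T ω0⟩
    exact_mod_cast Fintype.card_pos
  have h2 : ∑ x ∈ Finset.univ.filter (fun x => E x), Ex (fun ω => ind (T ω = x)) < c := by
    by_cases hne : (Finset.univ.filter (fun x => E x)).Nonempty
    · have h3 : ∑ x ∈ Finset.univ.filter (fun x => E x), Ex (fun ω => ind (T ω = x)) <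
          ∑ _x ∈ Finset.univ.filter (fun x : X => E x), c / Fintype.card X :=
        Finset.sum_lt_sum_of_nonempty hne (fun x hx => hcon x (Finset.mem_filter.1 hx).2)
      rw [Finset.sum_const, nsmul_eq_mul] at h3
      refine h3.trans_le ?_
      have h4 : ((Finset.univ.filter (fun x => E x)).card : ℝ) ≤ Fintype.card X := by
        exact_mod_cast Finset.card_le_univ _
      calc ((Finset.univ.filter (fun x => E x)).card : ℝ) * (c / Fintype.card X)
          ≤ Fintype.card X * (c / Fintype.card X) :=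
            mul_le_mul_of_nonneg_right h4 (by positivity)
        _ = c := by field_simp
    · rw [Finset.not_nonempty_iff_eq_empty] at hne
      rw [hne, Finset.sum_empty]
      exact hc
  linarith

theorem quant_aux {k N : ℕ} {ι : Type} (F : ι → Set (Word k))
    (hF : ∀ i, ∀ z ∈ F i, z.length ≤ N) {β : ℝ} (hβ : 0 < β)
    (h : ∀ (Ω : Type) [Fintype Ω] [Nonempty Ω] (B : Word k → Ω → Prop),
      Bd N (β / 2) B → ∃ i ω, ∀ z ∈ F i, B z ω) :
    ∃ ρ : ℝ, 0 < ρ ∧ ∀ (Ω : Type) [Fintype Ω] [Nonempty Ω] (B : Word k → Ω → Prop),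
      Bd N β B → ∃ i, ρ ≤ Ex (fun ω => ind (∀ z ∈ F i, B z ω)) := by
  classical
  have hfin : Finite {z : Word k // z.length ≤ N} :=
    (List.finite_length_le (Fin k) N).to_subtype
  let iF : Fintype {z : Word k // z.length ≤ N} := Fintype.ofFinite _
  have hX : (0 : ℝ) < Fintype.card ({z : Word k // z.length ≤ N} → Prop) := by
    have : Nonempty ({z : Word k // z.length ≤ N} → Prop) := ⟨fun _ => True⟩
    exact_mod_cast Fintype.card_pos
  refine ⟨β / 2 / Fintype.card ({z : Word k // z.length ≤ N} → Prop), by positivity, ?_⟩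
  intro Ω _ _ B hB
  -- the event has probability at least `β / 2`
  have h1 : β / 2 ≤ Ex (fun ω => ind (∃ i, ∀ z ∈ F i, B z ω)) := by
    by_contra hcon
    push Not at hcon
    have hBd : Bd N (β / 2) (fun z ω => B z ω ∧ ¬ ∃ i, ∀ z ∈ F i, B z ω) := by
      intro z hz
      have h2 : Ex (fun ω => ind (B z ω) - ind (∃ i, ∀ z ∈ F i, B z ω)) ≤
          Ex (fun ω => ind (B z ω ∧ ¬ ∃ i, ∀ z ∈ F i, B z ω)) := by
        apply Ex_mono
        intro ω
        by_cases hE : ∃ i, ∀ z ∈ F i, B z ω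
        · rw [ind_true hE]
          have := ind_le_one (B z ω)
          have := ind_nonneg (B z ω ∧ ¬ ∃ i, ∀ z ∈ F i, B z ω)
          linarith
        · rw [ind_false hE, sub_zero]
          exact ind_mono (fun hz => ⟨hz, hE⟩)
      rw [Ex_sub] at h2
      have h3 := hB z hz
      linarith
    obtain ⟨i, ω, hi⟩ := h Ω _ hBd
    by_cases hE : ∃ i, ∀ z ∈ F i, B z ω
    · obtain ⟨j, hj⟩ := hE
      by_cases hne : (F i).Nonempty
      · obtain ⟨z, hz⟩ := hne
        exact (hi z hz).2 ⟨j, hj⟩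
      · -- empty pattern: the event is certain
        rw [Set.not_nonempty_iff_eq_empty] at hne
        have h4 : ∀ ω, ind (∃ i, ∀ z ∈ F i, B z ω) = 1 := by
          intro ω
          apply ind_true
          refine ⟨i, ?_⟩
          rw [hne]
          intro z hz
          exact absurd hz (Set.notMem_empty z)
        simp_rw [h4] at hcon
        rw [Ex_const] at hcon
        have h5 := hB [] (Nat.zero_le _)
        have h6 : Ex (fun ω => ind (B [] ω)) ≤ 1 := Ex_le_of_le (fun ω => ind_le_one _)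
        linarith
    · exact hE ⟨i, fun z hz => (hi z hz).1⟩
  set T : Ω → ({z : Word k // z.length ≤ N} → Prop) := fun ω z => B z.1 ω with hT
  obtain ⟨x, ⟨i, hi⟩, hx⟩ := quant_pigeon (c := β / 2) T
    (fun x : {z : Word k // z.length ≤ N} → Prop =>
      ∃ i, ∀ z (hz : z ∈ F i), x ⟨z, hF i z hz⟩) (by positivity) h1
  refine ⟨i, hx.trans (Ex_mono fun ω => ind_mono ?_)⟩
  intro hTx z hz
  have h4 := hi z hz
  rw [← hTx] at h4
  exact h4

theorem quant_line {k : ℕ} (h : D1 k) {β : ℝ} (hβ : 0 < β) :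
    ∃ (N : ℕ) (ρ : ℝ), 0 < ρ ∧ ∀ (Ω : Type) [Fintype Ω] [Nonempty Ω] (B : Word k → Ω → Prop),
      Bd N β B → ∃ (c : Word k) (w : XWord k), c.length + w.length + 1 ≤ N ∧
        ρ ≤ Ex (fun ω => ind (B c ω ∧ ∀ a : Fin k, B (c ++ a :: sub a w) ω)) := by
  obtain ⟨N, hN⟩ := h (β / 2) (by positivity)
  obtain ⟨ρ, hρ, hQ⟩ := quant_aux (k := k) (N := N)
    (ι := {p : Word k × XWord k // p.1.length + p.2.length + 1 ≤ N})
    (fun p => {z | z = p.1.1 ∨ ∃ a : Fin k, z = p.1.1 ++ a :: sub a p.1.2}) (by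
      rintro ⟨⟨c, w⟩, hcw⟩ z hz
      simp only at hcw
      rcases hz with rfl | ⟨a, rfl⟩
      · omega
      · simp only [List.length_append, List.length_cons, length_sub]
        omega) hβ (by
      intro Ω _ _ B hB
      have h1 := hN Ω B hB
      unfold LineFree at h1
      push Not at h1
      obtain ⟨c, w, ω, hcw, h2, h3⟩ := h1
      refine ⟨⟨⟨c, w⟩, hcw⟩, ω, ?_⟩
      rintro z (rfl | ⟨a, rfl⟩)
      · exact h2
      · exact h3 a)
  refine ⟨N, ρ, hρ, ?_⟩
  intro Ω _ _ B hB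
  obtain ⟨⟨⟨c, w⟩, hcw⟩, hi⟩ := hQ Ω B hB
  refine ⟨c, w, hcw, hi.trans (Ex_mono fun ω => ind_mono ?_)⟩
  intro h1
  exact ⟨h1 c (Or.inl rfl), fun a => h1 _ (Or.inr ⟨a, rfl⟩)⟩

theorem quant_tree {k n : ℕ} (h : Dn k n) {β : ℝ} (hβ : 0 < β) :
    ∃ (N : ℕ) (ρ : ℝ), 0 < ρ ∧ ∀ (Ω : Type) [Fintype Ω] [Nonempty Ω] (B : Word k → Ω → Prop),
      Bd N β B → ∃ (v0 : Word k) (v : ℕ → XWord k), tlen v0 v n ≤ N ∧
        ρ ≤ Ex (fun ω => ind (∀ q : Word k, q.length ≤ n → B (tnode v0 v q) ω)) := by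
  obtain ⟨N, hN⟩ := h (β / 2) (by positivity)
  obtain ⟨ρ, hρ, hQ⟩ := quant_aux (k := k) (N := N)
    (ι := {p : Word k × (ℕ → XWord k) // tlen p.1 p.2 n ≤ N})
    (fun p => {z | ∃ q : Word k, q.length ≤ n ∧ z = tnode p.1.1 p.1.2 q}) (by
      rintro ⟨⟨v0, v⟩, hv⟩ z ⟨q, hq, rfl⟩
      rw [length_tnode]
      exact (tlen_mono _ _ hq).trans hv) hβ (by
      intro Ω _ _ B hB
      obtain ⟨v0, v, ω, h1, h2⟩ := hN Ω B hB
      refine ⟨⟨⟨v0, v⟩, h1⟩, ω, ?_⟩
      rintro z ⟨q, hq, rfl⟩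
      exact h2 q hq)
  refine ⟨N, ρ, hρ, ?_⟩
  intro Ω _ _ B hB
  obtain ⟨⟨⟨v0, v⟩, hv⟩, hi⟩ := hQ Ω B hB
  exact ⟨v0, v, hv, hi.trans (Ex_mono fun ω => ind_mono fun h1 q hq => h1 _ ⟨q, hq, rfl⟩)⟩

end OVW
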