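import Pool.Agent.H3.OVW.Corr
import Pool.Agent.H3.OVW.Quant

/-! MODULE DTREE (project MP_d1c297_lc): `D1 (k+1) → Dn (k+1) n` for all `n`.  Induction on `n`.

`n = 0`: the root alone, `v0 = []` (any `N`; `Ex (ind (B [] ω)) ≥ β > 0` gives `ω`).
Step `n → n+1`, given `β > 0`:
 `(N1, ρ)` from `quant_line` for the bound `β²/8`; `N3` from `Dn n` for the bound `ρ/4`; `G` with `N3 √((k+1)/G) ≤ ρ/4`;
 `K` with `(ρ/2) K ≥ (N3+1) G + 1`; `(K', L)` from `corr hβ N1 K`.  Take `N = L`.
 Given `(Ω, B)`: `corr` gives `U, u0, u, a`.  On `Ω × ((U × Fin K') × (Fin L → A))` the system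
   `B'_z = B (tnode z) ω ∧ B (tnode z ++ (ofFn y).take (a + t - |tnode z|)) ω`   has `Bd N1 (β²/8)` (use `Ex_prod`, `Ex_comm`).
 `quant_line`: `(c, w)`, `|c|+|w|+1 ≤ N1`, with probability `≥ ρ`.  Choose `x ∈ U` such that the average over `(t, y, ω)` is `≥ ρ`
 (`exists_Ex_le`).  By `tnode_line`: `c' = tnode c`, `W'`, `tnode (c ++ a::sub a w) = c' ++ a :: sub a W'`, length `ℓ ≤ a`.
 `ψ u = Ex_ω ind (B c' ω ∧ ∀ b, B (c' ++ b :: sub b W' ++ u) ω)`; average over `t < K'`, `y`, of `ψ ((ofFn y).take (a + t - ℓ))` is `≥ ρ`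
 (`(ofFn y).take l = ofFn (y ∘ castLE)`, `Ex_castLE`).  So `≥ (ρ/2) K'` of the levels `l = a + t - ℓ` have `Ex_{y : Fin l → A} ψ (ofFn y) ≥ ρ/2`
 (`Ex_markov`).  `exists_enum` with `T = (N3+1) G + 1` and `RT` (`κ = id`, `n = N3`): random tree `(s0, s)` of depth `N3` with
 `Ex ψ (tnode s0 s q) ≥ ρ/4` for `|q| ≤ N3`, total length `≤ a + K' - 1 - ℓ`.
 `Dn n` for the system `B''_q (ω, x) = B c' ω ∧ ∀ b, B (c' ++ b :: sub b W' ++ tnode (s0 x) (s x) q) ω`: a tree `(v0, v)` of depth `n` in it.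
 With `tnode_comp` (`(s0,s) ∘ (v0,v) = (t0,t)`) the tree  root `c'`, tails `W' ++ t0.map some`, `t 0`, `t 1`, …  has all nodes of level
 `≤ n+1` in `B · ω`, and total length `≤ L`. -/

namespace OVW

open scoped BigOperators

theorem dtree_take_ofFn {X : Type} {m L : ℕ} (h : m ≤ L) (y : Fin L → X) :
    (List.ofFn y).take m = List.ofFn (fun i : Fin m => y (Fin.castLE h i)) := by
  apply List.ext_getElem
  · simp [h]
  · intro i h1 h2
    simp

/-- the sequence of tails `W, t 0, t 1, ...` -/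
def dtreeCons {k : ℕ} (W : XWord k) (t : ℕ → XWord k) : ℕ → XWord k
  | 0 => W
  | i + 1 => t i

theorem dtree_ind_le {p : Prop} {c : ℝ} (hc : 0 < c) (h : c ≤ ind p) : p := by
  by_contra hp
  rw [ind_false hp] at h
  linarith

theorem dtree_zero {k : ℕ} : Dn (k + 1) 0 := by
  intro β hβ
  refine ⟨0, ?_⟩
  intro Ω _ _ B hB
  have h1 := hB [] (by simp)
  obtain ⟨ω, hω⟩ := exists_Ex_le (fun ω => ind (B [] ω))
  refine ⟨[], fun _ => [], ω, by simp [tlen], ?_⟩
  intro q hq
  have hq0 : q = [] := by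
    cases q with
    | nil => rfl
    | cons a q => simp at hq
  subst hq0
  have : B [] ω := dtree_ind_le hβ (h1.trans hω)
  simpa [tnode, node] using this

/-- averages over the levels -/
theorem dtree_card {K' : ℕ} (hK : 0 < K') (P : Fin K' → Prop) [DecidablePred P] :
    Ex (fun t => ind (P t)) * K' = ((Finset.univ.filter P).card : ℝ) := by
  unfold Ex
  have hc : (0 : ℝ) < (K' : ℝ) := by exact_mod_cast hK
  rw [Fintype.card_fin, div_mul_cancel₀ _ (ne_of_gt hc), Finset.card_filter]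
  push_cast
  refine Finset.sum_congr rfl fun t _ => ?_
  by_cases h : P t <;> simp [ind, h]

theorem dtree_step {k n : ℕ} (h : D1 (k + 1)) (ih : Dn (k + 1) n) : Dn (k + 1) (n + 1) := by
  classical
  intro β hβ
  obtain ⟨N1, ρ, hρ, hQ⟩ := quant_line h (β := β ^ 2 / 8) (by positivity)
  obtain ⟨N3, hN3⟩ := ih (ρ / 4) (by positivity)
  obtain ⟨G, hG, hG2⟩ := exists_G (k + 1) N3 (ε := ρ / 4) (by positivity)
  obtain ⟨K, hK⟩ := exists_nat_ge (((((N3 + 1) * G + 1 : ℕ) : ℝ)) / (ρ / 2))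
  obtain ⟨K', L, hKK, hK0, hC⟩ := corr hβ N1 K
  refine ⟨L, ?_⟩
  intro Ω _ _ B hB
  obtain ⟨U, iU, nU, u0, u, a, haL, hlen, hcorr⟩ := hC Ω B hB
  have : Nonempty (Fin K') := ⟨⟨0, hK0⟩⟩
  -- the first system
  have hBd : Bd N1 (β ^ 2 / 8) (fun (z : Word (k + 1))
      (o : Ω × ((U × Fin K') × (Fin L → Fin (k + 1)))) =>
        B (tnode (u0 o.2.1.1) (u o.2.1.1) z) o.1 ∧
          B (tnode (u0 o.2.1.1) (u o.2.1.1) z ++ (List.ofFn o.2.2).take
            (a + o.2.1.2 - (tnode (u0 o.2.1.1) (u o.2.1.1) z).length)) o.1) := by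
    intro z hz
    rw [Ex_prod, Ex_comm]
    exact hcorr z hz
  obtain ⟨c, w, hcw, hline⟩ := hQ _ _ hBd
  rw [Ex_prod, Ex_comm, Ex_prod, Ex_prod] at hline
  obtain ⟨x, hx⟩ := exists_Ex_le (fun x : U => Ex (fun t : Fin K' =>
    Ex (fun y : Fin L → Fin (k + 1) => Ex (fun ω : Ω => ind (
      (B (tnode (u0 x) (u x) c) ω ∧ B (tnode (u0 x) (u x) c ++ (List.ofFn y).take
            (a + t - (tnode (u0 x) (u x) c).length)) ω) ∧
      ∀ b : Fin (k + 1), B (tnode (u0 x) (u x) (c ++ b :: sub b w)) ω ∧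
        B (tnode (u0 x) (u x) (c ++ b :: sub b w) ++ (List.ofFn y).take
            (a + t - (tnode (u0 x) (u x) (c ++ b :: sub b w)).length)) ω)))))
  have hx1 := hline.trans hx
  clear hx hline
  obtain ⟨W, hWlen, hW⟩ := tnode_line (u0 x) (u x) c w
  set c' := tnode (u0 x) (u x) c with hc'
  set ℓ := c'.length + W.length + 1 with hℓ
  have hℓa : ℓ ≤ a := by
    rw [hWlen]
    exact (tlen_mono _ _ (by omega)).trans (hlen x)
  set ψ : Word (k + 1) → ℝ := fun v => Ex (fun ω : Ω => ind (B c' ω ∧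
    ∀ b : Fin (k + 1), B (c' ++ b :: sub b W ++ v) ω)) with hψ
  have hψ1 : ∀ v, |ψ v| ≤ 1 := by
    intro v
    apply abs_Ex_le
    intro ω
    rw [abs_of_nonneg (ind_nonneg _)]
    exact ind_le_one _
  have hψ2 : ∀ v, ψ v ≤ 1 := fun v => (abs_le.1 (hψ1 v)).2
  set F : Fin K' → ℝ := fun t => Ex (fun y : Fin L → Fin (k + 1) =>
    ψ ((List.ofFn y).take (a + t - ℓ))) with hF
  have hF1 : ρ ≤ Ex F := by
    refine hx1.trans ?_
    refine Ex_mono fun t => Ex_mono fun y => Ex_mono fun ω => ind_mono ?_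
    rintro ⟨⟨h1, _⟩, h3⟩
    refine ⟨h1, fun b => ?_⟩
    have h4 := (h3 b).2
    rw [hW b] at h4
    have h5 : (c' ++ b :: sub b W).length = ℓ := by
      rw [List.length_append, List.length_cons, length_sub]
      omega
    rw [h5] at h4
    exact h4
  have hF2 : ∀ t, F t ≤ 1 := fun t => Ex_le_of_le fun y => hψ2 _
  have hmk := Ex_markov (τ := ρ / 2) (by positivity) hF2 (by linarith)
  set M : Finset ℕ := (Finset.univ.filter (fun t : Fin K' => ρ / 2 ≤ F t)).image
    (fun t : Fin K' => a + t - ℓ) with hM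
  have hMcard : (N3 + 1) * G + 1 ≤ M.card := by
    rw [hM, Finset.card_image_of_injective]
    · have h1 := dtree_card hK0 (fun t : Fin K' => ρ / 2 ≤ F t)
      have hKK' : (K : ℝ) ≤ K' := by exact_mod_cast hKK
      have h2 : (((N3 + 1) * G + 1 : ℕ) : ℝ) ≤ ρ / 2 * K' := by
        rw [div_le_iff₀ (by positivity)] at hK
        nlinarith
      have h3 : ρ / 2 * K' ≤ ((Finset.univ.filter (fun t : Fin K' => ρ / 2 ≤ F t)).card : ℝ) := by
        rw [← h1]
        exact mul_le_mul_of_nonneg_right hmk (Nat.cast_nonneg _)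
      exact_mod_cast h2.trans h3
    · intro t t' htt
      have : a + (t : ℕ) - ℓ = a + (t' : ℕ) - ℓ := htt
      apply Fin.ext
      omega
  obtain ⟨e, he, heM⟩ := exists_enum M _ hMcard
  have heM' : ∀ t < (N3 + 1) * G + 1, ∃ t' : Fin K', ρ / 2 ≤ F t' ∧ a + (t' : ℕ) - ℓ = e t := by
    intro t ht
    have := heM t ht
    rw [hM, Finset.mem_image] at this
    obtain ⟨t', ht', h1⟩ := this
    exact ⟨t', (Finset.mem_filter.1 ht').2, h1⟩
  obtain ⟨U3, iU3, nU3, s0, s, hs1, hs2⟩ := RT (k := k + 1) (Γ := Fin (k + 1)) id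
    Function.surjective_id N3 G hG e he ψ hψ1 (ρ / 2) (by
      intro t ht
      obtain ⟨t', h1, h2⟩ := heM' t (by omega)
      have hle : e t ≤ L := by
        have := t'.2
        omega
      rw [← Ex_castLE hle (fun y : Fin (e t) → Fin (k + 1) => ψ (List.ofFn (fun i => id (y i))))]
      have h3 : F t' = Ex (fun y : Fin L → Fin (k + 1) =>
          ψ (List.ofFn (fun i : Fin (e t) => id (y (Fin.castLE hle i))))) := by
        rw [hF]
        simp only [id]
        rw [h2]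
        congr 1
        funext y
        rw [dtree_take_ofFn hle]
      rw [← h3]
      exact h1)
  -- the second system
  have hBd2 : Bd N3 (ρ / 4) (fun (q : Word (k + 1)) (o : Ω × U3) => B c' o.1 ∧
      ∀ b : Fin (k + 1), B (c' ++ b :: sub b W ++ tnode (s0 o.2) (s o.2) q) o.1) := by
    intro q hq
    rw [Ex_prod, Ex_comm]
    have h1 := hs2 q hq
    rw [Fintype.card_fin] at h1
    have h2 : ρ / 4 ≤ Ex (fun x => ψ (tnode (s0 x) (s x) q)) := by
      refine le_trans ?_ h1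
      linarith
    exact h2
  obtain ⟨v0, v, ⟨ω, x3⟩, hv1, hv2⟩ := hN3 _ _ hBd2
  obtain ⟨t0, t, ht1, ht2⟩ := tnode_comp (s0 x3) (s x3) v0 v
  refine ⟨c', dtreeCons (W ++ t0.map some) t, ω, ?_, ?_⟩
  · have h1 := ht2 n
    have h2 := hs1 x3 (tlen v0 v n) hv1
    obtain ⟨t', _, h3⟩ := heM' ((N3 + 1) * G) (by omega)
    have h4 := t'.2
    have h5 : tlen c' (dtreeCons (W ++ t0.map some) t) (n + 1) = ℓ + tlen t0 t n := by
      unfold tlen
      rw [Finset.sum_range_succ']
      simp only [dtreeCons, List.length_append, List.length_map]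
      omega
    rw [h5, h1]
    omega
  · intro q hq
    cases q with
    | nil =>
      have h1 := (hv2 [] (by simp)).1
      simpa [tnode, node] using h1
    | cons b q' =>
      have hq' : q'.length ≤ n := by simpa using hq
      have h1 := (hv2 q' hq').2 b
      simp only at h1
      rw [ht1 q'] at h1
      have h2 : tnode c' (dtreeCons (W ++ t0.map some) t) (b :: q') =
          c' ++ b :: sub b W ++ tnode t0 t q' := by
        unfold tnode
        rw [node]
        have h3 : (fun i => dtreeCons (W ++ t0.map some) t (i + 1)) = t := rfl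
        have h4 : dtreeCons (W ++ t0.map some) t 0 = W ++ t0.map some := rfl
        rw [h3, h4, sub_append, sub_map_some]
        simp [List.append_assoc]
      rw [h2]
      exact h1

theorem Dn_of_D1 {k : ℕ} (h : D1 (k + 1)) : ∀ n, Dn (k + 1) n := by
  intro n
  induction n with
  | zero => exact dtree_zero
  | succ n ih => exact dtree_step h ih

end OVW
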