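import Pool.Agent.H3.OVW.GP

/-! MODULE GPPR (project MP_d1c297_lc): `GP` applied to `g z ω = (ind (B z ω) - β) * ∏ j ∈ J, ind (D j z ω)` and `D = D i`.
`|g| ≤ 1` because `0 ≤ β ≤ 1`; `β ≤ 1` follows from `Pr` itself at `z = []` (if `β > 1` the expression is `≤ 0 < τ`).
Given `N` apply `GP` with `n = N` to get `N'`, take the system of depth `max N N'` from `Pr`; the new system is
`B' q x = B (tnode (u0 x) (u x) q) (π x)`, `D' j q x = D j (tnode (u0 x) (u x) q) (π x)`; `LineFree.tnode`, `rep_tnode` for insensitivity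
(`D j (rep j (tnode q)) ↔ D j (tnode q)` and `rep j (tnode (rep j q)) = rep j (tnode q)`).
`Sys_of_Pr`: with `J = ∅` the inequality says `Ex (ind B_z) ≥ β + τ`. -/

namespace OVW

open scoped BigOperators

theorem gppr_prod_nonneg {ι : Type} (J : Finset ι) (p : ι → Prop) : 0 ≤ ∏ j ∈ J, ind (p j) :=
  Finset.prod_nonneg fun _ _ => ind_nonneg _

theorem gppr_prod_le_one {ι : Type} (J : Finset ι) (p : ι → Prop) : ∏ j ∈ J, ind (p j) ≤ 1 :=
  Finset.prod_le_one (fun _ _ => ind_nonneg _) fun _ _ => ind_le_one _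

theorem gppr_beta_le {k : ℕ} {β : ℝ} {J : Finset (Fin k)} {τ : ℝ} (hτ : 0 < τ)
    (h : Pr k β J τ) : β ≤ 1 := by
  by_contra hcon
  push Not at hcon
  obtain ⟨Ω, _, _, B, D, _, _, hB⟩ := h 0
  have h1 := hB [] (Nat.le_refl 0)
  have h2 : Ex (fun ω => (ind (B [] ω) - β) * ∏ i ∈ J, ind (D i [] ω)) ≤ 0 := by
    refine Ex_le_of_le fun ω => ?_
    refine mul_nonpos_of_nonpos_of_nonneg ?_ (gppr_prod_nonneg J _)
    linarith [ind_le_one (B [] ω)]
  linarith

theorem GP_Pr {k : ℕ} (hT : ∀ n, Dn k n) {β : ℝ} (hβ : 0 ≤ β) (J : Finset (Fin k)) (i : Fin k)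
    (hi : i ∉ J) {τ : ℝ} (hτ : 0 < τ) (h : Pr k β (insert i J) τ) : Pr k β J (τ / 4) := by
  have hβ1 : β ≤ 1 := gppr_beta_le hτ h
  intro N
  obtain ⟨N', hN'⟩ := GP (hT N) i hτ
  obtain ⟨Ω, _, _, B, D, hLF, hIns, hB⟩ := h (max N N')
  let g : Word (k + 1) → Ω → ℝ := fun z ω => (ind (B z ω) - β) * ∏ j ∈ J, ind (D j z ω)
  have hg : ∀ z ω, |g z ω| ≤ 1 := by
    intro z ω
    have h1 : |ind (B z ω) - β| ≤ 1 := by
      rw [abs_le]
      constructor
      · linarith [ind_nonneg (B z ω)]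
      · linarith [ind_le_one (B z ω)]
    have h2 : |∏ j ∈ J, ind (D j z ω)| ≤ 1 := by
      rw [abs_of_nonneg (gppr_prod_nonneg J _)]
      exact gppr_prod_le_one J _
    calc |g z ω| = |ind (B z ω) - β| * |∏ j ∈ J, ind (D j z ω)| := abs_mul _ _
      _ ≤ 1 * 1 := mul_le_mul h1 h2 (abs_nonneg _) zero_le_one
      _ = 1 := one_mul 1
  obtain ⟨Ω', _, _, π, u0, u, hlen, hq⟩ := hN' Ω g (D i) hg (hIns i) (by
    intro z hz
    refine (hB z (hz.trans (le_max_right _ _))).trans (le_of_eq ?_)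
    congr 1
    funext ω
    rw [Finset.prod_insert hi]
    ring)
  refine ⟨Ω', inferInstance, inferInstance, fun q x => B (tnode (u0 x) (u x) q) (π x),
    fun j q x => D j (tnode (u0 x) (u x) q) (π x), ?_, ?_, ?_⟩
  · exact hLF.tnode π u0 u fun x => (hlen x).trans (le_max_right _ _)
  · intro j q x
    change D j (tnode (u0 x) (u x) (rep j q)) (π x) ↔ D j (tnode (u0 x) (u x) q) (π x)
    rw [← hIns j (tnode (u0 x) (u x) (rep j q)) (π x), rep_tnode,
      hIns j (tnode (u0 x) (u x) q) (π x)]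
  · intro z hz
    exact hq z hz

theorem Sys_of_Pr {k : ℕ} (hT : ∀ n, Dn k n) {β : ℝ} (hβ : 0 ≤ β) {τ : ℝ} (hτ : 0 < τ)
    (h : Pr k β Finset.univ τ) : Sys (k + 1) β := by
  have key : ∀ J : Finset (Fin k), ∀ τ : ℝ, 0 < τ → Pr k β J τ → ∃ τ' : ℝ, 0 < τ' ∧
      Pr k β ∅ τ' := by
    intro J
    induction J using Finset.induction_on with
    | empty => exact fun τ hτ h => ⟨τ, hτ, h⟩
    | insert i J hi ih =>
      intro τ hτ h
      exact ih (τ / 4) (by positivity) (GP_Pr hT hβ J i hi hτ h)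
  obtain ⟨τ', hτ', h'⟩ := key _ τ hτ h
  intro N
  obtain ⟨Ω, hF, hne, B, D, hLF, _, hB⟩ := h' N
  refine ⟨Ω, hF, hne, B, hLF, ?_⟩
  intro z hz
  have h1 := hB z hz
  simp only [Finset.prod_empty, mul_one] at h1
  rw [Ex_sub, Ex_const] at h1
  linarith

end OVW
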