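import Pool.Agent.H3.OVW.IncB
import Pool.Agent.H3.OVW.GPPr
import Pool.Agent.H3.OVW.DTree

/-! MODULE DMAIN (project MP_d1c297_lc): `D1 k` for all `k ≥ 1`, and the density Carlson–Simpson theorem for lines.

`D1_one`: `k = 1`.  Words are `1^m`; `N ≥ 1/β + 1`; if the events `B (1^m)` (`m ≤ N`) are pairwise disjoint then `(N+1) β ≤ 1`, contradiction;
`ω ∈ B (1^m) ∩ B (1^m')`, `m < m'`, is the line `c = 1^m`, `w` = constant word of length `m' - m - 1`.
`D1_succ`: suppose `¬ D1 (k+1)`: some `β0 > 0` with `Sys (k+1) β0`.  `γ = sSup {β | Sys (k+1) β}` (bounded by 1; `Sys` is downward closed);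
`Inc` gives `η, τ`; `Sys_of_Pr` (with `Dn_of_D1`; `k = k'+1`) gives `Sys (k+1) (γ+η)`, contradiction.
`dense_line`: `N` from `D1 (k+1)` for `1/(2d)`; `G` with `N √((k+1)/G) ≤ 1/(2d)`; a strictly increasing `e` through the levels `m` with
`(k+1)^m ≤ d * cnt S m`; `RT` (`κ = id`, `ψ = ind ∘ S`, `τ = 1/d`; `Ex (ind (S (ofFn x))) = cnt S m/(k+1)^m`, module WORDS) and `D1` for the system
`B q x = S (tnode (u0 x) (u x) q)` (`tnode_line`). -/

namespace OVW

open scoped BigOperators

theorem D1_one : D1 1 := by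
  intro β hβ
  obtain ⟨N, hN⟩ := exists_nat_gt (1 / β)
  refine ⟨N, ?_⟩
  intro Ω _ _ B hB hL
  have hdis : ∀ (m m' : ℕ) (ω : Ω), m < m' → m' ≤ N → B (List.replicate m 0) ω →
      ¬ B (List.replicate m' 0) ω := by
    intro m m' ω hmm hm' h1 h2
    refine hL (List.replicate m 0) (List.replicate (m' - m - 1) (some 0)) ω ?_ h1 ?_
    · rw [List.length_replicate, List.length_replicate]
      omega
    · intro a
      have ha : a = 0 := Subsingleton.elim _ _
      subst ha
      have h3 : (List.replicate m (0 : Fin 1)) ++ 0 :: sub 0 (List.replicate (m' - m - 1)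
          (some (0 : Fin 1))) = List.replicate m' 0 := by
        unfold sub
        rw [List.map_replicate]
        show List.replicate m (0 : Fin 1) ++ 0 :: List.replicate (m' - m - 1) (0 : Fin 1) = _
        rw [← List.replicate_succ, List.replicate_append_replicate]
        congr 1
        omega
      rw [h3]
      exact h2
  classical
  have hsum : ∀ ω, ∑ m ∈ Finset.range (N + 1), ind (B (List.replicate m 0) ω) ≤ 1 := by
    intro ω
    have h1 : ∑ m ∈ Finset.range (N + 1), ind (B (List.replicate m 0) ω) =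
        (((Finset.range (N + 1)).filter (fun m => B (List.replicate m 0) ω)).card : ℝ) := by
      rw [Finset.card_filter]
      push_cast
      refine Finset.sum_congr rfl fun m _ => ?_
      by_cases h : B (List.replicate m 0) ω
      · rw [ind_true h, if_pos h]
      · rw [ind_false h, if_neg h]
    rw [h1]
    have h2 : ((Finset.range (N + 1)).filter (fun m => B (List.replicate m 0) ω)).card ≤ 1 := by
      rw [Finset.card_le_one]
      intro a ha b hb
      rw [Finset.mem_filter, Finset.mem_range] at ha hb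
      rcases lt_trichotomy a b with h | h | h
      · exact absurd hb.2 (hdis a b ω h (by omega) ha.2)
      · exact h
      · exact absurd ha.2 (hdis b a ω h (by omega) hb.2)
    exact_mod_cast h2
  have h3 : Ex (fun ω => ∑ m ∈ Finset.range (N + 1), ind (B (List.replicate m 0) ω)) ≤ 1 :=
    Ex_le_of_le hsum
  rw [Ex_sum] at h3
  have h4 : ∑ _m ∈ Finset.range (N + 1), β ≤
      ∑ m ∈ Finset.range (N + 1), Ex (fun ω => ind (B (List.replicate m 0) ω)) := by
    refine Finset.sum_le_sum fun m hm => ?_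
    apply hB
    rw [List.length_replicate]
    rw [Finset.mem_range] at hm
    omega
  rw [Finset.sum_const, Finset.card_range, nsmul_eq_mul] at h4
  rw [div_lt_iff₀ hβ] at hN
  push_cast at h4
  linarith

private theorem dmain_Sys_le {k : ℕ} {β : ℝ} (h : Sys k β) : β ≤ 1 := by
  obtain ⟨Ω, _, _, B, -, hB⟩ := h 0
  refine le_trans (hB [] (le_refl 0)) ?_
  exact Ex_le_of_le fun ω => ind_le_one _

private theorem dmain_Sys_anti {k : ℕ} {β β' : ℝ} (hββ : β' ≤ β) (h : Sys k β) : Sys k β' := by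
  intro N
  obtain ⟨Ω, i1, i2, B, hL, hB⟩ := h N
  exact ⟨Ω, i1, i2, B, hL, fun z hz => hββ.trans (hB z hz)⟩

theorem D1_succ {k : ℕ} (hk : 0 < k) (h : D1 k) : D1 (k + 1) := by
  by_contra hn
  have h0 : ∃ β : ℝ, 0 < β ∧ Sys (k + 1) β := by
    unfold D1 at hn
    push Not at hn
    obtain ⟨β, hβ, hN⟩ := hn
    refine ⟨β, hβ, ?_⟩
    intro N
    obtain ⟨Ω, i1, i2, B, hB, hL⟩ := hN N
    exact ⟨Ω, i1, i2, B, hL, hB⟩
  obtain ⟨β0, hβ0, hS0⟩ := h0
  set T : Set ℝ := {β | Sys (k + 1) β} with hT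
  have hbdd : BddAbove T := ⟨1, fun β hβ => dmain_Sys_le hβ⟩
  have hne : T.Nonempty := ⟨β0, hS0⟩
  set γ : ℝ := sSup T with hγ
  have hγ0 : 0 < γ := lt_of_lt_of_le hβ0 (le_csSup hbdd hS0)
  have hSγ : ∀ ε : ℝ, 0 < ε → Sys (k + 1) (γ - ε) := by
    intro ε hε
    obtain ⟨b, hb, hlt⟩ := exists_lt_of_lt_csSup hne (show γ - ε < sSup T by linarith)
    exact dmain_Sys_anti hlt.le hb
  obtain ⟨η, τ, hη, hτ, hPr⟩ := Inc hk h hγ0 hSγ
  obtain ⟨k', rfl⟩ : ∃ k', k = k' + 1 := ⟨k - 1, by omega⟩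
  have hDn : ∀ n, Dn (k' + 1) n := Dn_of_D1 h
  have h1 : Sys (k' + 1 + 1) (γ + η) := Sys_of_Pr hDn (by linarith) hτ hPr
  have h2 : γ + η ≤ γ := le_csSup hbdd h1
  linarith

theorem D1_all (k : ℕ) : D1 (k + 1) := by
  induction k with
  | zero => exact D1_one
  | succ k ih => exact D1_succ (Nat.succ_pos k) ih

end OVW
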