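import Pool.Agent.H3.OVW.Stmt

/-! Definitions for `MP_d1c297_lc` (cone avoidance for the Ordered Variable Word theorem). -/

set_option linter.unusedVariables false

namespace OVW

open scoped BigOperators

/-- words over the alphabet `Fin k` -/
abbrev Word (k : ℕ) := List (Fin k)

/-- extended words; `none` is the variable `⋆` -/
abbrev XWord (k : ℕ) := List (Option (Fin k))

/-- nodes of the tree with left variable words `⋆ :: v 0, ⋆ :: v 1, …` (root word not included) -/
def node {k : ℕ} : (ℕ → XWord k) → Word k → Word k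
  | _, [] => []
  | v, a :: q => a :: (sub a (v 0) ++ node (fun i => v (i + 1)) q)

/-- nodes of the tree `(v0; ⋆ :: v 0, ⋆ :: v 1, …)` -/
def tnode {k : ℕ} (v0 : Word k) (v : ℕ → XWord k) (q : Word k) : Word k := v0 ++ node v q

/-- length of the nodes of level `n` -/
def tlen {k : ℕ} (v0 : Word k) (v : ℕ → XWord k) (n : ℕ) : ℕ :=
  v0.length + ∑ i ∈ Finset.range n, ((v i).length + 1)

/-- the uniform average over a finite type -/
noncomputable def Ex {Ω : Type} [Fintype Ω] (f : Ω → ℝ) : ℝ := (∑ ω, f ω) / Fintype.card Ω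

open Classical in
/-- the indicator of a proposition -/
noncomputable def ind (p : Prop) : ℝ := if p then 1 else 0

/-- `B` contains no Carlson–Simpson line of length `≤ N` -/
def LineFree {k : ℕ} {Ω : Type} (N : ℕ) (B : Word k → Ω → Prop) : Prop :=
  ∀ (c : Word k) (w : XWord k) (ω : Ω), c.length + w.length + 1 ≤ N → B c ω →
    ¬ ∀ a : Fin k, B (c ++ a :: sub a w) ω

/-- a system of events of depth `N` with bound `β` -/
def Bd {k : ℕ} {Ω : Type} [Fintype Ω] (N : ℕ) (β : ℝ) (B : Word k → Ω → Prop) : Prop :=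
  ∀ z : Word k, z.length ≤ N → β ≤ Ex (fun ω => ind (B z ω))

/-- `D₁(k)`: systems of events of probability `≥ β` of large depth are not line free -/
def D1 (k : ℕ) : Prop :=
  ∀ β : ℝ, 0 < β → ∃ N : ℕ, ∀ (Ω : Type) [Fintype Ω] [Nonempty Ω] (B : Word k → Ω → Prop),
    Bd N β B → ¬ LineFree N B

/-- `Dₙ(k)`: systems of events of probability `≥ β` of large depth contain trees of depth `n` -/
def Dn (k n : ℕ) : Prop :=
  ∀ β : ℝ, 0 < β → ∃ N : ℕ, ∀ (Ω : Type) [Fintype Ω] [Nonempty Ω] (B : Word k → Ω → Prop),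
    Bd N β B → ∃ (v0 : Word k) (v : ℕ → XWord k) (ω : Ω), tlen v0 v n ≤ N ∧
      ∀ q : Word k, q.length ≤ n → B (tnode v0 v q) ω

/-- there are line free systems of all depths with bound `β` -/
def Sys (k : ℕ) (β : ℝ) : Prop :=
  ∀ N : ℕ, ∃ (Ω : Type) (_ : Fintype Ω) (_ : Nonempty Ω) (B : Word k → Ω → Prop),
    LineFree N B ∧ Bd N β B

/-- replace the last letter by `i` -/
def rep {k : ℕ} (i : Fin k) (q : Word (k + 1)) : Word (k + 1) :=
  q.map (fun a => if a = Fin.last k then i.castSucc else a)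

/-- insensitive to changes between the last letter and `i` -/
def Insens {k : ℕ} {Ω : Type} (i : Fin k) (D : Word (k + 1) → Ω → Prop) : Prop :=
  ∀ q ω, D (rep i q) ω ↔ D q ω

/-- line free systems of all depths with density `≥ β`, by a margin `τ`, on the structured sets
`⋂_{i ∈ J} D i` -/
def Pr (k : ℕ) (β : ℝ) (J : Finset (Fin k)) (τ : ℝ) : Prop :=
  ∀ N : ℕ, ∃ (Ω : Type) (_ : Fintype Ω) (_ : Nonempty Ω) (B : Word (k + 1) → Ω → Prop)
    (D : Fin k → Word (k + 1) → Ω → Prop),
    LineFree N B ∧ (∀ i, Insens i (D i)) ∧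
      ∀ z : Word (k + 1), z.length ≤ N →
        τ ≤ Ex (fun ω => (ind (B z ω) - β) * ∏ i ∈ J, ind (D i z ω))

/-! ### Part II -/

/-- all words of length `m` -/
def words (k : ℕ) : ℕ → List (Word k)
  | 0 => [[]]
  | m + 1 => (words k m).flatMap fun w => (List.finRange k).map fun a => a :: w

open Classical in
/-- number of words of length `m` in `S` -/
noncomputable def cnt {k : ℕ} (S : Word k → Prop) (m : ℕ) : ℕ :=
  ((words k m).filter (fun x => decide (S x))).length

/-- `S` has density `≥ 1/d` on infinitely many levels -/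
def Dense {k : ℕ} (d : ℕ) (S : Word k → Prop) : Prop :=
  ∀ m0 : ℕ, ∃ m, m0 ≤ m ∧ k ^ m ≤ d * cnt S m

/-- all instances of a list of blocks -/
def leaves {k : ℕ} : List (XWord k) → List (Word k)
  | [] => [[]]
  | W :: L => (List.finRange k).flatMap fun a => (leaves L).map fun l => sub a W ++ l

/-- left variable word -/
def LV {k : ℕ} (w : XWord k) : Prop := w.head? = some none

/-- block list whose first block is constant and whose other blocks are left variable words -/
def Shape {k : ℕ} (L : List (XWord k)) : Prop :=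
  ∃ (c : Word k) (ws : List (XWord k)), L = c.map some :: ws ∧ ∀ w ∈ ws, LV w

/-- closed tree all of whose nodes are in `S` -/
def STree {k : ℕ} (S : Word k → Prop) (ρ : List (XWord k)) : Prop :=
  Shape ρ ∧ ∀ ρ' : List (XWord k), ρ' ≠ [] → ρ' <+: ρ → ∀ l ∈ leaves ρ', S l

/-- the positive answer to the forcing question at level `M` -/
def Pos {k : ℕ} (d : ℕ) (S : Word k → Prop) (F : List (XWord k) → Prop) (M : ℕ) : Prop :=
  ∀ χ : List (Word k), χ.Sublist (words k M) → (∀ x ∈ χ, S x) → k ^ M ≤ d * χ.length →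
    ∃ (ρ : List (XWord k)) (w : XWord k), (ρ ++ [w]).flatten.length = M ∧ STree S ρ ∧ LV w ∧ F ρ ∧
      ∀ l ∈ leaves (ρ ++ [w]), l ∈ χ

end OVW
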