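import Pool.Agent.H3.OVW.Defs

/-! Elementary facts on the uniform average `Ex`. -/

namespace OVW

open scoped BigOperators

section
variable {Ω Ω' : Type} [Fintype Ω] [Fintype Ω']

theorem ind_nonneg (p : Prop) : 0 ≤ ind p := by
  unfold ind; split_ifs <;> norm_num

theorem ind_le_one (p : Prop) : ind p ≤ 1 := by
  unfold ind; split_ifs <;> norm_num

theorem ind_true {p : Prop} (h : p) : ind p = 1 := by simp [ind, h]

theorem ind_false {p : Prop} (h : ¬ p) : ind p = 0 := by simp [ind, h]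

theorem ind_and (p q : Prop) : ind (p ∧ q) = ind p * ind q := by
  unfold ind; by_cases hp : p <;> by_cases hq : q <;> simp [hp, hq]

theorem ind_not (p : Prop) : ind (¬ p) = 1 - ind p := by
  unfold ind; by_cases hp : p <;> simp [hp]

theorem ind_mono {p q : Prop} (h : p → q) : ind p ≤ ind q := by
  unfold ind; by_cases hp : p
  · simp [hp, h hp]
  · simp [hp]; split_ifs <;> norm_num

theorem ind_congr {p q : Prop} (h : p ↔ q) : ind p = ind q := by
  unfold ind; by_cases hp : p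
  · simp [hp, h.1 hp]
  · have : ¬ q := fun hq => hp (h.2 hq)
    simp [hp, this]

theorem card_pos' [Nonempty Ω] : (0 : ℝ) < Fintype.card Ω := by
  exact_mod_cast Fintype.card_pos

theorem Ex_const [Nonempty Ω] (c : ℝ) : Ex (fun _ : Ω => c) = c := by
  unfold Ex
  rw [Finset.sum_const, Finset.card_univ, nsmul_eq_mul, mul_comm, mul_div_assoc,
    div_self (ne_of_gt card_pos'), mul_one]

theorem Ex_add (f g : Ω → ℝ) : Ex (fun ω => f ω + g ω) = Ex f + Ex g := by
  unfold Ex; rw [Finset.sum_add_distrib, add_div]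

theorem Ex_sub (f g : Ω → ℝ) : Ex (fun ω => f ω - g ω) = Ex f - Ex g := by
  unfold Ex; rw [Finset.sum_sub_distrib, sub_div]

theorem Ex_mul_left (c : ℝ) (f : Ω → ℝ) : Ex (fun ω => c * f ω) = c * Ex f := by
  unfold Ex; rw [← Finset.mul_sum, mul_div_assoc]

theorem Ex_mul_right (c : ℝ) (f : Ω → ℝ) : Ex (fun ω => f ω * c) = Ex f * c := by
  unfold Ex; rw [← Finset.sum_mul, mul_div_right_comm]

theorem Ex_neg (f : Ω → ℝ) : Ex (fun ω => - f ω) = - Ex f := by
  unfold Ex; rw [Finset.sum_neg_distrib, neg_div]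

theorem Ex_sum {ι : Type*} (s : Finset ι) (f : ι → Ω → ℝ) :
    Ex (fun ω => ∑ i ∈ s, f i ω) = ∑ i ∈ s, Ex (f i) := by
  unfold Ex; rw [Finset.sum_comm, Finset.sum_div]

theorem Ex_mono {f g : Ω → ℝ} (h : ∀ ω, f ω ≤ g ω) : Ex f ≤ Ex g := by
  unfold Ex
  exact div_le_div_of_nonneg_right (Finset.sum_le_sum fun ω _ => h ω) (Nat.cast_nonneg _)

theorem Ex_nonneg {f : Ω → ℝ} (h : ∀ ω, 0 ≤ f ω) : 0 ≤ Ex f := by
  unfold Ex
  exact div_nonneg (Finset.sum_nonneg fun ω _ => h ω) (Nat.cast_nonneg _)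

theorem Ex_le_of_le [Nonempty Ω] {f : Ω → ℝ} {c : ℝ} (h : ∀ ω, f ω ≤ c) : Ex f ≤ c := by
  rw [← Ex_const (Ω := Ω) c]; exact Ex_mono h

theorem le_Ex_of_le [Nonempty Ω] {f : Ω → ℝ} {c : ℝ} (h : ∀ ω, c ≤ f ω) : c ≤ Ex f := by
  rw [← Ex_const (Ω := Ω) c]; exact Ex_mono h

theorem abs_Ex_le_Ex_abs (f : Ω → ℝ) : |Ex f| ≤ Ex (fun ω => |f ω|) := by
  rw [abs_le]
  constructor
  · rw [← Ex_neg]; exact Ex_mono fun ω => neg_abs_le _
  · exact Ex_mono fun ω => le_abs_self _

theorem abs_Ex_le [Nonempty Ω] {f : Ω → ℝ} {c : ℝ} (h : ∀ ω, |f ω| ≤ c) : |Ex f| ≤ c :=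
  (abs_Ex_le_Ex_abs f).trans (Ex_le_of_le h)

theorem exists_Ex_le [Nonempty Ω] (f : Ω → ℝ) : ∃ ω, Ex f ≤ f ω := by
  by_contra h
  push Not at h
  have h1 : ∑ ω, f ω < ∑ _ω : Ω, Ex f := Finset.sum_lt_sum_of_nonempty
    Finset.univ_nonempty (fun ω _ => h ω)
  rw [Finset.sum_const, Finset.card_univ, nsmul_eq_mul] at h1
  unfold Ex at h1
  rw [mul_div_cancel₀ _ (ne_of_gt (card_pos' (Ω := Ω)))] at h1
  exact lt_irrefl _ h1

/-- Fubini -/
theorem Ex_prod (f : Ω × Ω' → ℝ) : Ex f = Ex (fun a : Ω => Ex (fun b : Ω' => f (a, b))) := by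
  unfold Ex
  rw [Fintype.sum_prod_type, Fintype.card_prod, ← Finset.sum_div, div_div, Nat.cast_mul,
    mul_comm (Fintype.card Ω : ℝ)]

theorem Ex_comm (f : Ω → Ω' → ℝ) :
    Ex (fun a => Ex (fun b => f a b)) = Ex (fun b => Ex (fun a => f a b)) := by
  unfold Ex
  rw [← Finset.sum_div, ← Finset.sum_div, Finset.sum_comm, div_div, div_div,
    mul_comm (Fintype.card Ω : ℝ)]

theorem Ex_equiv (e : Ω ≃ Ω') (f : Ω' → ℝ) : Ex (fun a => f (e a)) = Ex f := by
  unfold Ex
  rw [Fintype.card_congr e, Equiv.sum_comp e f]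

/-- the average over an event -/
theorem Ex_subtype (p : Ω → Prop) [DecidablePred p] [Nonempty {ω // p ω}] (f : Ω → ℝ) :
    Ex (fun x : {ω // p ω} => f x) = Ex (fun ω => f ω * ind (p ω)) / Ex (fun ω => ind (p ω)) := by
  classical
  obtain ⟨⟨ω0, h0⟩⟩ := (inferInstance : Nonempty {ω // p ω})
  have : Nonempty Ω := ⟨ω0⟩
  have hc : (0:ℝ) < Fintype.card Ω := card_pos'
  have h1 : ∀ g : Ω → ℝ, ∑ ω, g ω * ind (p ω) = ∑ x : {ω // p ω}, g x := by
    intro g
    have : ∀ ω, g ω * ind (p ω) = if p ω then g ω else 0 := by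
      intro ω; by_cases h : p ω <;> simp [ind, h]
    simp_rw [this]
    rw [← Finset.sum_filter]
    exact Finset.sum_subtype _ (fun x => by simp) g
  have h2 : ∑ ω, ind (p ω) = (Fintype.card {ω // p ω} : ℝ) := by
    have := h1 (fun _ => 1)
    simp only [one_mul, Finset.sum_const, nsmul_eq_mul, mul_one, Finset.card_univ] at this
    exact this
  unfold Ex
  rw [h1 f, h2]
  have hc2 : (0:ℝ) < Fintype.card {ω // p ω} := by exact_mod_cast Fintype.card_pos
  field_simp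

/-- resampling one coordinate -/
theorem Ex_update {ι X : Type} [Fintype ι] [DecidableEq ι] [Fintype X] [Nonempty X]
    (F : (ι → X) → ℝ) (j : ι) :
    Ex F = Ex (fun y => Ex (fun x => F (Function.update y j x))) := by
  classical
  set e := Equiv.funSplitAt j X with he
  have h1 : Ex F = Ex (fun a : X => Ex (fun r : ({i // i ≠ j} → X) => F (e.symm (a, r)))) := by
    rw [← Ex_prod (fun p : X × ({i // i ≠ j} → X) => F (e.symm p)), ← Ex_equiv e.symm F]
  have h2 : ∀ y x, Function.update y j x = e.symm (x, (e y).2) := by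
    intro y x
    apply e.injective
    rw [Equiv.apply_symm_apply]
    simp only [he, Equiv.funSplitAt, Equiv.piSplitAt_apply]
    refine Prod.ext ?_ ?_
    · simp
    · funext i
      simp [Function.update_of_ne i.2]
  simp_rw [h2]
  rw [← Ex_equiv e.symm (fun y => Ex (fun x => F (e.symm (x, (e y).2)))),
    Ex_prod (fun p : X × ({i // i ≠ j} → X) =>
      Ex (fun x => F (e.symm (x, (e (e.symm p)).2))))]
  simp only [Equiv.apply_symm_apply]
  rw [Ex_const, Ex_comm, h1]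

/-- marginals of a product -/
theorem Ex_comp_inj {ι ι' X : Type} [Fintype ι] [DecidableEq ι] [Fintype ι'] [DecidableEq ι']
    [Fintype X] [Nonempty X]
    (σ : ι' → ι) (hσ : Function.Injective σ) (F : (ι' → X) → ℝ) :
    Ex (fun y : ι → X => F (fun i => y (σ i))) = Ex F := by
  classical
  set p : ι → Prop := fun x => x ∈ Set.range σ with hp
  set e1 := Equiv.piEquivPiSubtypeProd p (fun _ => X) with he1
  set e2 : (ι' → X) ≃ ({x // p x} → X) := Equiv.arrowCongr (Equiv.ofInjective σ hσ) (Equiv.refl X)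
    with he2
  rw [← Ex_equiv e1.symm, Ex_prod]
  have h1 : ∀ (a : {x // p x} → X) (b : {x // ¬ p x} → X),
      (fun i => e1.symm (a, b) (σ i)) = e2.symm a := by
    intro a b
    funext i
    have hi : p (σ i) := ⟨i, rfl⟩
    simp only [he1, he2, Equiv.piEquivPiSubtypeProd_symm_apply, hi, dite_true]
    rfl
  simp_rw [h1]
  simp_rw [Ex_const]
  exact Ex_equiv e2.symm F

theorem Ex_castLE {X : Type} [Fintype X] [Nonempty X] {m L : ℕ} (h : m ≤ L)
    (F : (Fin m → X) → ℝ) :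
    Ex (fun y : Fin L → X => F (fun i => y (Fin.castLE h i))) = Ex F :=
  Ex_comp_inj _ (Fin.castLE_injective h) F

theorem Ex_markov [Nonempty Ω] {f : Ω → ℝ} {τ : ℝ} (h0 : 0 ≤ τ) (hf : ∀ ω, f ω ≤ 1)
    (h : 2 * τ ≤ Ex f) : τ ≤ Ex (fun ω => ind (τ ≤ f ω)) := by
  have : Ex f ≤ Ex (fun ω => ind (τ ≤ f ω) + τ) := by
    apply Ex_mono
    intro ω
    by_cases h1 : τ ≤ f ω
    · rw [ind_true h1]; linarith [hf ω]
    · rw [ind_false h1]; push Not at h1; linarith
  rw [Ex_add, Ex_const] at this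
  linarith

end

end OVW
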