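import Pool.Agent.H3.OVW.Tree

/-! MODULE FILL (project MP_d1c297_lc).

`fill m x q`: the word of length `m |q|` with letters `x p`, except that the letter at position `m j` is the `j`-th letter of
`q` (`j < |q|`).  For strictly increasing `m` this is the node `q` of the tree with root word `x 0 … x (m 0 - 1)` and
constant tails `x (m j + 1) … x (m (j+1) - 1)`. -/

namespace OVW

open scoped BigOperators

/-- overwrite the letters of `x` at the positions `m 0, m 1, …` by the letters of `q` -/
def upd {A : Type} : (ℕ → ℕ) → List A → (ℕ → A) → (ℕ → A)
  | _, [], x => x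
  | m, a :: q, x => Function.update (upd (fun i => m (i + 1)) q x) (m 0) a

/-- the word of length `m |q|` -/
def fill {A : Type} (m : ℕ → ℕ) (x : ℕ → A) (q : List A) : List A :=
  (List.range (m q.length)).map (upd m q x)

def fill0 {k : ℕ} (m : ℕ → ℕ) (x : ℕ → Fin k) : Word k := (List.range (m 0)).map x

def fillv {k : ℕ} (m : ℕ → ℕ) (x : ℕ → Fin k) (j : ℕ) : XWord k :=
  (List.range (m (j + 1) - m j - 1)).map (fun i => some (x (m j + 1 + i)))

theorem length_fill {A : Type} (m : ℕ → ℕ) (x : ℕ → A) (q : List A) :
    (fill m x q).length = m q.length := by
  simp [fill]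

theorem tlen_fill {k : ℕ} {m : ℕ → ℕ} (hm : StrictMono m) (x : ℕ → Fin k) (n : ℕ) :
    tlen (fill0 m x) (fillv m x) n = m n := by
  induction n with
  | zero => simp [tlen, fill0]
  | succ n ih =>
    rw [tlen_add, ih]
    have : m n < m (n + 1) := hm (Nat.lt_succ_self n)
    simp only [Finset.range_one, Finset.sum_singleton, Nat.add_zero, fillv, List.length_map,
      List.length_range]
    omega

/-- value of `upd` off the forced positions -/
theorem upd_of_ne {A : Type} (m : ℕ → ℕ) (q : List A) (x : ℕ → A) (p : ℕ)
    (h : ∀ j < q.length, m j ≠ p) : upd m q x p = x p := by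
  induction q generalizing m with
  | nil => rfl
  | cons a q ih =>
    simp only [upd]
    rw [Function.update_of_ne]
    · exact ih (fun i => m (i + 1)) (fun j hj => h (j + 1) (by simpa using hj))
    · exact (h 0 (by simp)).symm

/-- value of `upd` at the forced positions -/
theorem upd_of_eq {A : Type} (m : ℕ → ℕ) (hm : Function.Injective m) (q : List A) (x : ℕ → A) (j : ℕ)
    (h : j < q.length) : upd m q x (m j) = q[j] := by
  induction q generalizing m j with
  | nil => simp at h
  | cons a q ih =>
    simp only [upd]
    cases j with
    | zero => simp
    | succ j =>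
      rw [Function.update_of_ne]
      · have := ih (fun i => m (i + 1)) (fun i i' hi => by
          have := hm hi; omega) j (by simpa using h)
        simpa using this
      · intro h2
        have := hm h2
        omega

theorem map_upd {A A' : Type} (φ : A → A') (m : ℕ → ℕ) (q : List A) (x : ℕ → A) (p : ℕ) :
    φ (upd m q x p) = upd m (q.map φ) (fun i => φ (x i)) p := by
  induction q generalizing m with
  | nil => rfl
  | cons a q ih =>
    simp only [upd, List.map_cons]
    by_cases hp : p = m 0
    · subst hp; simp
    · rw [Function.update_of_ne hp, Function.update_of_ne hp]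
      exact ih _

theorem map_fill {A A' : Type} (φ : A → A') (m : ℕ → ℕ) (q : List A) (x : ℕ → A) :
    (fill m x q).map φ = fill m (fun i => φ (x i)) (q.map φ) := by
  simp only [fill, List.map_map, List.length_map]
  apply List.map_congr_left
  intro p _
  exact map_upd φ m q x p

theorem fill_eq {k : ℕ} {m : ℕ → ℕ} (hm : StrictMono m) (x : ℕ → Fin k) (q : Word k) :
    fill m x q = tnode (fill0 m x) (fillv m x) q := by
  induction q using List.reverseRecOn with
  | nil => simp [fill, fill0, tnode, node, upd]
  | append_singleton q a ih =>
    have h1 : tnode (fill0 m x) (fillv m x) (q ++ [a]) =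
        tnode (fill0 m x) (fillv m x) q ++ a :: sub a (fillv m x q.length) := by
      simp only [tnode]
      rw [node_append, List.append_assoc]
      simp [node]
    rw [h1, ← ih]
    have hlt : m q.length < m (q.length + 1) := hm (Nat.lt_succ_self q.length)
    apply List.ext_getElem
    · simp only [length_fill, List.length_append, List.length_cons, length_sub, List.length_nil,
        fillv, List.length_map, List.length_range, Nat.zero_add]
      omega
    · intro p hp1 hp2
      have hp : p < m (q.length + 1) := by
        rw [length_fill] at hp1
        simpa using hp1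
      have h2 : (fill m x (q ++ [a]))[p] = upd m (q ++ [a]) x p := by
        simp [fill]
      rw [h2]
      by_cases h3 : p < m q.length
      · rw [List.getElem_append_left (by rw [length_fill]; exact h3)]
        have h4 : (fill m x q)[p]'(by rw [length_fill]; exact h3) = upd m q x p := by
          simp [fill]
        rw [h4]
        by_cases h5 : ∃ j < q.length, m j = p
        · obtain ⟨j, hj, rfl⟩ := h5
          rw [upd_of_eq m hm.injective q x j hj, upd_of_eq m hm.injective (q ++ [a]) x j
            (by simp; omega)]
          exact List.getElem_append_left hj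
        · push Not at h5
          rw [upd_of_ne m q x p h5, upd_of_ne]
          intro j hj
          rcases Nat.lt_or_ge j q.length with h6 | h6
          · exact h5 j h6
          · have : m q.length ≤ m j := hm.monotone h6
            omega
      · push Not at h3
        rw [List.getElem_append_right (by rw [length_fill]; exact h3)]
        rcases Nat.eq_or_lt_of_le h3 with h4 | h4
        · subst h4
          rw [upd_of_eq m hm.injective (q ++ [a]) x q.length (by simp)]
          simp [length_fill]
        · rw [upd_of_ne]
          · obtain ⟨t, ht⟩ : ∃ t, p = m q.length + 1 + t := ⟨p - (m q.length + 1), by omega⟩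
            subst ht
            have h5 : m q.length + 1 + t - (fill m x q).length = t + 1 := by
              rw [length_fill]; omega
            simp only [h5, List.getElem_cons_succ]
            simp [sub, fillv]
          · intro j hj
            simp only [List.length_append, List.length_singleton] at hj
            rcases Nat.lt_or_ge j (q.length) with h6 | h6
            · have := hm h6; omega
            · have : j = q.length := by omega
              subst this; omega

/-- levels in consecutive windows of size `G`: `lev e G g j = e (j G + g j)` -/
def gext {n G : ℕ} (g : Fin (n + 1) → Fin G) (j : ℕ) : ℕ :=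
  if h : j < n + 1 then (g ⟨j, h⟩ : ℕ) else 0

def lev (e : ℕ → ℕ) {n G : ℕ} (g : Fin (n + 1) → Fin G) (j : ℕ) : ℕ := e (j * G + gext g j)

theorem gext_lt {n G : ℕ} (hG : 0 < G) (g : Fin (n + 1) → Fin G) (j : ℕ) : gext g j < G := by
  unfold gext
  split_ifs with h
  · exact (g ⟨j, h⟩).2
  · exact hG

theorem lev_strictMono {e : ℕ → ℕ} (he : StrictMono e) {n G : ℕ} (hG : 0 < G)
    (g : Fin (n + 1) → Fin G) : StrictMono (lev e g) := by
  intro i j hij
  apply he
  have h1 := gext_lt hG g i
  have h2 : (i + 1) * G ≤ j * G := Nat.mul_le_mul_right G hij
  have h3 : (i + 1) * G = i * G + G := by ring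
  omega

theorem lev_lt {e : ℕ → ℕ} (he : StrictMono e) {n G : ℕ} (hG : 0 < G)
    (g : Fin (n + 1) → Fin G) {j : ℕ} (hj : j ≤ n) : lev e g j < e ((n + 1) * G) := by
  apply he
  have h1 := gext_lt hG g j
  have h2 : (j + 1) * G ≤ (n + 1) * G := Nat.mul_le_mul_right G (by omega)
  have h3 : (j + 1) * G = j * G + G := by ring
  omega

end OVW
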