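import Pool.Agent.H3.OVW.Force

/-! MODULE FINAL (project MP_d1c297_lc): requirements and the generic solution (helper3). -/

namespace OVW

open Encodable

variable {k : ℕ} {T : Word k → Prop}

theorem comp_eq {α β : Type} [Primcodable α] [Primcodable β] [DecidableEq β] {f g : α → β}
    (hf : Computable f) (hg : Computable g) : ComputablePred (fun a => f a = g a) := by
  have h : Primrec₂ (fun a b : β => decide (a = b)) := (Primrec.eq (α := β)).decide
  exact (h.to_comp.comp hf hg).computablePred

theorem primrec_glue (Lc : List (XWord k)) (y : XWord k) : Primrec (glue Lc y) := by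
  have h : Primrec (fun ρ : List (XWord k) =>
      (List.casesOn ρ Lc (fun r rs => Lc ++ (y ++ r) :: rs) : List (XWord k))) := by
    refine Primrec.list_casesOn (α := List (XWord k)) (β := XWord k) (σ := List (XWord k))
      (f := fun ρ => ρ) (g := fun _ => Lc) (h := fun _ p => Lc ++ (y ++ p.1) :: p.2)
      Primrec.id (Primrec.const Lc) ?_
    have h1 : Primrec (fun p : List (XWord k) × (XWord k × List (XWord k)) => y ++ p.2.1) :=
      Primrec.list_append.comp (Primrec.const y) (Primrec.fst.comp Primrec.snd)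
    have h2 : Primrec (fun p : List (XWord k) × (XWord k × List (XWord k)) =>
        (y ++ p.2.1) :: p.2.2) :=
      Primrec.list_cons.comp h1 (Primrec.snd.comp Primrec.snd)
    exact (Primrec.list_append.comp (Primrec.const Lc) h2).to₂
  refine h.of_eq ?_
  intro ρ
  cases ρ <;> rfl

/-- the family for the forcing question: `Φ` gives the value `v` at `n` (`x = ⟨n, v⟩`) -/
def Fam (Lc : List (XWord k)) (y : XWord k) (Φ : List ℕ → ℕ → Option ℕ) (x : ℕ)
    (ρ : List (XWord k)) : Prop :=
  Φ ((glue Lc y ρ).map encode) (Nat.unpair x).1 = some (Nat.unpair x).2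

theorem fam_comp (Lc : List (XWord k)) (y : XWord k) (Φ : List ℕ → ℕ → Option ℕ)
    (hΦ : Computable (fun x : List ℕ × ℕ => Φ x.1 x.2)) :
    ComputablePred (fun p : ℕ × List (XWord k) => Fam Lc y Φ p.1 p.2) := by
  unfold Fam
  refine comp_eq ?_ ?_
  · have h1 : Computable (fun p : ℕ × List (XWord k) => (glue Lc y p.2).map encode) := by
      refine Primrec.to_comp ?_
      exact Primrec.list_map ((primrec_glue Lc y).comp Primrec.snd)
        (Primrec.encode.comp Primrec.snd).to₂
    exact hΦ.comp (h1.pair (Computable.fst.comp (Computable.unpair.comp Computable.fst)))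
  · exact Computable.option_some.comp (Computable.snd.comp (Computable.unpair.comp Computable.fst))

theorem fam_comp' (Lc : List (XWord k)) (y : XWord k) (Φ : List ℕ → ℕ → Option ℕ)
    (hΦ : Computable (fun x : List ℕ × ℕ => Φ x.1 x.2)) (x : ℕ) :
    ComputablePred (Fam Lc y Φ x) := by
  obtain ⟨inst, h⟩ := fam_comp Lc y Φ hΦ
  refine ⟨fun ρ => inst (x, ρ), ?_⟩
  exact h.comp ((Computable.const x).pair Computable.id)

/-- computing a function by searching through a computable predicate -/
theorem computable_of_search {R : ℕ → ℕ → Prop} (hR : ComputablePred (fun p : ℕ × ℕ => R p.1 p.2))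
    (C : ℕ → ℕ) (h1 : ∀ n, ∃ t, R n t) (h2 : ∀ n t, R n t → (Nat.unpair t).1 = C n) :
    Computable C := by
  classical
  have h3 := Computable.find hR h1
  refine (Computable.fst.comp (Computable.unpair.comp h3)).of_eq ?_
  intro n
  exact h2 n _ (Nat.find_spec (h1 n))

/-- requirements -/
theorem require (hk : 0 < k) (p : Cond k T) (Φ : List ℕ → ℕ → Option ℕ)
    (hΦ : Computable (fun x : List ℕ × ℕ => Φ x.1 x.2))
    (hmono : ∀ s s' n v, s <+: s' → v ∈ Φ s n → v ∈ Φ s' n) (C : ℕ → ℕ) (hC : ¬ Computable C) :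
    ∃ q : Cond k T, Le q p ∧ ∃ n, ∀ (G : List (XWord k)) (w : XWord k),
      q.Lc.length < G.length → Allowed q (G ++ [w]) → C n ∉ Φ (G.map encode) n := by
  obtain ⟨M0, hM0⟩ := posExt hk p
  by_cases h1 : ∃ n v M, v ≠ C n ∧ M0 ≤ M ∧ k ^ M ≤ p.d * cnt p.S M ∧
      Pos (4 * p.d ^ 2) p.S (Fam p.Lc p.y Φ (Nat.pair n v)) M
  · obtain ⟨n, v, M, hv, hM, hN, hpos⟩ := h1
    obtain ⟨q, hq, ρ, hρ, hF, hL⟩ := hM0 M hM hN _ hpos
    refine ⟨q, hq, n, ?_⟩
    intro G w hlen hall hmem
    have hpre : q.Lc <+: G := by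
      refine List.prefix_of_prefix_length_le hall.ofPre (List.prefix_append G [w]) hlen.le
    have h3 : v ∈ Φ (q.Lc.map encode) n := by
      rw [hL]
      simpa [Fam] using hF
    have h4 := hmono _ (G.map encode) n v (hpre.map _) h3
    have : C n = v := Option.mem_unique hmem h4
    exact hv this.symm
  by_cases h2 : ∃ n, ∀ m0, ∃ M, m0 ≤ M ∧ k ^ M ≤ p.d * cnt p.S M ∧
      ¬ Pos (4 * p.d ^ 2) p.S (Fam p.Lc p.y Φ (Nat.pair n (C n))) M
  · obtain ⟨n, hn⟩ := h2
    obtain ⟨S', hc', hd', hsub, hno⟩ := stepB hk p.hd p.S p.comp _ (fam_comp' p.Lc p.y Φ hΦ _) hn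
    have hd4 : 0 < 4 * p.d ^ 2 := by have := p.hd; positivity
    refine ⟨extB p S' _ hd4 hc' hd' hsub, extB_le p S' _ hd4 hc' hd' hsub, n, ?_⟩
    rintro G w hlen ⟨ρ', hρ', hG⟩ hmem
    change G ++ [w] = glue p.Lc p.y ρ' at hG
    change p.Lc.length < G.length at hlen
    have hl : (G ++ [w]).length = p.Lc.length + ρ'.length := by rw [hG, length_glue]
    have hl2 : 2 ≤ ρ'.length := by
      simp at hl; omega
    have hne : ρ' ≠ [] := by rintro rfl; simp at hl2
    obtain ⟨ρ, w', rfl⟩ : ∃ ρ w', ρ' = ρ ++ [w'] :=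
      ⟨ρ'.dropLast, ρ'.getLast hne, (List.dropLast_append_getLast hne).symm⟩
    have hne2 : ρ ≠ [] := by rintro rfl; simp at hl2
    rw [glue_append_singleton _ _ _ hne2] at hG
    obtain ⟨rfl, hw⟩ := List.append_inj' hG rfl
    have hST : STree S' ρ := hρ'.ofPre hne2 (List.prefix_append _ _)
    have hLV : LV w' := by
      obtain ⟨⟨c, ws, h5, h6⟩, _⟩ := hρ'
      cases ρ with
      | nil => exact absurd rfl hne2
      | cons r rs =>
        rw [List.cons_append, List.cons.injEq] at h5
        apply h6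
        rw [← h5.2]
        simp
    refine hno ρ w' (hST.mono hsub) ?_ hLV (fun l hl => hρ'.2 _ (by simp) List.prefix_rfl l hl)
    simpa [Fam] using hmem
  · exfalso
    push Not at h1 h2
    apply hC
    refine computable_of_search (R := fun n t => M0 ≤ (Nat.unpair t).2 ∧
      k ^ (Nat.unpair t).2 ≤ p.d * cnt p.S (Nat.unpair t).2 ∧
      Pos (4 * p.d ^ 2) p.S (Fam p.Lc p.y Φ (Nat.pair n (Nat.unpair t).1)) (Nat.unpair t).2)
      ?_ C ?_ ?_
    · refine comp_and ?_ (comp_and ?_ ?_)
      · refine comp_comp (p := fun m : ℕ => M0 ≤ m) ?_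
          (Computable.snd.comp (Computable.unpair.comp Computable.snd))
        exact (Primrec.nat_le.comp (Primrec.const M0) Primrec.id).computablePred
      · exact comp_comp (dense_level_comp p.S p.comp p.d)
          (Computable.snd.comp (Computable.unpair.comp Computable.snd))
      · exact comp_comp (pos_comp p.S p.comp _ _ (fam_comp p.Lc p.y Φ hΦ))
          (((Primrec₂.natPair.to_comp.comp Computable.fst
            (Computable.fst.comp (Computable.unpair.comp Computable.snd)))).pair
            (Computable.snd.comp (Computable.unpair.comp Computable.snd)))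
    · intro n
      obtain ⟨m0, hm0⟩ := h2 n
      obtain ⟨M, hM, hN⟩ := p.dense (max M0 m0)
      refine ⟨Nat.pair (C n) M, ?_⟩
      rw [Nat.unpair_pair]
      exact ⟨le_trans (le_max_left _ _) hM, hN, hm0 M (le_trans (le_max_right _ _) hM) hN⟩
    · rintro n t ⟨h3, h4, h5⟩
      by_contra h6
      exact h1 n _ _ h6 h3 h4 h5

theorem stepCond {T : Word (k + 1) → Prop} (p : Cond (k + 1) T) (Φ : List ℕ → ℕ → Option ℕ)
    (hΦ : Computable (fun x : List ℕ × ℕ => Φ x.1 x.2))
    (hmono : ∀ s s' n v, s <+: s' → v ∈ Φ s n → v ∈ Φ s' n) (C : ℕ → ℕ) (hC : ¬ Computable C) :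
    ∃ q : Cond (k + 1) T, Le q p ∧ p.Lc.length < q.Lc.length ∧
      ∃ n, ∀ (G : List (XWord (k + 1))) (w : XWord (k + 1)),
      q.Lc.length < G.length → Allowed q (G ++ [w]) → C n ∉ Φ (G.map encode) n := by
  obtain ⟨q, hq, n, hn⟩ := require (Nat.succ_pos k) p Φ hΦ hmono C hC
  obtain ⟨r, hr, hlen⟩ := extend q
  refine ⟨r, hr.trans hq, lt_of_le_of_lt hq.ofPre.length_le hlen, n, ?_⟩
  intro G w hG hall
  exact hn G w (lt_trans hlen hG) (hr.2 _ hall)

theorem generic {T : Word (k + 1) → Prop} (p0 : Cond (k + 1) T) (Φ : ℕ → List ℕ → ℕ → Option ℕ)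
    (hΦ : ∀ e, Computable (fun x : List ℕ × ℕ => Φ e x.1 x.2))
    (hmono : ∀ e s s' n v, s <+: s' → v ∈ Φ e s n → v ∈ Φ e s' n) (C : ℕ → ℕ)
    (hC : ¬ Computable C) :
    ∃ W : ℕ → XWord (k + 1), (∀ j, Shape ((List.range (j + 1)).map W)) ∧
      (∀ j, ∀ l ∈ leaves ((List.range (j + 1)).map W), T l) ∧
      ∀ e, ∃ n, ∀ j, C n ∉ Φ e (((List.range j).map W).map encode) n := by
  choose st hst1 hst2 nn hst3 using
    fun (e : ℕ) (p : Cond (k + 1) T) => stepCond p (Φ e) (hΦ e) (hmono e) C hC
  let P : ℕ → Cond (k + 1) T := fun i => Nat.rec p0 (fun e p => st e p) i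
  have hP : ∀ e, P (e + 1) = st e (P e) := fun e => rfl
  have hle1 : ∀ e, Le (P (e + 1)) (P e) := fun e => by rw [hP]; exact hst1 e _
  have hle : ∀ i j, i ≤ j → Le (P j) (P i) := by
    intro i j hij
    induction j, hij using Nat.le_induction with
    | base => exact Le.refl _
    | succ j _ ih => exact (hle1 j).trans ih
  have hlen : ∀ e, e ≤ (P e).Lc.length := by
    intro e
    induction e with
    | zero => exact Nat.zero_le _
    | succ e ih =>
      have : (P e).Lc.length < (P (e + 1)).Lc.length := by rw [hP]; exact hst2 e _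
      omega
  let W : ℕ → XWord (k + 1) := fun j => (P (j + 1)).Lc.getD j []
  have hW : ∀ i j, j < (P i).Lc.length → (P i).Lc[j]? = some (W j) := by
    intro i j hj
    have hj2 : j < (P (j + 1)).Lc.length := lt_of_lt_of_le (Nat.lt_succ_self j) (hlen (j + 1))
    have h1 : (P (j + 1)).Lc[j]? = some (W j) := by
      simp only [W, List.getD_eq_getElem?_getD]
      rw [List.getElem?_eq_getElem hj2]
      rfl
    rw [← h1]
    rcases le_total i (j + 1) with h | h
    · obtain ⟨t, ht⟩ := (hle i (j + 1) h).ofPre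
      rw [← ht, List.getElem?_append_left hj]
    · obtain ⟨t, ht⟩ := (hle (j + 1) i h).ofPre
      rw [← ht, List.getElem?_append_left hj2]
  have htake : ∀ i j, j ≤ (P i).Lc.length → (List.range j).map W = (P i).Lc.take j := by
    intro i j hj
    apply List.ext_getElem?
    intro t
    by_cases ht : t < j
    · rw [List.getElem?_take_of_lt ht, hW i t (lt_of_lt_of_le ht hj)]
      simp [ht]
    · rw [List.getElem?_eq_none (by simp; omega), List.getElem?_eq_none (by simp; omega)]
  have hpre : ∀ i j, j ≤ (P i).Lc.length → (List.range j).map W <+: (P i).Lc := by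
    intro i j hj
    rw [htake i j hj]; exact List.take_prefix _ _
  have hne : ∀ j, (List.range (j + 1)).map W ≠ [] := by
    intro j; simp
  refine ⟨W, ?_, ?_, ?_⟩
  · intro j
    have h1 := hpre (j + 1) (j + 1) (hlen _)
    rcases (P (j + 1)).shape with ⟨h2, _⟩ | ⟨h2, _⟩
    · exfalso
      have := hlen (j + 1)
      rw [h2] at this
      simp at this
    · exact h2.ofPre (hne j) h1
  · intro j l hl
    exact (P (j + 1)).nodes _ (hne j) (hpre (j + 1) (j + 1) (hlen _)) l hl
  · intro e
    refine ⟨nn e (P e), ?_⟩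
    intro j hmem
    set q := P (e + 1) with hq
    set i := (e + 1) + (j + q.Lc.length + 2) with hi
    have hi1 : e + 1 ≤ i := Nat.le_add_right _ _
    have hlen_i : i ≤ (P i).Lc.length := hlen i
    have hLe : Le (P i) q := hle _ _ hi1
    have hall : Allowed q (P i).Lc := by
      rcases hLe.1 with h | h
      · exfalso
        rw [h] at hlen_i
        omega
      · exact h
    have hnn : (P i).Lc ≠ [] := by
      intro h; rw [h] at hlen_i; simp at hlen_i
    have hGw : (P i).Lc = (P i).Lc.dropLast ++ [(P i).Lc.getLast hnn] :=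
      (List.dropLast_append_getLast hnn).symm
    have hGlen : (P i).Lc.dropLast.length = (P i).Lc.length - 1 := List.length_dropLast
    rw [hGw] at hall
    have h3 := hst3 e (P e) (P i).Lc.dropLast ((P i).Lc.getLast hnn)
      (by rw [← hP]; change q.Lc.length < _; omega) (by rw [← hP]; exact hall)
    apply h3
    refine hmono e _ _ _ _ ?_ hmem
    apply List.IsPrefix.map
    refine List.prefix_of_prefix_length_le (hpre i j (by omega)) (List.dropLast_prefix _) ?_
    simp
    omega

theorem inst_mem_leaves (w : ℕ → XWord k) (q : Word k) :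
    inst w q ∈ leaves ((List.range q.length).map w) := by
  induction q generalizing w with
  | nil => simp [inst, leaves]
  | cons a q ih =>
    rw [List.length_cons, List.range_succ_eq_map, List.map_cons, mem_leaves_cons]
    refine ⟨a, inst (fun i => w (i + 1)) q, ?_, rfl⟩
    have := ih (fun i => w (i + 1))
    rw [List.map_map]
    exact this

theorem exists_dense_color {ℓ : ℕ} (f : Word (k + 1) → Fin ℓ) :
    ∃ col, Dense ℓ (fun x => f x = col) := by
  classical
  by_contra hcon
  push Not at hcon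
  unfold Dense at hcon
  push Not at hcon
  choose m0 hm0 using hcon
  set m := ∑ col, m0 col with hm
  have h1 : ∀ col, ℓ * cnt (fun x => f x = col) m < (k + 1) ^ m := by
    intro col
    exact hm0 col m (Finset.single_le_sum (fun _ _ => Nat.zero_le _) (Finset.mem_univ col))
  have h2 : ∑ col, cnt (fun x => f x = col) m = (k + 1) ^ m := by
    rw [← length_words, ← List.toFinset_card_of_nodup (nodup_words (k + 1) m),
      Finset.card_eq_sum_card_fiberwise (f := f) (t := Finset.univ) (fun _ _ => Finset.mem_univ _)]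
    refine Finset.sum_congr rfl fun col _ => ?_
    apply cnt_eq_card
    intro x
    simp [mem_words]
  have hl : 0 < ℓ := Fin.pos (f [])
  have h3 : ∑ col : Fin ℓ, ℓ * cnt (fun x => f x = col) m < ∑ _col : Fin ℓ, (k + 1) ^ m := by
    apply Finset.sum_lt_sum_of_nonempty ⟨⟨0, hl⟩, Finset.mem_univ _⟩
    intro col _
    exact h1 col
  rw [← Finset.mul_sum, h2] at h3
  simp at h3

def startCond {T : Word (k + 1) → Prop} (hT : ComputablePred T) (ℓ : ℕ) (hℓ : 0 < ℓ)
    (hd : Dense ℓ T) : Cond (k + 1) T where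
  Lc := []
  y := []
  S := T
  d := ℓ
  hd := hℓ
  comp := hT
  dense := hd
  shape := Or.inl ⟨rfl, rfl⟩
  nodes := by
    intro ρ' h1 h2
    exact absurd (List.prefix_nil.1 h2) h1
  hT := by
    intro l hl u hu
    rw [List.nil_append, mem_leaves_cons] at hl
    obtain ⟨a, l2, hl2, rfl⟩ := hl
    simp only [leaves, List.mem_singleton] at hl2
    subst hl2
    simpa [sub] using hu

theorem solCode_eq {k : ℕ} (c₀ : Word k) (w : ℕ → XWord k) :
    solCode c₀ w = {m | (Nat.unpair m).2 = encode (sol c₀ w (Nat.unpair m).1)} := by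
  ext m
  constructor
  · rintro ⟨j, rfl⟩
    simp
  · intro h
    refine ⟨(Nat.unpair m).1, ?_⟩
    have h' : (Nat.unpair m).2 = encode (sol c₀ w (Nat.unpair m).1) := h
    rw [← h', Nat.pair_unpair]

/-- cone avoidance for the Ordered Variable Word theorem, nonempty alphabets -/
theorem cone_avoidance (k ℓ : ℕ) (f : List (Fin (k + 1)) → Fin ℓ) (hf : Computable f)
    (C : Set ℕ) (hC : ¬ ComputablePred (fun n => n ∈ C)) :
    ∃ (c₀ : Word (k + 1)) (w : ℕ → XWord (k + 1)), IsSolution f c₀ w ∧
      ¬ TuringReducible (chi C) (chi (solCode c₀ w)) := by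
  classical
  obtain ⟨Φ, hΦ, hmono, huse⟩ := functionals
  obtain ⟨col, hcol⟩ := exists_dense_color f
  have hl : 0 < ℓ := Fin.pos (f [])
  set CC : ℕ → ℕ := fun n => if n ∈ C then 1 else 0 with hCC
  have hCC' : ¬ Computable CC := by
    intro h
    apply hC
    refine computablePred_of_chi C CC h ?_
    intro n
    simp [chi, hCC]
  obtain ⟨W, hW1, hW2, hW3⟩ := generic
    (startCond (T := fun x => f x = col) (comp_eq hf (Computable.const col)) ℓ hl hcol)
    Φ hΦ hmono CC hCC'
  have hLV : ∀ i, LeftVar (W (i + 1)) := by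
    intro i
    obtain ⟨c, ws, h1, h2⟩ := hW1 (i + 1)
    rw [List.range_succ_eq_map, List.map_cons, List.cons.injEq] at h1
    apply h2
    rw [← h1.2]
    simp only [List.map_map, List.mem_map, List.mem_range, Function.comp]
    exact ⟨i, by omega, rfl⟩
  obtain ⟨c₀, ws, h1, _⟩ := hW1 0
  have hW0 : W 0 = c₀.map some := by
    simp at h1
    exact h1.1
  have hsol : sol c₀ (fun i => W (i + 1)) = W := by
    funext j
    cases j with
    | zero => simp [sol, hW0]
    | succ j => rfl
  refine ⟨c₀, fun i => W (i + 1), ⟨hLV, ⟨col, ?_⟩⟩, ?_⟩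
  · intro a
    apply hW2 a.length
    rw [List.range_succ_eq_map, List.map_cons, mem_leaves_cons]
    refine ⟨0, inst (fun i => W (i + 1)) a, ?_, ?_⟩
    · rw [List.map_map]
      exact inst_mem_leaves _ _
    · rw [hW0, sub_map_some]
  · intro hred
    rw [solCode_eq, hsol] at hred
    have h2 := hred.trans (chi_graph_le (fun i => encode (W i)))
    have h3 : Nat.RecursiveIn {((fun i => encode (W i) : ℕ → ℕ) : ℕ →. ℕ)} (CC : ℕ →. ℕ) := by
      rw [← RecursiveIn.iff_nat]
      refine RecursiveIn.of_eq h2 ?_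
      intro n
      simp [chi, hCC]
    obtain ⟨e, he⟩ := huse _ _ h3
    obtain ⟨n, hn⟩ := hW3 e
    obtain ⟨j, hj⟩ := he n
    apply hn j
    rw [List.map_map]
    exact hj

/-- the empty alphabet -/
theorem cone_avoidance_zero (ℓ : ℕ) (f : List (Fin 0) → Fin ℓ)
    (C : Set ℕ) (hC : ¬ ComputablePred (fun n => n ∈ C)) :
    ∃ (c₀ : Word 0) (w : ℕ → XWord 0), IsSolution f c₀ w ∧
      ¬ TuringReducible (chi C) (chi (solCode c₀ w)) := by
  classical
  refine ⟨[], fun _ => [none], ⟨fun _ => rfl, ⟨f [], ?_⟩⟩, ?_⟩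
  · intro a
    cases a with
    | nil => rfl
    | cons a q => exact a.elim0
  · intro hred
    apply hC
    set Y : ℕ → ℕ := fun j => encode (sol ([] : Word 0) (fun _ => [none]) j) with hY
    have hYc : Computable Y := by
      have h1 : Computable (fun j : ℕ => (Nat.casesOn j (encode (List.map some ([] : Word 0)))
          (fun _ => encode ([none] : XWord 0)) : ℕ)) :=
        Computable.nat_casesOn Computable.id (Computable.const _) (Computable.const _)
      refine h1.of_eq ?_
      intro j
      cases j <;> rfl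
    rw [solCode_eq] at hred
    have h2 := hred.trans (chi_graph_le Y)
    have h3 : Partrec (chi C) := by
      refine RecursiveIn.partrec_of_oracle (O := {(Y : ℕ →. ℕ)}) ?_ h2
      intro g hg
      rw [Set.mem_singleton_iff.1 hg]
      exact hYc.partrec
    refine computablePred_of_chi C (fun n => if n ∈ C then 1 else 0) ?_ ?_
    · refine Partrec.of_eq_tot h3 ?_
      intro n
      simp [chi]
    · intro n
      simp [chi]

theorem cone_avoidance_all (k ℓ : ℕ) (f : List (Fin k) → Fin ℓ) (hf : Computable f)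
    (C : Set ℕ) (hC : ¬ ComputablePred (fun n => n ∈ C)) :
    ∃ (c₀ : Word k) (w : ℕ → XWord k), IsSolution f c₀ w ∧
      ¬ TuringReducible (chi C) (chi (solCode c₀ w)) := by
  cases k with
  | zero => exact cone_avoidance_zero ℓ f C hC
  | succ k => exact cone_avoidance k ℓ f hf C hC

end OVW
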