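import Pool.Agent.H3.OVW.Comp

/-! MODULE POSCOMP (project MP_d1c297_lc): computability of `Pos`, and the negative step of the forcing.

`Pos d S F M ↔ ∀ χ ∈ subl (words k M), (∀ x ∈ χ, S x) → k^M ≤ d * χ.length → ∃ Z ∈ bigWords k M, good Z ∧ …` where for `Z` we test
`L = parse Z`, `ρ = L.dropLast`, `w = L.getLast`: `ρ ++ [w] = L`, `(L.flatten).length = M`, `Shape ρ` (decidable: first block has no `none`, the other
blocks start with `none`), all nodes of `ρ` in `S` (`∀ ρ' ∈ ρ.inits, ρ' ≠ [] → ∀ l ∈ leaves ρ', S l`), `LV w`, `F ρ`, `∀ l ∈ leaves L, l ∈ χ`.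
(If `ρ ++ [w]` comes from `Pos` then it has `Shape`, so `exists_parse` applies.)
`stepB`: `Bad M χ` := `χ ∈ subl (words k M) ∧ (∀ x ∈ χ, S x) ∧ k^M ≤ 4d² * χ.length ∧ ¬ ∃ (ρ, w) …`; for `M` with `k^M ≤ d * cnt S M` and `¬ Pos` let `χ_M` be
the first bad element of `subl (words k M)`; `S' x := k^|x| ≤ d * cnt S |x| ∧ ∃ i, (i-th element of subl (words k |x|) is bad) ∧ (no earlier one is bad) ∧
x ∈ it` (bounded quantifiers over `List.range`).  `cnt S' M = χ_M.length` on these levels. -/

namespace OVW

variable {k : ℕ}

theorem poscomp_of_prim {α : Type} [Primcodable α] {p : α → Prop} (h : PrimrecPred p) :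
    ComputablePred p := by
  obtain ⟨hd, hp⟩ := h
  exact ⟨hd, hp.to_comp⟩

theorem poscomp_le {α : Type} [Primcodable α] {f g : α → ℕ} (hf : Computable f)
    (hg : Computable g) : ComputablePred (fun a => f a ≤ g a) :=
  comp_comp (p := fun x : ℕ × ℕ => x.1 ≤ x.2) (poscomp_of_prim Primrec.nat_le)
    (f := fun a => (f a, g a)) (hf.pair hg)

theorem poscomp_eq {α β : Type} [Primcodable α] [Primcodable β] {f g : α → β}
    (hf : Computable f) (hg : Computable g) : ComputablePred (fun a => f a = g a) := by
  classical
  exact comp_comp (p := fun x : β × β => x.1 = x.2) (poscomp_of_prim Primrec.eq)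
    (f := fun a => (f a, g a)) (hf.pair hg)

theorem poscomp_congr {α : Type} [Primcodable α] {p q : α → Prop} (hp : ComputablePred p)
    (h : ∀ a, p a ↔ q a) : ComputablePred q := hp.of_eq h

theorem poscomp_mem {α β : Type} [Primcodable α] [Primcodable β] {f : α → β} {l : α → List β}
    (hf : Computable f) (hl : Computable l) : ComputablePred (fun a => f a ∈ l a) := by
  have h1 : ComputablePred (fun x : α × β => x.2 = f x.1) :=
    poscomp_eq Computable.snd (hf.comp Computable.fst)
  refine poscomp_congr (comp_exists_mem (p := fun a b => b = f a) h1 hl) (fun a => ?_)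
  constructor
  · rintro ⟨b, hb, rfl⟩
    exact hb
  · intro h
    exact ⟨_, h, rfl⟩

theorem poscomp_pow (k : ℕ) : Computable (fun M : ℕ => k ^ M) := by
  have h : Computable (fun M : ℕ => (Nat.rec 1 (fun _ r => r * k) M : ℕ)) := by
    refine Computable.nat_rec (f := fun M : ℕ => M) (g := fun _ => 1)
      (h := fun _ (p : ℕ × ℕ) => p.2 * k) Computable.id (Computable.const 1) ?_
    exact (Primrec.nat_mul.comp (Primrec.snd.comp Primrec.snd) (Primrec.const k)).to_comp.to₂
  refine h.of_eq (fun M => ?_)
  induction M with
  | zero => rfl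
  | succ M ih =>
    rw [pow_succ, ← ih]

theorem poscomp_cnt (S : Word k → Prop) (hS : ComputablePred S) :
    Computable (fun M : ℕ => cnt S M) := by
  classical
  have h := comp_filter_length (α := ℕ) (β := Word k) (p := fun _ x => S x)
    (comp_comp hS Computable.snd) (l := fun M => words k M) (primrec_words k).to_comp
  refine h.of_eq (fun M => ?_)
  unfold cnt
  congr

theorem dense_level_comp (S : Word k → Prop) (hS : ComputablePred S) (d : ℕ) :
    ComputablePred (fun M : ℕ => k ^ M ≤ d * cnt S M) := by
  refine poscomp_le (poscomp_pow k) ?_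
  exact Primrec.nat_mul.to_comp.comp (Computable.const d) (poscomp_cnt S hS)

/-- decidable version of `Shape` -/
def PShape (L : List (XWord k)) : Prop :=
  L ≠ [] ∧ (∀ W ∈ L.take 1, ∀ o ∈ W, o ≠ none) ∧ ∀ w ∈ L.drop 1, w.head? = some none

theorem poscomp_map_some (W : XWord k) (h : ∀ o ∈ W, o ≠ none) :
    ∃ c : Word k, W = c.map some := by
  induction W with
  | nil => exact ⟨[], rfl⟩
  | cons o W ih =>
    obtain ⟨c, hc⟩ := ih (fun o' ho' => h o' (List.mem_cons_of_mem _ ho'))
    have ho := h o (List.mem_cons_self)
    obtain ⟨a, ha⟩ := Option.ne_none_iff_exists'.1 ho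
    exact ⟨a :: c, by rw [ha, hc]; rfl⟩

theorem poscomp_shape (L : List (XWord k)) : PShape L ↔ Shape L := by
  constructor
  · rintro ⟨h1, h2, h3⟩
    obtain ⟨W, ws, rfl⟩ := List.exists_cons_of_ne_nil h1
    obtain ⟨c, hc⟩ := poscomp_map_some W (h2 W (by simp))
    refine ⟨c, ws, by rw [hc], fun w hw => ?_⟩
    exact h3 w (by simpa using hw)
  · rintro ⟨c, ws, rfl, h⟩
    refine ⟨by simp, ?_, ?_⟩
    · intro W hW o ho
      simp only [List.take_succ_cons, List.take_zero, List.mem_singleton] at hW
      subst hW
      obtain ⟨a, _, rfl⟩ := List.mem_map.1 ho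
      simp
    · intro w hw
      simp only [List.drop_succ_cons, List.drop_zero] at hw
      exact h w hw

theorem poscomp_take {α β : Type} [Primcodable α] [Primcodable β] {n : α → ℕ} {l : α → List β}
    (hn : Computable n) (hl : Computable l) : Computable (fun a => (l a).take (n a)) :=
  Primrec.list_take.to_comp.comp hn hl

theorem poscomp_drop {α β : Type} [Primcodable α] [Primcodable β] {n : α → ℕ} {l : α → List β}
    (hn : Computable n) (hl : Computable l) : Computable (fun a => (l a).drop (n a)) :=
  Primrec.list_drop.to_comp.comp hn hl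

theorem poscomp_pshape : ComputablePred (PShape : List (XWord k) → Prop) := by
  unfold PShape
  refine comp_and (comp_not (poscomp_eq Computable.id (Computable.const []))) (comp_and ?_ ?_)
  · refine comp_forall_mem (α := List (XWord k)) (β := XWord k)
      (p := fun _ W => ∀ o ∈ W, o ≠ none) ?_
      (l := fun L : List (XWord k) => L.take 1) (poscomp_take (Computable.const 1) Computable.id)
    refine comp_forall_mem (α := List (XWord k) × XWord k) (β := Option (Fin k))
      (p := fun _ o => o ≠ none) ?_ (l := fun x => x.2) Computable.snd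
    exact comp_not (poscomp_eq Computable.snd (Computable.const none))
  · refine comp_forall_mem (α := List (XWord k)) (β := XWord k)
      (p := fun _ W => W.head? = some none) ?_
      (l := fun L : List (XWord k) => L.drop 1) (poscomp_drop (Computable.const 1) Computable.id)
    exact poscomp_eq ((Primrec.list_head?.to_comp).comp Computable.snd) (Computable.const _)

/-- existence of a tree as in `Pos` -/
def PEx (S : Word k → Prop) (F : List (XWord k) → Prop) (M : ℕ) (χ : List (Word k)) : Prop :=
  ∃ (ρ : List (XWord k)) (w : XWord k), (ρ ++ [w]).flatten.length = M ∧ STree S ρ ∧ LV w ∧ F ρ ∧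
      ∀ l ∈ leaves (ρ ++ [w]), l ∈ χ

/-- the test for one list of blocks -/
def PTest (S : Word k → Prop) (F : List (XWord k) → Prop) (M : ℕ) (χ : List (Word k))
    (L : List (XWord k)) : Prop :=
  L ≠ [] ∧ L.flatten.length = M ∧ PShape (L.take (L.length - 1)) ∧
    (∀ i ∈ List.range L.length, L.take i ≠ [] → ∀ l ∈ leaves (L.take i), S l) ∧
    (∀ w ∈ L.drop (L.length - 1), w.head? = some none) ∧ F (L.take (L.length - 1)) ∧
    ∀ l ∈ leaves L, l ∈ χ

theorem poscomp_test (S : Word k → Prop) (F : List (XWord k) → Prop) (M : ℕ)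
    (χ : List (Word k)) :
    (∃ Z ∈ bigWords k M, PTest S F M χ (parse Z)) ↔ PEx S F M χ := by
  constructor
  · rintro ⟨Z, _, h1, h2, h3, h4, h5, h6, h7⟩
    generalize hL : parse Z = L at h1 h2 h3 h4 h5 h6 h7
    have hlen : 0 < L.length := List.length_pos_iff.2 h1
    have hdl : (L.drop (L.length - 1)).length = 1 := by
      rw [List.length_drop]; omega
    obtain ⟨w, hw⟩ := List.length_eq_one_iff.1 hdl
    have hLw : L.take (L.length - 1) ++ [w] = L := by
      rw [← hw, List.take_append_drop]
    refine ⟨L.take (L.length - 1), w, ?_, ⟨(poscomp_shape _).1 h3, ?_⟩, ?_, h6, ?_⟩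
    · rw [hLw]; exact h2
    · intro ρ' hρ' hpre l hl
      have h8 : ρ' = L.take ρ'.length := by
        have h9 := List.prefix_iff_eq_take.1 hpre
        have h10 : ρ'.length ≤ L.length - 1 := by
          have := hpre.length_le
          rw [List.length_take] at this
          omega
        rw [List.take_take] at h9
        rw [min_eq_left h10] at h9
        exact h9
      have h11 : ρ'.length ∈ List.range L.length := by
        rw [List.mem_range]
        have := hpre.length_le
        rw [List.length_take] at this
        omega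
      have h12 := h4 _ h11
      rw [← h8] at h12
      exact h12 hρ' l hl
    · exact h5 w (by rw [hw]; exact List.mem_singleton.2 rfl)
    · rw [hLw]; exact h7
  · rintro ⟨ρ, w, h1, ⟨h2, h3⟩, h4, h5, h6⟩
    have hS : Shape (ρ ++ [w]) := by
      obtain ⟨c, ws, rfl, hws⟩ := h2
      refine ⟨c, ws ++ [w], by simp, ?_⟩
      intro w' hw'
      rcases List.mem_append.1 hw' with h | h
      · exact hws w' h
      · rw [List.mem_singleton.1 h]; exact h4
    obtain ⟨Z, hZ, hp⟩ := exists_parse hS
    rw [h1] at hZ
    have hlen : (ρ ++ [w]).length - 1 = ρ.length := by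
      rw [List.length_append]; simp
    have htake : (ρ ++ [w]).take ρ.length = ρ := by simp
    refine ⟨Z, hZ, ?_⟩
    rw [hp]
    refine ⟨by simp, h1, ?_, ?_, ?_, ?_, h6⟩
    · rw [hlen, htake]
      exact (poscomp_shape _).2 h2
    · intro i hi hne l hl
      rw [List.mem_range, List.length_append, List.length_singleton] at hi
      have hi' : i ≤ ρ.length := by omega
      have h7 : (ρ ++ [w]).take i = ρ.take i := List.take_append_of_le_length hi'
      rw [h7] at hne hl
      exact h3 _ hne (List.take_prefix i ρ) l hl
    · rw [hlen]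
      intro w' hw'
      simp only [List.drop_left, List.mem_singleton] at hw'
      rw [hw']
      exact h4
    · rw [hlen, htake]
      exact h5

theorem poscomp_ex (S : Word k → Prop) (hS : ComputablePred S)
    (F : ℕ → List (XWord k) → Prop)
    (hF : ComputablePred (fun p : ℕ × List (XWord k) => F p.1 p.2)) :
    ComputablePred (fun p : ℕ × ℕ × List (Word k) => PEx S (F p.1) p.2.1 p.2.2) := by
  refine poscomp_congr ?_ (fun p => poscomp_test S (F p.1) p.2.1 p.2.2)
  refine comp_exists_mem (α := ℕ × ℕ × List (Word k)) (β := List (Option (Option (Fin k))))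
    (p := fun p Z => PTest S (F p.1) p.2.1 p.2.2 (parse Z)) ?_
    (l := fun p => bigWords k p.2.1)
    ((primrec_bigWords k).to_comp.comp (Computable.fst.comp Computable.snd))
  have hg : Computable (fun x : (ℕ × ℕ × List (Word k)) × List (Option (Option (Fin k))) =>
      (x.1, parse x.2)) :=
    Computable.fst.pair (primrec_parse.to_comp.comp Computable.snd)
  refine comp_comp (β := (ℕ × ℕ × List (Word k)) × List (XWord k))
    (p := fun x => PTest S (F x.1.1) x.1.2.1 x.1.2.2 x.2) ?_ hg
  have hL : Computable (fun x : (ℕ × ℕ × List (Word k)) × List (XWord k) => x.2) :=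
    Computable.snd
  have hlen1 : Computable (fun x : (ℕ × ℕ × List (Word k)) × List (XWord k) =>
      x.2.length - 1) :=
    (Primrec.nat_sub.to_comp).comp (Computable.list_length.comp hL) (Computable.const 1)
  have htk : Computable (fun x : (ℕ × ℕ × List (Word k)) × List (XWord k) =>
      x.2.take (x.2.length - 1)) := poscomp_take hlen1 hL
  unfold PTest
  refine comp_and (comp_not (poscomp_eq hL (Computable.const []))) (comp_and ?_ (comp_and ?_
    (comp_and ?_ (comp_and ?_ (comp_and ?_ ?_)))))
  · exact poscomp_eq (Computable.list_length.comp ((Primrec.list_flatten.to_comp).comp hL))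
      (Computable.fst.comp (Computable.snd.comp Computable.fst))
  · exact comp_comp poscomp_pshape htk
  · refine comp_forall_mem (α := (ℕ × ℕ × List (Word k)) × List (XWord k)) (β := ℕ)
      (p := fun x i => x.2.take i ≠ [] → ∀ l ∈ leaves (x.2.take i), S l) ?_
      (l := fun x => List.range x.2.length)
      ((Primrec.list_range.to_comp).comp (Computable.list_length.comp hL))
    have htk2 : Computable (fun x : ((ℕ × ℕ × List (Word k)) × List (XWord k)) × ℕ =>
        x.1.2.take x.2) := poscomp_take Computable.snd (Computable.snd.comp Computable.fst)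
    refine comp_imp (comp_not (poscomp_eq htk2 (Computable.const []))) ?_
    refine comp_forall_mem (α := ((ℕ × ℕ × List (Word k)) × List (XWord k)) × ℕ)
      (β := Word k) (p := fun _ l => S l) ?_ (l := fun x => leaves (x.1.2.take x.2))
      (primrec_leaves.to_comp.comp htk2)
    exact comp_comp hS Computable.snd
  · refine comp_forall_mem (α := (ℕ × ℕ × List (Word k)) × List (XWord k)) (β := XWord k)
      (p := fun _ W => W.head? = some none) ?_
      (l := fun x => x.2.drop (x.2.length - 1)) (poscomp_drop hlen1 hL)
    exact poscomp_eq ((Primrec.list_head?.to_comp).comp Computable.snd) (Computable.const _)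
  · exact comp_comp hF ((Computable.fst.comp Computable.fst).pair htk)
  · refine comp_forall_mem (α := (ℕ × ℕ × List (Word k)) × List (XWord k)) (β := Word k)
      (p := fun x l => l ∈ x.1.2.2) ?_
      (l := fun x => leaves x.2) (primrec_leaves.to_comp.comp hL)
    exact poscomp_mem Computable.snd
      (Computable.snd.comp (Computable.snd.comp (Computable.fst.comp Computable.fst)))

theorem poscomp_dens (S : Word k → Prop) (hS : ComputablePred S) (d : ℕ) :
    ComputablePred (fun p : ℕ × List (Word k) =>
      (∀ x ∈ p.2, S x) ∧ k ^ p.1 ≤ d * p.2.length) := by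
  refine comp_and ?_ ?_
  · refine comp_forall_mem (α := ℕ × List (Word k)) (β := Word k) (p := fun _ l => S l) ?_
      (l := fun x => x.2) Computable.snd
    exact comp_comp hS Computable.snd
  · refine poscomp_le ((poscomp_pow k).comp Computable.fst) ?_
    exact Primrec.nat_mul.to_comp.comp (Computable.const d)
      (Computable.list_length.comp Computable.snd)

theorem pos_comp (S : Word k → Prop) (hS : ComputablePred S) (d : ℕ)
    (F : ℕ → List (XWord k) → Prop)
    (hF : ComputablePred (fun p : ℕ × List (XWord k) => F p.1 p.2)) :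
    ComputablePred (fun p : ℕ × ℕ => Pos d S (F p.1) p.2) := by
  have h : ComputablePred (fun p : ℕ × ℕ => ∀ χ ∈ subl (words k p.2),
      ((∀ x ∈ χ, S x) ∧ k ^ p.2 ≤ d * χ.length) → PEx S (F p.1) p.2 χ) := by
    refine comp_forall_mem (α := ℕ × ℕ) (β := List (Word k))
      (p := fun p χ => ((∀ x ∈ χ, S x) ∧ k ^ p.2 ≤ d * χ.length) → PEx S (F p.1) p.2 χ) ?_
      (l := fun p => subl (words k p.2))
      (primrec_subl.to_comp.comp ((primrec_words k).to_comp.comp Computable.snd))
    refine comp_imp ?_ ?_
    · exact comp_comp (poscomp_dens S hS d)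
        ((Computable.snd.comp Computable.fst).pair Computable.snd)
    · exact comp_comp (poscomp_ex S hS F hF)
        ((Computable.fst.comp Computable.fst).pair
          ((Computable.snd.comp Computable.fst).pair Computable.snd))
  refine poscomp_congr h (fun p => ?_)
  constructor
  · intro h χ h1 h2 h3
    exact h χ (mem_subl.2 h1) ⟨h2, h3⟩
  · intro h χ h1 h2
    exact h χ (mem_subl.1 h1) h2.1 h2.2

/-- counterexamples to `Pos` -/
def PBad (S : Word k → Prop) (d : ℕ) (F : List (XWord k) → Prop) (M : ℕ)
    (χ : List (Word k)) : Prop :=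
  ((∀ x ∈ χ, S x) ∧ k ^ M ≤ d * χ.length) ∧ ¬ PEx S F M χ

theorem poscomp_bad (S : Word k → Prop) (hS : ComputablePred S) (d : ℕ)
    (F : List (XWord k) → Prop) (hF : ComputablePred F) :
    ComputablePred (fun p : ℕ × List (Word k) => PBad S d F p.1 p.2) := by
  unfold PBad
  refine comp_and (poscomp_dens S hS d) (comp_not ?_)
  have h := poscomp_ex S hS (fun _ => F) (comp_comp hF Computable.snd)
  exact comp_comp h (f := fun p : ℕ × List (Word k) => ((0 : ℕ), p.1, p.2))
    ((Computable.const 0).pair (Computable.fst.pair Computable.snd))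

/-- the `i`-th set of words of length `M` -/
def psub (k M i : ℕ) : List (Word k) := ((subl (words k M))[i]?).getD []

theorem poscomp_psub (k : ℕ) : Computable (fun p : ℕ × ℕ => psub k p.1 p.2) := by
  unfold psub
  refine Computable.option_getD ?_ (Computable.const [])
  exact Computable.list_getElem?.comp
    (primrec_subl.to_comp.comp ((primrec_words k).to_comp.comp Computable.fst)) Computable.snd

/-- the first bad set -/
def PS (S : Word k → Prop) (d e : ℕ) (F : List (XWord k) → Prop) (x : Word k) : Prop :=
  k ^ x.length ≤ d * cnt S x.length ∧ ∃ i ∈ List.range (subl (words k x.length)).length,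
    PBad S e F x.length (psub k x.length i) ∧
    (∀ j ∈ List.range i, ¬ PBad S e F x.length (psub k x.length j)) ∧
    x ∈ psub k x.length i

theorem poscomp_psub1 (k : ℕ) : Computable (fun x : Word k × ℕ => psub k x.1.length x.2) := by
  have h : Computable (fun x : Word k × ℕ => (x.1.length, x.2)) :=
    (Computable.list_length.comp Computable.fst).pair Computable.snd
  exact (poscomp_psub k).comp (g := fun x : Word k × ℕ => (x.1.length, x.2)) h

theorem poscomp_bad1 (S : Word k → Prop) (hS : ComputablePred S) (e : ℕ)
    (F : List (XWord k) → Prop) (hF : ComputablePred F) :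
    ComputablePred (fun x : Word k × ℕ => PBad S e F x.1.length (psub k x.1.length x.2)) := by
  have h : Computable (fun x : Word k × ℕ => (x.1.length, psub k x.1.length x.2)) :=
    (Computable.list_length.comp Computable.fst).pair (poscomp_psub1 k)
  exact comp_comp (p := fun p : ℕ × List (Word k) => PBad S e F p.1 p.2)
    (poscomp_bad S hS e F hF) (f := fun x : Word k × ℕ => (x.1.length, psub k x.1.length x.2)) h

theorem poscomp_bad2 (S : Word k → Prop) (hS : ComputablePred S) (e : ℕ)
    (F : List (XWord k) → Prop) (hF : ComputablePred F) :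
    ComputablePred (fun x : Word k × ℕ =>
      ∀ j ∈ List.range x.2, ¬ PBad S e F x.1.length (psub k x.1.length j)) := by
  have h1 : Computable (fun x : (Word k × ℕ) × ℕ => (x.1.1, x.2)) :=
    (Computable.fst.comp Computable.fst).pair Computable.snd
  have h2 : ComputablePred (fun x : (Word k × ℕ) × ℕ =>
      ¬ PBad S e F x.1.1.length (psub k x.1.1.length x.2)) :=
    comp_not (comp_comp (p := fun x : Word k × ℕ => PBad S e F x.1.length (psub k x.1.length x.2))
      (poscomp_bad1 S hS e F hF) (f := fun x : (Word k × ℕ) × ℕ => (x.1.1, x.2)) h1)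
  have h3 : Computable (fun x : Word k × ℕ => List.range x.2) :=
    (Primrec.list_range.to_comp).comp Computable.snd
  exact comp_forall_mem (α := Word k × ℕ) (β := ℕ)
    (p := fun x j => ¬ PBad S e F x.1.length (psub k x.1.length j)) h2
    (l := fun x => List.range x.2) h3

theorem poscomp_range (k : ℕ) :
    Computable (fun x : Word k => List.range (subl (words k x.length)).length) := by
  have h1 : Computable (fun x : Word k => words k x.length) :=
    (primrec_words k).to_comp.comp Computable.list_length
  have h2 : Computable (fun x : Word k => subl (words k x.length)) :=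
    primrec_subl.to_comp.comp h1
  have h3 : Computable (fun x : Word k => (subl (words k x.length)).length) :=
    Computable.list_length.comp h2
  exact (Primrec.list_range.to_comp).comp h3

theorem poscomp_ps (S : Word k → Prop) (hS : ComputablePred S) (d e : ℕ)
    (F : List (XWord k) → Prop) (hF : ComputablePred F) : ComputablePred (PS S d e F) := by
  have h1 : ComputablePred (fun x : Word k × ℕ => PBad S e F x.1.length (psub k x.1.length x.2) ∧
      (∀ j ∈ List.range x.2, ¬ PBad S e F x.1.length (psub k x.1.length j)) ∧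
      x.1 ∈ psub k x.1.length x.2) :=
    comp_and (poscomp_bad1 S hS e F hF) (comp_and (poscomp_bad2 S hS e F hF)
      (poscomp_mem Computable.fst (poscomp_psub1 k)))
  have h2 : ComputablePred (fun x : Word k => k ^ x.length ≤ d * cnt S x.length) :=
    comp_comp (dense_level_comp S hS d) Computable.list_length
  exact comp_and h2 (comp_exists_mem (α := Word k) (β := ℕ)
    (p := fun x i => PBad S e F x.length (psub k x.length i) ∧
      (∀ j ∈ List.range i, ¬ PBad S e F x.length (psub k x.length j)) ∧
      x ∈ psub k x.length i) h1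
    (l := fun x => List.range (subl (words k x.length)).length) (poscomp_range k))

theorem poscomp_leaves_ne (hk : 0 < k) (L : List (XWord k)) : ∃ l, l ∈ leaves L := by
  induction L with
  | nil => exact ⟨[], by simp [leaves]⟩
  | cons W L ih =>
    obtain ⟨l, hl⟩ := ih
    exact ⟨_, mem_leaves_cons.2 ⟨⟨0, hk⟩, l, hl, rfl⟩⟩

theorem stepB {d : ℕ} (hk : 0 < k) (hd : 0 < d) (S : Word k → Prop) (hS : ComputablePred S)
    (F : List (XWord k) → Prop) (hF : ComputablePred F)
    (hneg : ∀ m0, ∃ M, m0 ≤ M ∧ k ^ M ≤ d * cnt S M ∧ ¬ Pos (4 * d ^ 2) S F M) :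
    ∃ S' : Word k → Prop, ComputablePred S' ∧ Dense (4 * d ^ 2) S' ∧ (∀ x, S' x → S x) ∧
      ∀ (ρ : List (XWord k)) (w : XWord k), STree S ρ → F ρ → LV w →
        ¬ ∀ l ∈ leaves (ρ ++ [w]), S' l := by
  classical
  refine ⟨PS S d (4 * d ^ 2) F, poscomp_ps S hS d _ F hF, ?_, ?_, ?_⟩
  · intro m0
    obtain ⟨M, hM, hdM, hpos⟩ := hneg m0
    refine ⟨M, hM, ?_⟩
    have h1 : ∃ i, i < (subl (words k M)).length ∧ PBad S (4 * d ^ 2) F M (psub k M i) := by
      unfold Pos at hpos
      push Not at hpos
      obtain ⟨χ, h1, h2, h3, h4⟩ := hpos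
      obtain ⟨i, hi, hχ⟩ := List.mem_iff_getElem.1 (mem_subl.2 h1)
      have h5 : psub k M i = χ := by
        unfold psub
        rw [List.getElem?_eq_getElem hi, hχ, Option.getD_some]
      refine ⟨i, hi, ?_⟩
      rw [h5]
      refine ⟨⟨h2, h3⟩, ?_⟩
      rintro ⟨ρ, w, e1, e2, e3, e4, e5⟩
      obtain ⟨l, hl1, hl2⟩ := h4 ρ w e1 e2 e3 e4
      exact hl2 (e5 l hl1)
    obtain ⟨i0, hi0, hmin⟩ : ∃ i0, (i0 < (subl (words k M)).length ∧
        PBad S (4 * d ^ 2) F M (psub k M i0)) ∧
        ∀ j, j < i0 → ¬ PBad S (4 * d ^ 2) F M (psub k M j) := by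
      refine ⟨Nat.find h1, Nat.find_spec h1, ?_⟩
      intro j hj hb
      exact Nat.find_min h1 hj ⟨lt_trans hj (Nat.find_spec h1).1, hb⟩
    have hsub : (psub k M i0).Sublist (words k M) := by
      have hlt : i0 < (subl (words k M)).length := hi0.1
      have h6 : psub k M i0 = (subl (words k M))[i0]'hlt := by
        unfold psub
        rw [List.getElem?_eq_getElem hlt, Option.getD_some]
      rw [h6]
      exact mem_subl.1 (List.getElem_mem hlt)
    have hS' : ∀ x, x.length = M → (x ∈ psub k M i0 → PS S d (4 * d ^ 2) F x) := by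
      intro x hx hxm
      subst hx
      refine ⟨hdM, i0, List.mem_range.2 hi0.1, hi0.2, ?_, hxm⟩
      intro j hj
      exact hmin j (List.mem_range.1 hj)
    have hcnt : (psub k M i0).length ≤ cnt (PS S d (4 * d ^ 2) F) M := by
      unfold cnt
      have h7 : (psub k M i0).Sublist
          ((words k M).filter (fun x => decide (PS S d (4 * d ^ 2) F x))) := by
        have h8 : (psub k M i0).filter (fun x => decide (PS S d (4 * d ^ 2) F x)) =
            psub k M i0 := by
          rw [List.filter_eq_self]
          intro x hx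
          have hxl : x.length = M := mem_words.1 (hsub.subset hx)
          exact decide_eq_true (hS' x hxl hx)
        rw [← h8]
        exact hsub.filter _
      exact h7.length_le
    calc k ^ M ≤ 4 * d ^ 2 * (psub k M i0).length := hi0.2.1.2
      _ ≤ 4 * d ^ 2 * cnt (PS S d (4 * d ^ 2) F) M := Nat.mul_le_mul_left _ hcnt
  · rintro x ⟨_, i, _, hb, _, hx⟩
    exact hb.1.1 x hx
  · intro ρ w hρ hF' hw hall
    obtain ⟨l0, hl0⟩ := poscomp_leaves_ne hk (ρ ++ [w])
    have hlen := fun l (hl : l ∈ leaves (ρ ++ [w])) => length_of_mem_leaves hl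
    obtain ⟨_, i, hi, hb, hmin, _⟩ := hall l0 hl0
    rw [hlen l0 hl0] at hi hb hmin
    refine hb.2 ⟨ρ, w, rfl, hρ, hw, hF', ?_⟩
    intro l hl
    obtain ⟨_, i', hi', hb', hmin', hx'⟩ := hall l hl
    rw [hlen l hl] at hi' hb' hmin' hx'
    have : i' = i := by
      rcases lt_trichotomy i' i with h | h | h
      · exact absurd hb' (hmin i' (List.mem_range.2 h))
      · exact h
      · exact absurd hb (hmin' i (List.mem_range.2 h))
    rw [this] at hx'
    exact hx'

/-- restriction by a fixed list of prefixes -/
theorem restrict_comp (S : Word k → Prop) (hS : ComputablePred S) (L : List (Word k)) :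
    ComputablePred (fun u : Word k => ∀ l ∈ L, S (l ++ u)) := by
  refine comp_forall_mem (α := Word k) (β := Word k) (p := fun u l => S (l ++ u)) ?_
    (l := fun _ => L) (Computable.const L)
  exact comp_comp hS (Computable.list_append.comp Computable.snd Computable.fst)

end OVW
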