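import Pool.Agent.H3.OVW.Words

/-! MODULE STEPA (project MP_d1c297_lc): the positive answer gives an extension.

For each of the infinitely many `m` of `hinf` and `u ∈ words k (m - M)` let `χ_u` = the words `q` of length `M` with `S q ∧ S (q ++ u)` (a sublist
of `words k M`).  `∑_u |χ_u| ≥ k^m/(2d²)` (`cnt_split`), so at least `k^(m-M)/(4d²)` of the `u` have `k^M ≤ 4d² |χ_u|`; for these `Pos` gives `(ρ, w)` with
`leaves (ρ ++ [w]) ⊆ χ_u`.  The pairs `(ρ, w)` range over a finite set of size `T` (`finite_shape`, `ρ ++ [w]` has shape and length `M`), so for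
each such `m` one pair serves `≥ k^(m-M)/(4d²T)` of the `u`, and one pair serves infinitely many `m` (infinite pigeonhole).  `d' = 4 d² T`. -/

namespace OVW

open scoped BigOperators

theorem stepA_shape {k : ℕ} {S : Word k → Prop} {ρ : List (XWord k)} {w : XWord k}
    (h : STree S ρ) (hw : LV w) : Shape (ρ ++ [w]) := by
  obtain ⟨c, ws, rfl, hws⟩ := h.1
  refine ⟨c, ws ++ [w], rfl, ?_⟩
  intro w' hw'
  rcases List.mem_append.1 hw' with h1 | h1
  · exact hws w' h1
  · rw [List.mem_singleton.1 h1]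
    exact hw

open Classical in
theorem stepA {k d M : ℕ} (hk : 0 < k) (hd : 0 < d) (S : Word k → Prop)
    (F : List (XWord k) → Prop)
    (hinf : ∀ m0, ∃ m, m0 ≤ m ∧ M ≤ m ∧ k ^ m ≤ 2 * d ^ 2 * cnt (fun x => S (x.take M) ∧ S x) m)
    (hpos : Pos (4 * d ^ 2) S F M) :
    ∃ (ρ : List (XWord k)) (w : XWord k) (d' : ℕ), 0 < d' ∧ STree S ρ ∧ LV w ∧ F ρ ∧
      Dense d' (fun u => ∀ l ∈ leaves (ρ ++ [w]), S (l ++ u)) := by
  by_contra hcon
  push Not at hcon
  set TT : Finset (List (XWord k)) := (finite_shape k M).toFinset with hTT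
  have hmemT : ∀ L, L ∈ TT ↔ Shape L ∧ L.flatten.length = M := by
    intro L
    rw [hTT, Set.Finite.mem_toFinset]
    exact Iff.rfl
  set T : ℕ := TT.card with hT
  set d' : ℕ := 4 * d ^ 2 * (T + 1) with hd'
  have hd'0 : 0 < d' := by positivity
  set Dl : List (XWord k) → Word k → Prop := fun L u => ∀ l ∈ leaves L, S (l ++ u) with hDl
  set Good : List (XWord k) → Prop := fun L => ∃ ρ w, L = ρ ++ [w] ∧ STree S ρ ∧ LV w ∧ F ρ
    with hGood
  have hb : ∀ L : List (XWord k), ∃ b : ℕ, Good L → ∀ m, b ≤ m → d' * cnt (Dl L) m < k ^ m := by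
    intro L
    by_cases hL : Good L
    · obtain ⟨ρ, w, rfl, h1, h2, h3⟩ := hL
      have h4 := hcon ρ w d' hd'0 h1 h2 h3
      unfold Dense at h4
      push Not at h4
      obtain ⟨b, hb⟩ := h4
      exact ⟨b, fun _ m hm => hb m hm⟩
    · exact ⟨0, fun h => absurd h hL⟩
  choose b hb using hb
  obtain ⟨m, hm0, hMm, hm⟩ := hinf (TT.sup b + M)
  have hbm : ∀ L ∈ TT, b L ≤ m - M := by
    intro L hL
    have := Finset.le_sup (f := b) hL
    omega
  set W : Finset (Word k) := (words k (m - M)).toFinset with hW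
  have hWcard : W.card = k ^ (m - M) := by
    rw [hW, List.toFinset_card_of_nodup (nodup_words k _), length_words]
  set a : Word k → ℕ := fun u => cnt (fun q => S q ∧ S (q ++ u)) M with ha
  have hsplit : cnt (fun x => S (x.take M) ∧ S x) m = ∑ u ∈ W, a u := by
    rw [cnt_split _ hMm, hW, List.sum_toFinset _ (nodup_words k _)]
    congr 1
    apply List.map_congr_left
    intro u _
    have h1 : ∀ x : Word k, x.length = M →
        ((S ((x ++ u).take M) ∧ S (x ++ u)) ↔ (S x ∧ S (x ++ u))) := by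
      intro x hx
      rw [← hx, List.take_left]
    exact le_antisymm (cnt_mono fun x hx => (h1 x hx).1) (cnt_mono fun x hx => (h1 x hx).2)
  rw [hsplit] at hm
  set G : Finset (Word k) := W.filter (fun u => k ^ M ≤ 4 * d ^ 2 * a u) with hG
  have hkm : k ^ m = k ^ (m - M) * k ^ M := by
    rw [← pow_add]
    congr 1
    omega
  have hkM : 0 < k ^ M := by positivity
  have hkN : 0 < k ^ (m - M) := by positivity
  -- many good `u`
  have hGcard : k ^ (m - M) ≤ 4 * d ^ 2 * G.card := by
    have h1 : 4 * d ^ 2 * ∑ u ∈ W, a u ≤ ∑ u ∈ W, ((if k ^ M ≤ 4 * d ^ 2 * a u then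
        4 * d ^ 2 * k ^ M else 0) + k ^ M) := by
      rw [Finset.mul_sum]
      apply Finset.sum_le_sum
      intro u _
      by_cases hu : k ^ M ≤ 4 * d ^ 2 * a u
      · rw [if_pos hu]
        exact (Nat.mul_le_mul_left _ (cnt_le _ _)).trans (Nat.le_add_right _ _)
      · rw [if_neg hu, zero_add]
        exact (not_le.1 hu).le
    rw [Finset.sum_add_distrib, Finset.sum_const, smul_eq_mul, hWcard, ← Finset.sum_filter,
      Finset.sum_const, smul_eq_mul] at h1
    have h2 : 2 * (k ^ (m - M) * k ^ M) ≤ 4 * d ^ 2 * ∑ u ∈ W, a u := by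
      rw [← hkm]
      calc 2 * k ^ m ≤ 2 * (2 * d ^ 2 * ∑ u ∈ W, a u) := Nat.mul_le_mul_left _ hm
        _ = 4 * d ^ 2 * ∑ u ∈ W, a u := by ring
    have h3 : k ^ (m - M) * k ^ M ≤ (4 * d ^ 2 * G.card) * k ^ M := by
      have h4 := h2.trans h1
      have h5 : G.card * (4 * d ^ 2 * k ^ M) = (4 * d ^ 2 * G.card) * k ^ M := by ring
      rw [← hG, h5] at h4
      omega
    exact Nat.le_of_mul_le_mul_right h3 hkM
  -- the good `u` are served by the good lists
  have hsub : G ⊆ (TT.filter Good).biUnion (fun L => W.filter (Dl L)) := by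
    intro u hu
    rw [hG, Finset.mem_filter] at hu
    obtain ⟨huW, hu⟩ := hu
    have h1 : a u = ((words k M).filter (fun x => decide (S x ∧ S (x ++ u)))).length := by
      show cnt (fun q => S q ∧ S (q ++ u)) M = _
      unfold cnt
      apply congrArg List.length
      apply List.filter_congr
      intro x _
      by_cases h : S x ∧ S (x ++ u)
      · simp [h]
      · simp [h]
    obtain ⟨ρ, w, hlen, hst, hlv, hF, hl⟩ := hpos
      ((words k M).filter (fun x => decide (S x ∧ S (x ++ u)))) List.filter_sublist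
      (fun x hx => (of_decide_eq_true (List.mem_filter.1 hx).2).1)
      (by rw [← h1]; exact hu)
    rw [Finset.mem_biUnion]
    refine ⟨ρ ++ [w], ?_, ?_⟩
    · rw [Finset.mem_filter, hmemT]
      exact ⟨⟨stepA_shape hst hlv, hlen⟩, ρ, w, rfl, hst, hlv, hF⟩
    · rw [Finset.mem_filter]
      exact ⟨huW, fun l hl' => (of_decide_eq_true (List.mem_filter.1 (hl l hl')).2).2⟩
  have hcard : d' * G.card ≤ T * k ^ (m - M) := by
    calc d' * G.card ≤ d' * ∑ L ∈ TT.filter Good, (W.filter (Dl L)).card :=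
          Nat.mul_le_mul_left _ ((Finset.card_le_card hsub).trans Finset.card_biUnion_le)
      _ = ∑ L ∈ TT.filter Good, d' * (W.filter (Dl L)).card := Finset.mul_sum _ _ _
      _ ≤ ∑ L ∈ TT.filter Good, k ^ (m - M) := by
          apply Finset.sum_le_sum
          intro L hL
          obtain ⟨hL1, hL2⟩ := Finset.mem_filter.1 hL
          have h1 : cnt (Dl L) (m - M) = (W.filter (Dl L)).card := by
            apply cnt_eq_card
            intro x
            rw [Finset.mem_filter, hW, List.mem_toFinset, mem_words]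
          rw [← h1]
          exact (hb L hL2 (m - M) (hbm L hL1)).le
      _ ≤ ∑ L ∈ TT, k ^ (m - M) :=
          Finset.sum_le_sum_of_subset (Finset.filter_subset _ _)
      _ = T * k ^ (m - M) := by rw [Finset.sum_const, smul_eq_mul]
  have h1 : (T + 1) * k ^ (m - M) ≤ T * k ^ (m - M) := by
    calc (T + 1) * k ^ (m - M) ≤ (T + 1) * (4 * d ^ 2 * G.card) := Nat.mul_le_mul_left _ hGcard
      _ = d' * G.card := by rw [hd']; ring
      _ ≤ T * k ^ (m - M) := hcard
  have h2 := Nat.le_of_mul_le_mul_right h1 hkN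
  omega

end OVW
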