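import Pool.Agent.H3.OVW.Stmt

/-! MODULE TURING (project MP_d1c297_lc): the use principle.

`use_aux`: by induction on `Nat.RecursiveIn {Y} f` for an arbitrary `f` (with `Y : ℕ → ℕ` total): there is a recursive
`g : List ℕ × ℕ →. ℕ`, monotone in the list, with `v ∈ f n → ∃ j, v ∈ g (Y↾j, n)` (oracle: `g (s, n) = s[n]?`; pair/comp/prec/rfind: the same
operation on the `g`s, monotonicity and the maximum of finitely many `j`s).  `Y↾j = (List.range j).map Y`.
`functionals`: for a code `c` (`Nat.Partrec.Code`) let `Φ_c s n` = the value of the first `t < s.length` with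
`evaln (unpair t).2 c (encode (s.take (unpair t).1, n))` defined.  It is primitive recursive, and monotone in `s` (for `s <+: s'` the first `t` is the
same; `(unpair t).1 ≤ t < s.length`).  If `f ≤ Y` with `f` total and `c` is a code of `g`: every value of `Φ_c (Y↾j) n` is a value of
`g (Y↾i, n)`, hence equals `f n` (compare with the large initial segment where `g` gives `f n`), and for large `j` it is defined.
Index the codes by `ℕ` (`Denumerable`). -/

namespace OVW

open Nat.Partrec (Code)

/-- TURING: initial segments of `Y` -/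
def turing_pre (Y : ℕ → ℕ) (j : ℕ) : List ℕ := (List.range j).map Y

theorem turing_pre_mono (Y : ℕ → ℕ) {i j : ℕ} (h : i ≤ j) : turing_pre Y i <+: turing_pre Y j := by
  unfold turing_pre
  obtain ⟨k, rfl⟩ := Nat.exists_eq_add_of_le h
  rw [List.range_add, List.map_append]
  exact List.prefix_append _ _

theorem turing_sup {P : ℕ → ℕ → Prop} (hm : ∀ m i j, i ≤ j → P m i → P m j) (K : ℕ)
    (h : ∀ m < K, ∃ j, P m j) : ∃ J, ∀ m < K, P m J := by
  induction K with
  | zero => exact ⟨0, fun m hm => absurd hm (Nat.not_lt_zero _)⟩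
  | succ K ih =>
    obtain ⟨J, hJ⟩ := ih (fun m hm => h m (by omega))
    obtain ⟨j, hj⟩ := h K (by omega)
    refine ⟨max J j, fun m hm' => ?_⟩
    rcases Nat.lt_succ_iff_lt_or_eq.1 hm' with h1 | h1
    · exact hm _ _ _ (le_max_left _ _) (hJ m h1)
    · subst h1; exact hm _ _ _ (le_max_right _ _) hj

/-- TURING: monotone recursive functional -/
structure turing_Fn (Y : ℕ → ℕ) (f : ℕ → Part ℕ) (g : List ℕ × ℕ → Part ℕ) : Prop where
  rec' : Partrec g
  mono : ∀ s s' n v, s <+: s' → v ∈ g (s, n) → v ∈ g (s', n)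
  comp : ∀ n v, v ∈ f n → ∃ j, v ∈ g (turing_pre Y j, n)

theorem turing_use (Y : ℕ → ℕ) (f : ℕ →. ℕ) (hf : Nat.RecursiveIn {(Y : ℕ →. ℕ)} f) :
    ∃ g, turing_Fn Y f g := by
  induction hf with
  | zero =>
    refine ⟨fun _ => Part.some 0, (Computable.const 0).partrec, fun _ _ _ _ _ h => h, fun n v h => ⟨0, ?_⟩⟩
    exact h
  | succ =>
    refine ⟨fun p => Part.some (p.2 + 1), (Computable.succ.comp Computable.snd).partrec,
      fun _ _ _ _ _ h => h, fun n v h => ⟨0, ?_⟩⟩
    exact h
  | left =>
    refine ⟨fun p => Part.some (Nat.unpair p.2).1,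
      (Computable.fst.comp (Computable.unpair.comp Computable.snd)).partrec,
      fun _ _ _ _ _ h => h, fun n v h => ⟨0, ?_⟩⟩
    exact h
  | right =>
    refine ⟨fun p => Part.some (Nat.unpair p.2).2,
      (Computable.snd.comp (Computable.unpair.comp Computable.snd)).partrec,
      fun _ _ _ _ _ h => h, fun n v h => ⟨0, ?_⟩⟩
    exact h
  | oracle g hg =>
    rw [Set.mem_singleton_iff] at hg
    subst hg
    refine ⟨fun p => ((p.1[p.2]? : Option ℕ) : Part ℕ), ?_, ?_, ?_⟩
    · exact Computable.ofOption (Primrec.list_getElem?.to_comp.comp Computable.fst Computable.snd)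
    · rintro s s' n v ⟨t, rfl⟩ h
      simp only [Part.mem_ofOption, Option.mem_def] at h ⊢
      rw [List.getElem?_append]
      have hlt : n < s.length := by
        by_contra hc
        rw [List.getElem?_eq_none (by omega)] at h
        simp at h
      rw [if_pos hlt]
      exact h
    · intro n v h
      refine ⟨n + 1, ?_⟩
      simp only [PFun.coe_val, Part.mem_some_iff] at h
      simp only [Part.mem_ofOption, Option.mem_def, turing_pre]
      rw [h]
      simp
  | @pair f h _ _ ihf ihh =>
    obtain ⟨gf, hf⟩ := ihf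
    obtain ⟨gh, hh⟩ := ihh
    refine ⟨fun p => (gf p).bind fun a => (gh p).map fun b => Nat.pair a b, ?_, ?_, ?_⟩
    · refine Partrec.bind hf.rec' ?_
      refine Partrec.map (hh.rec'.comp Computable.fst) ?_
      exact (Primrec₂.natPair.to_comp.comp (Computable.snd.comp Computable.fst) Computable.snd).to₂
    · intro s s' n v hs hv
      simp only [Part.mem_bind_iff, Part.mem_map_iff] at hv ⊢
      obtain ⟨a, ha, b, hb, e⟩ := hv
      exact ⟨a, hf.mono _ _ _ _ hs ha, b, hh.mono _ _ _ _ hs hb, e⟩
    · intro n v hv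
      simp only [Seq.seq, Part.map_eq_map, Part.mem_bind_iff, Part.mem_map_iff] at hv
      obtain ⟨a', ⟨a, ha, rfl⟩, b, hb, e⟩ := hv
      obtain ⟨j1, h1⟩ := hf.comp n a ha
      obtain ⟨j2, h2⟩ := hh.comp n b hb
      refine ⟨max j1 j2, ?_⟩
      simp only [Part.mem_bind_iff, Part.mem_map_iff]
      exact ⟨a, hf.mono _ _ _ _ (turing_pre_mono Y (le_max_left _ _)) h1, b,
        hh.mono _ _ _ _ (turing_pre_mono Y (le_max_right _ _)) h2, e⟩
  | @comp f h _ _ ihf ihh =>
    obtain ⟨gf, hf⟩ := ihf
    obtain ⟨gh, hh⟩ := ihh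
    refine ⟨fun p => (gh p).bind fun a => gf (p.1, a), ?_, ?_, ?_⟩
    · refine Partrec.bind hh.rec' ?_
      exact hf.rec'.comp ((Computable.fst.comp Computable.fst).pair Computable.snd)
    · intro s s' n v hs hv
      simp only [Part.mem_bind_iff] at hv ⊢
      obtain ⟨a, ha, hb⟩ := hv
      exact ⟨a, hh.mono _ _ _ _ hs ha, hf.mono _ _ _ _ hs hb⟩
    · intro n v hv
      obtain ⟨a, ha, hb⟩ := Part.mem_bind_iff.1 hv
      obtain ⟨j1, h1⟩ := hh.comp n a ha
      obtain ⟨j2, h2⟩ := hf.comp a v hb
      refine ⟨max j1 j2, ?_⟩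
      exact Part.mem_bind_iff.2 ⟨a, hh.mono _ _ _ _ (turing_pre_mono Y (le_max_left _ _)) h1,
        hf.mono _ _ _ _ (turing_pre_mono Y (le_max_right _ _)) h2⟩
  | @prec f h _ _ ihf ihh =>
    obtain ⟨gf, hf⟩ := ihf
    obtain ⟨gh, hh⟩ := ihh
    refine ⟨fun p => (Nat.unpair p.2).2.rec (gf (p.1, (Nat.unpair p.2).1)) fun y IH =>
      IH.bind fun i => gh (p.1, Nat.pair (Nat.unpair p.2).1 (Nat.pair y i)), ?_, ?_, ?_⟩
    · have cu : Computable (fun p : List ℕ × ℕ => Nat.unpair p.2) :=
        Computable.unpair.comp Computable.snd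
      refine Partrec.nat_rec (f := fun p : List ℕ × ℕ => (Nat.unpair p.2).2)
        (g := fun p => gf (p.1, (Nat.unpair p.2).1))
        (h := fun (p : List ℕ × ℕ) (q : ℕ × ℕ) =>
          gh (p.1, Nat.pair (Nat.unpair p.2).1 (Nat.pair q.1 q.2))) ?_ ?_ ?_
      · exact Computable.snd.comp cu
      · exact hf.rec'.comp (Computable.fst.pair (Computable.fst.comp cu))
      · have hc : Computable (fun x : (List ℕ × ℕ) × (ℕ × ℕ) =>
            (x.1.1, Nat.pair (Nat.unpair x.1.2).1 (Nat.pair x.2.1 x.2.2))) := by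
          refine (Computable.fst.comp Computable.fst).pair ?_
          refine Primrec₂.natPair.to_comp.comp (Computable.fst.comp (cu.comp Computable.fst)) ?_
          exact Primrec₂.natPair.to_comp.comp (Computable.fst.comp Computable.snd)
            (Computable.snd.comp Computable.snd)
        exact hh.rec'.comp hc
    · intro s s' n v hs hv
      revert v
      simp only
      generalize (Nat.unpair n).2 = m
      induction m with
      | zero => intro v hv; exact hf.mono _ _ _ _ hs hv
      | succ m ih =>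
        intro v hv
        simp only [Part.mem_bind_iff] at hv ⊢
        obtain ⟨i, hi, hv⟩ := hv
        exact ⟨i, ih i hi, hh.mono _ _ _ _ hs hv⟩
    · intro n v hv
      have key : ∀ m v, v ∈ ((Nat.rec (f (Nat.unpair n).1) (fun y IH => do
          let i ← IH
          h (Nat.pair (Nat.unpair n).1 (Nat.pair y i))) m : Part ℕ)) → ∃ j,
          v ∈ ((m.rec (gf (turing_pre Y j, (Nat.unpair n).1)) fun y IH =>
            IH.bind fun i => gh (turing_pre Y j, Nat.pair (Nat.unpair n).1 (Nat.pair y i)) : Part ℕ)) := by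
        intro m
        induction m with
        | zero => intro v hv; exact hf.comp _ _ hv
        | succ m ih =>
          intro v hv
          simp only [Part.bind_eq_bind, Part.mem_bind_iff] at hv ⊢
          obtain ⟨i, hi, hv⟩ := hv
          obtain ⟨j1, h1⟩ := ih i hi
          obtain ⟨j2, h2⟩ := hh.comp _ _ hv
          refine ⟨max j1 j2, i, ?_, hh.mono _ _ _ _ (turing_pre_mono Y (le_max_right _ _)) h2⟩
          have hs := turing_pre_mono Y (le_max_left j1 j2)
          clear h2 hv ih hi
          revert h1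
          revert i
          induction m with
          | zero => intro v hv; exact hf.mono _ _ _ _ hs hv
          | succ m ih =>
            intro v hv
            simp only [Part.mem_bind_iff] at hv ⊢
            obtain ⟨i, hi, hv⟩ := hv
            exact ⟨i, ih i hi, hh.mono _ _ _ _ hs hv⟩
      exact key _ v hv
  | @rfind f _ ihf =>
    obtain ⟨gf, hf⟩ := ihf
    refine ⟨fun p => Nat.rfind fun n => (gf (p.1, Nat.pair p.2 n)).map fun m => decide (m = 0), ?_, ?_, ?_⟩
    · refine Partrec.rfind ?_
      have hc : Computable (fun x : (List ℕ × ℕ) × ℕ => (x.1.1, Nat.pair x.1.2 x.2)) := by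
        refine (Computable.fst.comp Computable.fst).pair ?_
        exact Primrec₂.natPair.to_comp.comp (Computable.snd.comp Computable.fst) Computable.snd
      have hd : Primrec (fun m : ℕ => decide (m = 0)) :=
        (Primrec.eq.comp Primrec.id (Primrec.const 0)).decide
      exact Partrec.map (hf.rec'.comp hc) ((hd.to_comp.comp Computable.snd).to₂)
    · intro s s' n v hs hv
      obtain ⟨h1, h2⟩ := Nat.mem_rfind.1 hv
      refine Nat.mem_rfind.2 ⟨?_, fun {m} hm => ?_⟩
      · rw [Part.mem_map_iff] at h1 ⊢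
        obtain ⟨a, ha, e⟩ := h1
        exact ⟨a, hf.mono _ _ _ _ hs ha, e⟩
      · have h3 := h2 hm
        rw [Part.mem_map_iff] at h3 ⊢
        obtain ⟨a, ha, e⟩ := h3
        exact ⟨a, hf.mono _ _ _ _ hs ha, e⟩
    · intro n v hv
      obtain ⟨h1, h2⟩ := Nat.mem_rfind.1 hv
      have hmono : ∀ (b : ℕ → Bool) m i j, i ≤ j →
          b m ∈ (gf (turing_pre Y i, Nat.pair n m)).map (fun m => decide (m = 0)) →
          b m ∈ (gf (turing_pre Y j, Nat.pair n m)).map (fun m => decide (m = 0)) := by
        intro b m i j hij h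
        rw [Part.mem_map_iff] at h ⊢
        obtain ⟨a, ha, e⟩ := h
        exact ⟨a, hf.mono _ _ _ _ (turing_pre_mono Y hij) ha, e⟩
      have hcomp : ∀ (b : Bool) m, b ∈ ((fun m => decide (m = 0)) <$> f (Nat.pair n m) : Part Bool) →
          ∃ j, b ∈ (gf (turing_pre Y j, Nat.pair n m)).map (fun m => decide (m = 0)) := by
        intro b m h
        rw [Part.map_eq_map, Part.mem_map_iff] at h
        obtain ⟨a, ha, e⟩ := h
        obtain ⟨j, hj⟩ := hf.comp _ _ ha
        exact ⟨j, (Part.mem_map_iff _).2 ⟨a, hj, e⟩⟩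
      obtain ⟨J, hJ⟩ := turing_sup (hmono (fun _ => false)) v (fun m hm => hcomp false m (h2 hm))
      obtain ⟨j, hj⟩ := hcomp true v h1
      refine ⟨max J j, ?_⟩
      exact Nat.mem_rfind.2 ⟨hmono (fun _ => true) v _ _ (le_max_right _ _) hj,
        fun {m} hm => hmono (fun _ => false) m _ _ (le_max_left _ _) (hJ m hm)⟩

/-- TURING: one computation attempt -/
def turing_test (e : ℕ) (s : List ℕ) (n t : ℕ) : Option ℕ :=
  Code.evaln (Nat.unpair t).2 (Denumerable.ofNat Code e)
    (Encodable.encode (s.take (Nat.unpair t).1, n))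

/-- TURING: the first successful attempt before `t` -/
def turing_F (e : ℕ) (s : List ℕ) (n : ℕ) : ℕ → Option ℕ
  | 0 => none
  | t + 1 => turing_F e s n t <|> turing_test e s n t

theorem turing_F_mono (e : ℕ) (s : List ℕ) (n : ℕ) {t t' : ℕ} (h : t ≤ t') {v : ℕ}
    (hv : v ∈ turing_F e s n t) : v ∈ turing_F e s n t' := by
  induction h with
  | refl => exact hv
  | step _ ih =>
    rw [Option.mem_def] at ih ⊢
    simp [turing_F, ih]

theorem turing_F_congr (e : ℕ) {s s' : List ℕ} (hs : s <+: s') (n : ℕ) {t : ℕ}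
    (ht : t ≤ s.length) : turing_F e s n t = turing_F e s' n t := by
  induction t with
  | zero => rfl
  | succ t ih =>
    rw [turing_F, turing_F, ih (by omega)]
    have h1 : (Nat.unpair t).1 ≤ s.length := (Nat.unpair_left_le t).trans (by omega)
    have h2 : s.take (Nat.unpair t).1 = s'.take (Nat.unpair t).1 := by
      obtain ⟨r, rfl⟩ := hs
      rw [List.take_append_of_le_length h1]
    unfold turing_test
    rw [h2]

theorem turing_F_some (e : ℕ) (s : List ℕ) (n : ℕ) {t : ℕ} {v : ℕ}
    (hv : v ∈ turing_F e s n t) : ∃ t' < t, v ∈ turing_test e s n t' := by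
  induction t with
  | zero => simp [turing_F] at hv
  | succ t ih =>
    rw [turing_F] at hv
    rcases h : turing_F e s n t with _ | w
    · rw [h] at hv
      exact ⟨t, Nat.lt_succ_self t, by simpa using hv⟩
    · rw [h] at hv
      have hw : v = w := by
        have : (some w <|> turing_test e s n t) = some w := rfl
        rw [this] at hv
        exact (Option.some.inj hv).symm
      subst hw
      obtain ⟨t', ht', h'⟩ := ih h
      exact ⟨t', Nat.lt_succ_of_lt ht', h'⟩

theorem turing_F_exists (e : ℕ) (s : List ℕ) (n : ℕ) {t t' : ℕ} {v : ℕ} (ht : t' < t)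
    (hv : v ∈ turing_test e s n t') : ∃ w, w ∈ turing_F e s n t := by
  have h1 : ∃ w, w ∈ turing_F e s n (t' + 1) := by
    rw [turing_F]
    rcases h : turing_F e s n t' with _ | w
    · exact ⟨v, by simpa using hv⟩
    · exact ⟨w, rfl⟩
  obtain ⟨w, hw⟩ := h1
  exact ⟨w, turing_F_mono e s n ht hw⟩

theorem turing_test_comp (e : ℕ) :
    Primrec (fun p : (List ℕ × ℕ) × ℕ => turing_test e p.1.1 p.1.2 p.2) := by
  unfold turing_test
  have h1 : Primrec (fun p : (List ℕ × ℕ) × ℕ => Nat.unpair p.2) :=
    Primrec.unpair.comp Primrec.snd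
  refine Code.primrec_evaln.comp (Primrec.pair (Primrec.pair (Primrec.snd.comp h1)
    (Primrec.const _)) ?_)
  refine Primrec.encode.comp (Primrec.pair ?_ (Primrec.snd.comp Primrec.fst))
  exact Primrec.list_take.comp (Primrec.fst.comp h1) (Primrec.fst.comp Primrec.fst)

theorem turing_F_comp (e : ℕ) :
    Primrec (fun p : List ℕ × ℕ => turing_F e p.1 p.2 p.1.length) := by
  have h := Primrec.nat_rec' (f := fun p : List ℕ × ℕ => p.1.length)
    (g := fun _ => (none : Option ℕ))
    (h := fun (p : List ℕ × ℕ) (q : ℕ × Option ℕ) => (q.2 <|> turing_test e p.1 p.2 q.1))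
    (Primrec.list_length.comp Primrec.fst) (Primrec.const none)
    (Primrec.option_orElse.comp (Primrec.snd.comp Primrec.snd)
      ((turing_test_comp e).comp (Primrec.pair Primrec.fst (Primrec.fst.comp Primrec.snd))))
  refine h.of_eq (fun p => ?_)
  generalize p.1.length = t
  induction t with
  | zero => rfl
  | succ t ih => rw [turing_F, ← ih]

theorem functionals : ∃ Φ : ℕ → List ℕ → ℕ → Option ℕ,
    (∀ e, Computable (fun p : List ℕ × ℕ => Φ e p.1 p.2)) ∧
    (∀ e s s' n v, s <+: s' → v ∈ Φ e s n → v ∈ Φ e s' n) ∧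
    ∀ (Y f : ℕ → ℕ), Nat.RecursiveIn {(Y : ℕ →. ℕ)} (f : ℕ →. ℕ) →
      ∃ e, ∀ n, ∃ j, f n ∈ Φ e ((List.range j).map Y) n := by
  refine ⟨fun e s n => turing_F e s n s.length, fun e => (turing_F_comp e).to_comp, ?_, ?_⟩
  · intro e s s' n v hs hv
    simp only at hv ⊢
    rw [turing_F_congr e hs n le_rfl] at hv
    exact turing_F_mono e s' n hs.length_le hv
  · intro Y f hf
    obtain ⟨g, hg⟩ := turing_use Y _ hf
    obtain ⟨c, hc⟩ := Code.exists_code.1 hg.rec'
    have hce : ∀ s n, Code.eval c (Encodable.encode (s, n)) = g (s, n) := by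
      intro s n
      rw [hc]
      simp only [Encodable.encodek, Part.coe_some, Part.bind_some]
      exact Part.map_id' (fun x => rfl) _
    refine ⟨Encodable.encode c, fun n => ?_⟩
    obtain ⟨j0, hj0⟩ := hg.comp n (f n) (by simp)
    -- every value is the right one
    have hval : ∀ j v, v ∈ g (turing_pre Y j, n) → v = f n := by
      intro j v hv
      have h1 := hg.mono _ _ _ _ (turing_pre_mono Y (le_max_left j j0)) hv
      have h2 := hg.mono _ _ _ _ (turing_pre_mono Y (le_max_right j j0)) hj0
      exact Part.mem_unique h1 h2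
    have h3 : f n ∈ Code.eval c (Encodable.encode (turing_pre Y j0, n)) := by
      rw [hce]; exact hj0
    obtain ⟨k, hk⟩ := Code.evaln_complete.1 h3
    set t := Nat.pair j0 k with ht
    set j := t + 1 with hj
    have hlen : (turing_pre Y j).length = j := by simp [turing_pre]
    have hjt : j0 ≤ j := (Nat.left_le_pair j0 k).trans (Nat.le_succ _)
    have htake : ∀ i ≤ j, (turing_pre Y j).take i = turing_pre Y i := by
      intro i hi
      obtain ⟨r, hr⟩ := turing_pre_mono Y hi
      rw [← hr]
      have : (turing_pre Y i).length = i := by simp [turing_pre]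
      rw [List.take_append_of_le_length (by omega), List.take_of_length_le (by omega)]
    have htest : f n ∈ turing_test (Encodable.encode c) (turing_pre Y j) n t := by
      unfold turing_test
      rw [Denumerable.ofNat_encode, ht, Nat.unpair_pair, htake j0 hjt]
      exact hk
    obtain ⟨w, hw⟩ := turing_F_exists (Encodable.encode c) (turing_pre Y j) n
      (show t < (turing_pre Y j).length by omega) htest
    obtain ⟨t', ht', hw'⟩ := turing_F_some _ _ _ hw
    have hwf : w = f n := by
      unfold turing_test at hw'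
      rw [Denumerable.ofNat_encode, htake _ ((Nat.unpair_left_le t').trans (by omega))] at hw'
      have h4 := Code.evaln_sound hw'
      rw [hce] at h4
      exact hval _ _ h4
    refine ⟨j, ?_⟩
    show f n ∈ turing_F (Encodable.encode c) (turing_pre Y j) n (turing_pre Y j).length
    rw [← hwf]
    exact hw

/-- the graph of `Y` is reducible to `Y` -/
theorem chi_graph_le (Y : ℕ → ℕ) :
    TuringReducible (chi {m | (Nat.unpair m).2 = Y (Nat.unpair m).1}) (Y : ℕ →. ℕ) := by
  classical
  have h1 : RecursiveIn {(Y : ℕ →. ℕ)} (Y : ℕ →. ℕ) := RecursiveIn.oracle _ (by simp)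
  rw [RecursiveIn.iff_nat] at h1
  have h2 : Nat.RecursiveIn {(Y : ℕ →. ℕ)} (fun m => (Nat.unpair m).1 : ℕ →. ℕ) := .left
  have h3 := Nat.RecursiveIn.comp h1 h2
  have h4 : Nat.RecursiveIn {(Y : ℕ →. ℕ)} (fun m => (Nat.unpair m).2 : ℕ →. ℕ) := .right
  have h5 := Nat.RecursiveIn.pair h4 h3
  have hp : Nat.Primrec (fun m : ℕ => if (Nat.unpair m).1 = (Nat.unpair m).2 then 1 else 0) := by
    rw [← Primrec.nat_iff]
    exact Primrec.ite (Primrec.eq.comp (Primrec.fst.comp Primrec.unpair)
      (Primrec.snd.comp Primrec.unpair)) (Primrec.const 1) (Primrec.const 0)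
  have h6 := Nat.RecursiveIn.comp (hp.recursiveIn (O := {(Y : ℕ →. ℕ)})) h5
  rw [TuringReducible, RecursiveIn.iff_nat]
  refine h6.of_eq (fun m => ?_)
  have h7 : ((Part.some (Nat.unpair m).1) >>= (Y : ℕ →. ℕ)) = Part.some (Y (Nat.unpair m).1) :=
    Part.bind_some _ _
  simp [chi, Seq.seq, h7]

/-- a set whose characteristic function (as a function `ℕ → ℕ`) is computable is computable -/
theorem computablePred_of_chi (X : Set ℕ) (f : ℕ → ℕ) (hf : Computable f)
    (h : ∀ n, chi X n = Part.some (f n)) : ComputablePred (fun n => n ∈ X) := by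
  classical
  rw [ComputablePred.computable_iff]
  refine ⟨fun n => decide (f n = 1), ?_, ?_⟩
  · exact (Primrec.eq.comp Primrec.id (Primrec.const 1)).decide.to_comp.comp hf
  · funext n
    have h1 := h n
    unfold chi at h1
    have h2 : (if n ∈ X then 1 else 0) = f n := Part.some_inj.1 h1
    by_cases hn : n ∈ X
    · rw [if_pos hn] at h2
      simp [hn, ← h2]
    · rw [if_neg hn] at h2
      simp [hn, ← h2]

end OVW
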