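import Pool.Agent.H3.OVW.DCor
import Pool.Agent.H3.OVW.Bad
import Pool.Agent.H3.OVW.StepA
import Pool.Agent.H3.OVW.PosComp
import Pool.Agent.H3.OVW.Turing

/-! MODULE FORCE (project MP_d1c297_lc): conditions, extensions, requirements (helper3). -/

namespace OVW

variable {k : ℕ}

/-- glue a closed tree to the open block -/
def glue (Lc : List (XWord k)) (y : XWord k) : List (XWord k) → List (XWord k)
  | [] => Lc
  | r :: rs => Lc ++ (y ++ r) :: rs

theorem glue_append_singleton (Lc : List (XWord k)) (y : XWord k) (ρ : List (XWord k))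
    (hρ : ρ ≠ []) (w : XWord k) : glue Lc y (ρ ++ [w]) = glue Lc y ρ ++ [w] := by
  cases ρ with
  | nil => exact absurd rfl hρ
  | cons r rs => simp [glue]

theorem glue_glue (Lc : List (XWord k)) (y : XWord k) (ρ : List (XWord k)) (w : XWord k)
    (ρ' : List (XWord k)) (hρ : ρ ≠ []) :
    glue (glue Lc y ρ) w ρ' = glue Lc y (glue ρ w ρ') := by
  cases ρ with
  | nil => exact absurd rfl hρ
  | cons r rs =>
    cases ρ' with
    | nil => simp [glue]
    | cons r' rs' => simp [glue]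

theorem glue_ne_nil (ρ : List (XWord k)) (w : XWord k) (ρ' : List (XWord k)) (hρ : ρ ≠ []) :
    glue ρ w ρ' ≠ [] := by
  cases ρ' with
  | nil => simpa [glue] using hρ
  | cons r rs => simp [glue]

theorem prefix_glue (Lc : List (XWord k)) (y : XWord k) (ρ : List (XWord k)) :
    Lc <+: glue Lc y ρ := by
  cases ρ with
  | nil => exact List.prefix_rfl
  | cons r rs => exact List.prefix_append _ _

theorem length_glue (Lc : List (XWord k)) (y : XWord k) (ρ : List (XWord k)) :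
    (glue Lc y ρ).length = Lc.length + ρ.length := by
  cases ρ with
  | nil => simp [glue]
  | cons r rs => simp [glue]

theorem prefix_append_cases {α : Type} {G A B : List α} (h : G <+: A ++ B) :
    G <+: A ∨ ∃ G', G' <+: B ∧ G = A ++ G' := by
  rcases List.prefix_or_prefix_of_prefix h (List.prefix_append A B) with h1 | ⟨G', rfl⟩
  · exact Or.inl h1
  · exact Or.inr ⟨G', (List.prefix_append_right_inj A).1 h, rfl⟩

/-- prefixes of a glued list -/
theorem prefix_glue_cases {Lc : List (XWord k)} {y : XWord k} {ρ G : List (XWord k)}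
    (h : G <+: glue Lc y ρ) : G <+: Lc ∨ ∃ ρ', ρ' ≠ [] ∧ ρ' <+: ρ ∧ G = glue Lc y ρ' := by
  cases ρ with
  | nil => exact Or.inl h
  | cons r rs =>
    simp only [glue] at h
    rcases prefix_append_cases h with h | ⟨G', hG', hG⟩
    · exact Or.inl h
    · cases G' with
      | nil => left; rw [hG]; simp
      | cons g gs =>
        right
        rw [List.cons_prefix_cons] at hG'
        obtain ⟨rfl, h2⟩ := hG'
        exact ⟨r :: gs, by simp, by simpa using h2, by simp [glue, hG]⟩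

theorem Shape.ne_nil {L : List (XWord k)} (h : Shape L) : L ≠ [] := by
  obtain ⟨c, ws, rfl, _⟩ := h; simp

theorem Shape.ofPre {L L' : List (XWord k)} (h : Shape L) (h' : L' ≠ []) (hp : L' <+: L) :
    Shape L' := by
  obtain ⟨c, ws, rfl, h2⟩ := h
  cases L' with
  | nil => exact absurd rfl h'
  | cons a as =>
    rw [List.cons_prefix_cons] at hp
    obtain ⟨rfl, h3⟩ := hp
    exact ⟨c, as, rfl, fun w hw => h2 w (h3.subset hw)⟩

theorem Shape.append {L : List (XWord k)} (h : Shape L) {w : XWord k} (hw : LV w) :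
    Shape (L ++ [w]) := by
  obtain ⟨c, ws, rfl, h2⟩ := h
  refine ⟨c, ws ++ [w], by simp, ?_⟩
  intro x hx
  rcases List.mem_append.1 hx with hx | hx
  · exact h2 x hx
  · rw [List.mem_singleton.1 hx]; exact hw

theorem LV.append {w : XWord k} (h : LV w) (v : XWord k) : LV (w ++ v) := by
  cases w with
  | nil => simp [LV] at h
  | cons a as => simpa [LV] using h

theorem Shape.glue {L : List (XWord k)} (h : Shape L) {w : XWord k} (hw : LV w)
    {ρ : List (XWord k)} (hρ : Shape ρ) : Shape (glue L w ρ) := by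
  obtain ⟨c, ws, rfl, h2⟩ := h
  obtain ⟨c', ws', rfl, h3⟩ := hρ
  refine ⟨c, ws ++ (w ++ c'.map some) :: ws', by simp [OVW.glue], ?_⟩
  intro x hx
  rcases List.mem_append.1 hx with hx | hx
  · exact h2 x hx
  · rcases List.mem_cons.1 hx with rfl | hx
    · exact hw.append _
    · exact h3 x hx

/-- leaves of a glued tree -/
theorem leaves_glue (hk : 0 < k) {Lc : List (XWord k)} {y : XWord k} {ρ : List (XWord k)}
    (hρ : Shape ρ) {l : Word k} (hl : l ∈ leaves (glue Lc y ρ)) :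
    ∃ l1 ∈ leaves (Lc ++ [y]), ∃ l2 ∈ leaves ρ, l = l1 ++ l2 := by
  obtain ⟨c, ws, rfl, _⟩ := hρ
  exact (mem_leaves_glue hk).1 hl

theorem STree.ofPre {S : Word k → Prop} {ρ ρ' : List (XWord k)} (h : STree S ρ)
    (h' : ρ' ≠ []) (hp : ρ' <+: ρ) : STree S ρ' :=
  ⟨h.1.ofPre h' hp, fun σ hσ hσp l hl => h.2 σ hσ (hσp.trans hp) l hl⟩

theorem STree.mono {S S' : Word k → Prop} (hS : ∀ x, S x → S' x) {ρ : List (XWord k)}
    (h : STree S ρ) : STree S' ρ :=
  ⟨h.1, fun σ hσ hσp l hl => hS _ (h.2 σ hσ hσp l hl)⟩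

/-- gluing trees -/
theorem STree.glue (hk : 0 < k) {S : Word k → Prop} {ρ ρ' : List (XWord k)} {w : XWord k}
    (h : STree S ρ) (hw : LV w)
    (h' : STree (fun u => ∀ l ∈ leaves (ρ ++ [w]), S (l ++ u)) ρ') :
    STree S (glue ρ w ρ') := by
  refine ⟨h.1.glue hw h'.1, ?_⟩
  intro σ hσ hσp l hl
  rcases prefix_glue_cases hσp with h1 | ⟨ρ'', h1, h2, rfl⟩
  · exact h.2 σ hσ h1 l hl
  · have h3 := h'.ofPre h1 h2
    obtain ⟨l1, hl1, l2, hl2, rfl⟩ := leaves_glue hk h3.1 hl
    exact h3.2 ρ'' h1 List.prefix_rfl l2 hl2 l1 hl1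

/-- forcing conditions; `T` is the colour class -/
structure Cond (k : ℕ) (T : Word k → Prop) where
  Lc : List (XWord k)
  y : XWord k
  S : Word k → Prop
  d : ℕ
  hd : 0 < d
  comp : ComputablePred S
  dense : Dense d S
  shape : (Lc = [] ∧ y = []) ∨ (Shape Lc ∧ LV y)
  nodes : ∀ ρ', ρ' ≠ [] → ρ' <+: Lc → ∀ l ∈ leaves ρ', T l
  hT : ∀ l ∈ leaves (Lc ++ [y]), ∀ u, S u → T (l ++ u)

variable {T : Word k → Prop}

def Allowed (p : Cond k T) (G : List (XWord k)) : Prop := ∃ ρ, STree p.S ρ ∧ G = glue p.Lc p.y ρ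

def Le (q p : Cond k T) : Prop :=
  (q.Lc = p.Lc ∨ Allowed p q.Lc) ∧ ∀ G, Allowed q G → Allowed p G

theorem Le.refl (p : Cond k T) : Le p p := ⟨Or.inl rfl, fun _ h => h⟩

theorem Le.trans {r q p : Cond k T} (h1 : Le r q) (h2 : Le q p) : Le r p := by
  refine ⟨?_, fun G hG => h2.2 G (h1.2 G hG)⟩
  rcases h1.1 with h | h
  · rw [h]; exact h2.1
  · exact Or.inr (h2.2 _ h)

theorem Allowed.ofPre {p : Cond k T} {G : List (XWord k)} (h : Allowed p G) : p.Lc <+: G := by
  obtain ⟨ρ, _, rfl⟩ := h; exact prefix_glue _ _ _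

theorem Le.ofPre {q p : Cond k T} (h : Le q p) : p.Lc <+: q.Lc := by
  rcases h.1 with h | h
  · rw [h]
  · exact h.ofPre

/-- the positive extension -/
def extA (hk : 0 < k) (p : Cond k T) (ρ : List (XWord k)) (w : XWord k) (d' : ℕ) (hd' : 0 < d')
    (hρ : STree p.S ρ) (hw : LV w)
    (hdense : Dense d' (fun u => ∀ l ∈ leaves (ρ ++ [w]), p.S (l ++ u))) : Cond k T where
  Lc := glue p.Lc p.y ρ
  y := w
  S := fun u => ∀ l ∈ leaves (ρ ++ [w]), p.S (l ++ u)
  d := d'
  hd := hd'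
  comp := restrict_comp p.S p.comp _
  dense := hdense
  shape := by
    right
    refine ⟨?_, hw⟩
    rcases p.shape with ⟨h1, h2⟩ | ⟨h1, h2⟩
    · rw [h1, h2]
      obtain ⟨⟨c, ws, rfl, h3⟩, _⟩ := hρ
      exact ⟨c, ws, by simp [glue], h3⟩
    · exact h1.glue h2 hρ.1
  nodes := by
    intro σ hσ hσp l hl
    rcases prefix_glue_cases hσp with h1 | ⟨ρ'', h1, h2, rfl⟩
    · exact p.nodes σ hσ h1 l hl
    · have h3 := hρ.ofPre h1 h2
      obtain ⟨l1, hl1, l2, hl2, rfl⟩ := leaves_glue hk h3.1 hl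
      exact p.hT l1 hl1 l2 (h3.2 ρ'' h1 List.prefix_rfl l2 hl2)
  hT := by
    intro l hl u hu
    rw [← glue_append_singleton _ _ _ hρ.1.ne_nil] at hl
    obtain ⟨l1, hl1, l2, hl2, rfl⟩ := leaves_glue hk (hρ.1.append hw) hl
    rw [List.append_assoc]
    exact p.hT l1 hl1 _ (hu l2 hl2)

theorem extA_le (hk : 0 < k) (p : Cond k T) (ρ : List (XWord k)) (w : XWord k) (d' : ℕ)
    (hd' : 0 < d') (hρ : STree p.S ρ) (hw : LV w)
    (hdense : Dense d' (fun u => ∀ l ∈ leaves (ρ ++ [w]), p.S (l ++ u))) :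
    Le (extA hk p ρ w d' hd' hρ hw hdense) p := by
  refine ⟨Or.inr ⟨ρ, hρ, rfl⟩, ?_⟩
  rintro G ⟨ρ', hρ', rfl⟩
  refine ⟨glue ρ w ρ', hρ.glue hk hw hρ', ?_⟩
  exact glue_glue _ _ _ _ _ hρ.1.ne_nil

/-- the negative extension -/
def extB (p : Cond k T) (S' : Word k → Prop) (d' : ℕ) (hd' : 0 < d') (hc : ComputablePred S')
    (hdense : Dense d' S') (hsub : ∀ x, S' x → p.S x) : Cond k T where
  Lc := p.Lc
  y := p.y
  S := S'
  d := d'
  hd := hd'
  comp := hc
  dense := hdense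
  shape := p.shape
  nodes := p.nodes
  hT := fun l hl u hu => p.hT l hl u (hsub u hu)

theorem extB_le (p : Cond k T) (S' : Word k → Prop) (d' : ℕ) (hd' : 0 < d')
    (hc : ComputablePred S') (hdense : Dense d' S') (hsub : ∀ x, S' x → p.S x) :
    Le (extB p S' d' hd' hc hdense hsub) p := by
  refine ⟨Or.inl rfl, ?_⟩
  rintro G ⟨ρ, hρ, rfl⟩
  exact ⟨ρ, hρ.mono hsub, rfl⟩

/-- if the answer is positive at a large level of density, there is an extension by an element of
the family -/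
theorem posExt (hk : 0 < k) (p : Cond k T) : ∃ M0 : ℕ, ∀ M, M0 ≤ M →
    k ^ M ≤ p.d * cnt p.S M → ∀ F : List (XWord k) → Prop, Pos (4 * p.d ^ 2) p.S F M →
    ∃ q : Cond k T, Le q p ∧ ∃ ρ, STree p.S ρ ∧ F ρ ∧ q.Lc = glue p.Lc p.y ρ := by
  obtain ⟨M0, hM0⟩ := bad_finite hk p.hd p.S
  refine ⟨M0, fun M hM hN F hpos => ?_⟩
  have h1 := hM0 M hM hN p.dense
  obtain ⟨ρ, w, d', hd', hρ, hw, hF, hdense⟩ := stepA hk p.hd p.S F
    (fun m0 => by
      obtain ⟨m, h1, h2, _, h3⟩ := h1 m0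
      exact ⟨m, h1, h2, h3⟩) hpos
  exact ⟨extA hk p ρ w d' hd' hρ hw hdense, extA_le hk p ρ w d' hd' hρ hw hdense, ρ, hρ, hF, rfl⟩

theorem leaves_const (hk : 0 < k) (c : Word k) {l : Word k} :
    l ∈ leaves [c.map some] ↔ l = c := by
  rw [mem_leaves_cons]
  constructor
  · rintro ⟨a, l2, hl2, rfl⟩
    simp only [leaves, List.mem_singleton] at hl2
    rw [hl2, sub_map_some, List.append_nil]
  · rintro rfl
    exact ⟨⟨0, hk⟩, [], by simp [leaves], by rw [sub_map_some, List.append_nil]⟩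

/-- every condition can be extended to one with more closed blocks -/
theorem extend {T : Word (k + 1) → Prop} (p : Cond (k + 1) T) : ∃ q : Cond (k + 1) T, Le q p ∧ p.Lc.length < q.Lc.length := by
  have hk : 0 < k + 1 := Nat.succ_pos k
  obtain ⟨M0, hM0⟩ := posExt hk p
  by_cases hneg : ∀ m0, ∃ M, m0 ≤ M ∧ (k + 1) ^ M ≤ p.d * cnt p.S M ∧
      ¬ Pos (4 * p.d ^ 2) p.S (fun _ => True) M
  · exfalso
    obtain ⟨S', _, hd', hsub, hno⟩ := stepB hk p.hd p.S p.comp (fun _ => True)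
      ⟨fun _ => isTrue trivial, Computable.const true⟩ hneg
    have hd4 : 0 < 4 * p.d ^ 2 := by have := p.hd; positivity
    obtain ⟨c, w, hc, hw⟩ := dense_line hd4 S' hd'
    apply hno [c.map some] (none :: w) ?_ trivial (by simp [LV])
    · intro l hl
      rw [mem_leaves_append] at hl
      obtain ⟨l1, hl1, l2, hl2, rfl⟩ := hl
      rw [leaves_const hk] at hl1
      rw [mem_leaves_cons] at hl2
      obtain ⟨a, l3, hl3, rfl⟩ := hl2
      simp only [leaves, List.mem_singleton] at hl3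
      subst hl3
      subst hl1
      rw [List.append_nil]
      have : sub a (none :: w) = a :: sub a w := by simp [sub]
      rw [this]
      exact hw a
    · refine ⟨⟨c, [], rfl, by simp⟩, ?_⟩
      intro ρ' h1 h2 l hl
      have : ρ' = [c.map some] := by
        cases ρ' with
        | nil => exact absurd rfl h1
        | cons a as =>
          rw [List.cons_prefix_cons] at h2
          obtain ⟨rfl, h3⟩ := h2
          rw [List.prefix_nil.1 h3]
      rw [this, leaves_const hk] at hl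
      rw [hl]
      exact hsub c hc
  · push Not at hneg
    obtain ⟨m0, hm0⟩ := hneg
    obtain ⟨M, hM, hN⟩ := p.dense (max M0 m0)
    obtain ⟨q, hq, ρ, hρ, _, hL⟩ := hM0 M (le_trans (le_max_left _ _) hM) hN _
      (hm0 M (le_trans (le_max_right _ _) hM) hN)
    refine ⟨q, hq, ?_⟩
    rw [hL, length_glue]
    have := hρ.1.ne_nil
    have : 0 < ρ.length := List.length_pos_iff.2 this
    omega

end OVW
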