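import Pool.Agent.H3.OVW.Infl
import Pool.Agent.H3.OVW.Quant

/-! MODULE GP (project MP_d1c297_lc): removing one insensitive set.  `A = Fin (k+1)`, `A' = Fin k`, `∞ = Fin.last k`.

`(N2, ρ0)` from `quant_tree (hT n)` for the bound `τ/2`; `G` with `N2 * (2/√G) ≤ τ ρ0/4`; `L = N = (N2+1) G`.
`Ω♭ = Ω × (Fin (N2+1) → Fin G)`; for `z : Word (k+1)`, `|z| ≤ N2`:
  `f_z (ω, gg) = Ex_b g (gword i (lev id gg) (bext b) z) ω`,   `D~_z (ω, gg) = D (gword i (lev id gg) (fun _ => false) z) ω`.
`D (gword … b z) ω ↔ D~_z` for every `b` (by `hD`; `rep i (gword i m b z) = rep i (gword i m (fun _ => false) z)`, use `map_fill`) and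
`D~_z` only depends on `rep i z`.  All words have length `m |z| < L`.  So `τ ≤ Ex (f_z * ind D~_z)`.
System over `A'`: `E'_z (z : Word k) := D~_{z.map castSucc} ∧ τ/2 ≤ f_{z.map castSucc}`; since `f ≤ 1`: `Ex (ind E'_z) ≥ τ/2`.
`quant_tree`: tree `(v0, v)` over `A'`, `tlen v0 v n ≤ N2`, `Ω⁻ = {∀ q : Word k, |q| ≤ n → E'_{tnode v0 v q}}` has probability `≥ ρ0`.
Let `V0 = v0.map castSucc`, `V j = (v j).map (Option.map castSucc)` (a tree over `A`).  For `q : Word (k+1)`, `|q| ≤ n`:
  `rep i (tnode V0 V q) = (tnode v0 v q').map castSucc` with `q' : Word k` (`q'.map castSucc = rep i q`), so by `infl`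
  `Ex |f_{tnode V0 V q} - f_{(tnode v0 v q').map castSucc}| ≤ τ ρ0/4`, hence
  `Ex (f_{tnode V0 V q} * ind Ω⁻) ≥ (τ/2) Ex (ind Ω⁻) - τ ρ0/4 ≥ (τ/4) Ex (ind Ω⁻)`.
New space `Ω' = {x : Ω♭ // x ∈ Ω⁻} × (Fin L → Bool)`, `π = first coordinate`, tree of `((ω, gg), b)` = composition (`tnode_comp`) of the tree
of `gword i (lev id gg) (bext b)` (`fill_eq`, `tlen_fill`) with `(V0, V)`; `Ex_subtype`, `Ex_prod`. -/

namespace OVW

open scoped BigOperators

/-- the letter map of `rep` -/
def gp_phi {k : ℕ} (i : Fin k) (a : Fin (k + 1)) : Fin (k + 1) :=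
  if a = Fin.last k then i.castSucc else a

theorem gp_rep_eq {k : ℕ} (i : Fin k) (q : Word (k + 1)) : rep i q = q.map (gp_phi i) := rfl

theorem gp_phi_last {k : ℕ} (i : Fin k) : gp_phi i (Fin.last k) = i.castSucc := by
  simp [gp_phi]

theorem gp_phi_castSucc {k : ℕ} (i j : Fin k) : gp_phi i j.castSucc = j.castSucc := by
  have : j.castSucc ≠ Fin.last k := (Fin.castSucc_lt_last j).ne
  simp [gp_phi, this]

theorem gp_phi_phi {k : ℕ} (i : Fin k) (a : Fin (k + 1)) : gp_phi i (gp_phi i a) = gp_phi i a := by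
  by_cases h : a = Fin.last k
  · rw [h, gp_phi_last, gp_phi_castSucc]
  · have : gp_phi i a = a := by simp [gp_phi, h]
    rw [this, this]

theorem rep_rep {k : ℕ} (i : Fin k) (q : Word (k + 1)) : rep i (rep i q) = rep i q := by
  rw [gp_rep_eq, gp_rep_eq, List.map_map]
  congr 1
  funext a
  exact gp_phi_phi i a

theorem gp_rep_sub {k : ℕ} (i : Fin k) (a : Fin (k + 1)) (w : XWord (k + 1)) :
    (sub (gp_phi i a) w).map (gp_phi i) = (sub a w).map (gp_phi i) := by
  unfold sub
  rw [List.map_map, List.map_map]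
  apply List.map_congr_left
  intro o _
  cases o with
  | none => simp [gp_phi_phi]
  | some b => simp

theorem gp_rep_node {k : ℕ} (i : Fin k) (q : Word (k + 1)) : ∀ (u : ℕ → XWord (k + 1)),
    (node u (q.map (gp_phi i))).map (gp_phi i) = (node u q).map (gp_phi i) := by
  induction q with
  | nil => intro u; rfl
  | cons a q ih =>
    intro u
    simp only [List.map_cons, node, List.map_append, gp_phi_phi, gp_rep_sub, ih]

theorem rep_tnode {k : ℕ} (i : Fin k) (u0 : Word (k + 1)) (u : ℕ → XWord (k + 1))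
    (q : Word (k + 1)) : rep i (tnode u0 u (rep i q)) = rep i (tnode u0 u q) := by
  rw [gp_rep_eq, gp_rep_eq, gp_rep_eq]
  unfold tnode
  rw [List.map_append, List.map_append, gp_rep_node]

/-- the letter map to `Fin k` -/
def gp_red {k : ℕ} (i : Fin k) (a : Fin (k + 1)) : Fin k := Fin.lastCases i (fun j => j) a

theorem gp_red_spec {k : ℕ} (i : Fin k) (a : Fin (k + 1)) : (gp_red i a).castSucc = gp_phi i a := by
  refine Fin.lastCases ?_ (fun j => ?_) a
  · simp [gp_red, gp_phi_last]
  · simp [gp_red, gp_phi_castSucc]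

theorem gp_map_sub {k : ℕ} (a : Fin k) (w : XWord k) :
    (sub a w).map Fin.castSucc = sub a.castSucc (w.map (Option.map Fin.castSucc)) := by
  unfold sub
  rw [List.map_map, List.map_map]
  apply List.map_congr_left
  intro o _
  cases o <;> simp

theorem gp_map_node {k : ℕ} (q : Word k) : ∀ (v : ℕ → XWord k),
    (node v q).map Fin.castSucc =
      node (fun j => (v j).map (Option.map Fin.castSucc)) (q.map Fin.castSucc) := by
  induction q with
  | nil => intro v; rfl
  | cons a q ih =>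
    intro v
    simp only [List.map_cons, node, List.map_append, gp_map_sub, ih]

theorem gp_map_tnode {k : ℕ} (v0 : Word k) (v : ℕ → XWord k) (q : Word k) :
    (tnode v0 v q).map Fin.castSucc =
      tnode (v0.map Fin.castSucc) (fun j => (v j).map (Option.map Fin.castSucc))
        (q.map Fin.castSucc) := by
  unfold tnode
  rw [List.map_append, gp_map_node]

theorem gp_tlen_map {k : ℕ} (v0 : Word k) (v : ℕ → XWord k) (n : ℕ) :
    tlen (v0.map Fin.castSucc) (fun j => (v j).map (Option.map Fin.castSucc)) n = tlen v0 v n := by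
  simp [tlen]

/-- the key identity on nodes -/
theorem gp_rep_tnode {k : ℕ} (i : Fin k) (v0 : Word k) (v : ℕ → XWord k) (q : Word (k + 1)) :
    rep i (tnode (v0.map Fin.castSucc) (fun j => (v j).map (Option.map Fin.castSucc)) q) =
      (tnode v0 v (q.map (gp_red i))).map Fin.castSucc := by
  rw [← rep_tnode]
  have h1 : rep i q = (q.map (gp_red i)).map Fin.castSucc := by
    rw [gp_rep_eq, List.map_map]
    apply List.map_congr_left
    intro a _
    exact (gp_red_spec i a).symm
  rw [h1, ← gp_map_tnode, gp_rep_eq, List.map_map]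
  apply List.map_congr_left
  intro a _
  exact gp_phi_castSucc i a

theorem gp_rep_gword {k : ℕ} (i : Fin k) (m : ℕ → ℕ) (b : ℕ → Bool) (z : Word (k + 1)) :
    rep i (gword i m b z) = fill m (fun _ => i.castSucc) (rep i z) := by
  rw [gp_rep_eq, gword, map_fill]
  have : (fun p => gp_phi i (if b p = true then Fin.last k else i.castSucc)) =
      fun _ => i.castSucc := by
    funext p
    by_cases h : b p = true
    · simp [h, gp_phi_last]
    · simp [h, gp_phi_castSucc]
  rw [this, gp_rep_eq]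

theorem gp_D_iff {k : ℕ} {Ω : Type} {i : Fin k} {D : Word (k + 1) → Ω → Prop} (hD : Insens i D)
    (m : ℕ → ℕ) (b b' : ℕ → Bool) (z z' : Word (k + 1)) (hz : rep i z = rep i z') (ω : Ω) :
    D (gword i m b z) ω ↔ D (gword i m b' z') ω := by
  rw [← hD (gword i m b z) ω, ← hD (gword i m b' z') ω, gp_rep_gword, gp_rep_gword, hz]

theorem gp_exists_G (N2 : ℕ) {c : ℝ} (hc : 0 < c) :
    ∃ G : ℕ, 0 < G ∧ N2 * (2 / Real.sqrt G) ≤ c := by
  obtain ⟨G, hG⟩ := exists_nat_gt ((2 * N2 / c) ^ 2)
  have hG0 : (0 : ℝ) < G := lt_of_le_of_lt (sq_nonneg _) hG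
  refine ⟨G, by exact_mod_cast hG0, ?_⟩
  have hs : 0 < Real.sqrt G := Real.sqrt_pos.2 hG0
  have h1 : 2 * N2 / c ≤ Real.sqrt G := by
    rw [← Real.sqrt_sq (show (0 : ℝ) ≤ 2 * N2 / c by positivity)]
    exact Real.sqrt_le_sqrt hG.le
  rw [div_le_iff₀ hc] at h1
  have h2 : (N2 : ℝ) * (2 / Real.sqrt G) = (2 * N2) / Real.sqrt G := by ring
  rw [h2, div_le_iff₀ hs]
  linarith

theorem GP {k n : ℕ} (hT : Dn k n) (i : Fin k) {τ : ℝ} (hτ : 0 < τ) :
    ∃ N : ℕ, ∀ (Ω : Type) [Fintype Ω] [Nonempty Ω] (g : Word (k + 1) → Ω → ℝ)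
      (D : Word (k + 1) → Ω → Prop), (∀ z ω, |g z ω| ≤ 1) → Insens i D →
      (∀ z : Word (k + 1), z.length ≤ N → τ ≤ Ex (fun ω => g z ω * ind (D z ω))) →
      ∃ (Ω' : Type) (_ : Fintype Ω') (_ : Nonempty Ω') (π : Ω' → Ω) (u0 : Ω' → Word (k + 1))
        (u : Ω' → ℕ → XWord (k + 1)), (∀ x, tlen (u0 x) (u x) n ≤ N) ∧
        ∀ q : Word (k + 1), q.length ≤ n →
          τ / 4 ≤ Ex (fun x => g (tnode (u0 x) (u x) q) (π x)) := by
  classical
  obtain ⟨N2, ρ, hρ, hquant⟩ := quant_tree hT (half_pos hτ)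
  obtain ⟨G, hG, hGle⟩ := gp_exists_G N2 (c := τ * ρ / 4) (by positivity)
  have : Nonempty (Fin G) := ⟨⟨0, hG⟩⟩
  refine ⟨(N2 + 1) * G, ?_⟩
  intro Ω _ _ g D hg hD hτg
  set L : ℕ := (N2 + 1) * G with hL
  -- the functions on the extended space
  let f : Word (k + 1) → Ω × (Fin (N2 + 1) → Fin G) → ℝ := fun z x =>
    Ex (fun b : Fin L → Bool => g (gword i (lev id x.2) (bext b) z) x.1)
  let Dt : Word (k + 1) → Ω × (Fin (N2 + 1) → Fin G) → Prop := fun z x =>
    D (gword i (lev id x.2) (fun _ => false) z) x.1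
  have hf1 : ∀ z x, f z x ≤ 1 := fun z x => Ex_le_of_le (fun b => (abs_le.1 (hg _ _)).2)
  have hlev : ∀ (gg : Fin (N2 + 1) → Fin G) (j : ℕ), j ≤ N2 → lev id gg j ≤ L :=
    fun gg j hj => (lev_lt strictMono_id hG gg hj).le
  -- lower bound
  have hlow : ∀ z : Word (k + 1), z.length ≤ N2 → τ ≤ Ex (fun x => f z x * ind (Dt z x)) := by
    intro z hz
    have h1 : ∀ x : Ω × (Fin (N2 + 1) → Fin G), f z x * ind (Dt z x) =
        Ex (fun b : Fin L → Bool => g (gword i (lev id x.2) (bext b) z) x.1 *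
          ind (D (gword i (lev id x.2) (bext b) z) x.1)) := by
      intro x
      show Ex _ * _ = _
      rw [← Ex_mul_right]
      congr 1
      funext b
      rw [ind_congr (gp_D_iff hD (lev id x.2) (fun _ => false) (bext b) z z rfl x.1)]
    simp_rw [h1]
    rw [Ex_prod, Ex_comm]
    apply le_Ex_of_le
    intro gg
    simp only
    rw [Ex_comm]
    apply le_Ex_of_le
    intro b
    apply hτg
    rw [gword, length_fill]
    exact hlev gg _ hz
  -- the system over `Fin k`
  let E' : Word k → Ω × (Fin (N2 + 1) → Fin G) → Prop := fun z x =>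
    Dt (z.map Fin.castSucc) x ∧ τ / 2 ≤ f (z.map Fin.castSucc) x
  have hBd : Bd N2 (τ / 2) E' := by
    intro z hz
    have h1 := hlow (z.map Fin.castSucc) (by rw [List.length_map]; exact hz)
    have h2 : Ex (fun x => f (z.map Fin.castSucc) x * ind (Dt (z.map Fin.castSucc) x)) ≤
        Ex (fun x => ind (E' z x) + τ / 2) := by
      apply Ex_mono
      intro x
      by_cases hd : Dt (z.map Fin.castSucc) x
      · rw [ind_true hd, mul_one]
        by_cases hx : τ / 2 ≤ f (z.map Fin.castSucc) x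
        · rw [ind_true (show E' z x from ⟨hd, hx⟩)]
          linarith [hf1 (z.map Fin.castSucc) x]
        · rw [ind_false (show ¬ E' z x from fun h => hx h.2)]
          push Not at hx
          linarith
      · rw [ind_false hd, mul_zero]
        linarith [ind_nonneg (E' z x)]
    rw [Ex_add, Ex_const] at h2
    linarith
  obtain ⟨v0, v, hvlen, hvρ⟩ := hquant _ E' hBd
  let P : Ω × (Fin (N2 + 1) → Fin G) → Prop := fun x =>
    ∀ q : Word k, q.length ≤ n → E' (tnode v0 v q) x
  have hPρ : ρ ≤ Ex (fun x => ind (P x)) := hvρ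
  have hPpos : 0 < Ex (fun x => ind (P x)) := lt_of_lt_of_le hρ hPρ
  have hne : Nonempty {x // P x} := by
    by_contra hcon
    have : ∀ x, ind (P x) = 0 := fun x => ind_false (fun h => hcon ⟨⟨x, h⟩⟩)
    simp_rw [this] at hPpos
    rw [Ex_const] at hPpos
    exact lt_irrefl _ hPpos
  let V0 : Word (k + 1) := v0.map Fin.castSucc
  let V : ℕ → XWord (k + 1) := fun j => (v j).map (Option.map Fin.castSucc)
  have hVlen : ∀ m, tlen V0 V m = tlen v0 v m := fun m => gp_tlen_map v0 v m
  -- main estimate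
  have hmain : ∀ q : Word (k + 1), q.length ≤ n →
      τ / 4 ≤ Ex (fun x : {x // P x} => f (tnode V0 V q) x) := by
    intro q hq
    have hzlen : (tnode V0 V q).length ≤ N2 := by
      rw [length_tnode]
      exact (tlen_mono V0 V hq).trans ((hVlen n).le.trans hvlen)
    have hrep : rep i (tnode V0 V q) = (tnode v0 v (q.map (gp_red i))).map Fin.castSucc :=
      gp_rep_tnode i v0 v q
    have h1 : Ex (fun x => |f (tnode V0 V q) x - f (rep i (tnode V0 V q)) x|) ≤ τ * ρ / 4 := by
      rw [Ex_prod]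
      apply Ex_le_of_le
      intro ω
      exact (infl i N2 G hG L le_rfl (fun w => g w ω) (fun w => hg w ω) _ hzlen).trans hGle
    have h2 : Ex (fun x => (τ / 2) * ind (P x)) - τ * ρ / 4 ≤
        Ex (fun x => f (tnode V0 V q) x * ind (P x)) := by
      have h3 : Ex (fun x => (τ / 2) * ind (P x) - |f (tnode V0 V q) x -
          f (rep i (tnode V0 V q)) x|) ≤ Ex (fun x => f (tnode V0 V q) x * ind (P x)) := by
        apply Ex_mono
        intro x
        by_cases hx : P x
        · rw [ind_true hx, mul_one, mul_one]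
          have h4 : τ / 2 ≤ f (rep i (tnode V0 V q)) x := by
            rw [hrep]
            exact (hx (q.map (gp_red i)) (by rw [List.length_map]; exact hq)).2
          linarith [neg_abs_le (f (tnode V0 V q) x - f (rep i (tnode V0 V q)) x)]
        · rw [ind_false hx, mul_zero, mul_zero]
          linarith [abs_nonneg (f (tnode V0 V q) x - f (rep i (tnode V0 V q)) x)]
      rw [Ex_sub] at h3
      linarith
    rw [Ex_subtype P (f (tnode V0 V q)), le_div_iff₀ hPpos]
    rw [Ex_mul_left] at h2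
    nlinarith
  -- the new space
  have hcomp : ∀ x : {x // P x} × (Fin L → Bool), ∃ (t : Word (k + 1) × (ℕ → XWord (k + 1))),
      (∀ q, tnode (fill0 (lev id x.1.1.2)
          (fun p => if bext x.2 p then Fin.last k else i.castSucc))
        (fillv (lev id x.1.1.2) (fun p => if bext x.2 p then Fin.last k else i.castSucc))
          (tnode V0 V q) = tnode t.1 t.2 q) ∧
      ∀ n, tlen t.1 t.2 n = tlen (fill0 (lev id x.1.1.2)
          (fun p => if bext x.2 p then Fin.last k else i.castSucc))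
        (fillv (lev id x.1.1.2) (fun p => if bext x.2 p then Fin.last k else i.castSucc))
          (tlen V0 V n) := by
    intro x
    obtain ⟨t0, t, h1, h2⟩ := tnode_comp (fill0 (lev id x.1.1.2)
          (fun p => if bext x.2 p then Fin.last k else i.castSucc))
        (fillv (lev id x.1.1.2) (fun p => if bext x.2 p then Fin.last k else i.castSucc)) V0 V
    exact ⟨(t0, t), h1, h2⟩
  choose t ht1 ht2 using hcomp
  refine ⟨{x // P x} × (Fin L → Bool), inferInstance, inferInstance, fun x => x.1.1.1,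
    fun x => (t x).1, fun x => (t x).2, ?_, ?_⟩
  · intro x
    rw [ht2 x, tlen_fill (lev_strictMono strictMono_id hG _)]
    exact hlev _ _ ((hVlen n).le.trans hvlen)
  · intro q hq
    have h1 : ∀ x : {x // P x} × (Fin L → Bool), g (tnode (t x).1 (t x).2 q) x.1.1.1 =
        g (gword i (lev id x.1.1.2) (bext x.2) (tnode V0 V q)) x.1.1.1 := by
      intro x
      rw [← ht1 x, gword, fill_eq (lev_strictMono strictMono_id hG _)]
    simp_rw [h1]
    rw [Ex_prod]
    exact hmain q hq

end OVW
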