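import Pool.Agent.H3.OVW.Psi
import Pool.Agent.H3.OVW.Quant

/-! MODULE INCA (project MP_d1c297_lc): the density increment, averaged form.

`(N0, ρ)` from `quant_line hD` for the bound `γ/2` (`ρ ≤ 1` may be arranged by `min ρ 1`).  Note `γ - γ ρ/4 ≥ γ/2`.
`Γ = Fin k ⊕ Fin N0`, `Y = Fin N0 → Fin M × (Fin M → Γ)`; for `y ∈ Y` let `yy y j = ((ofFn (y j).2).take (y j).1)` (`[]` for `j ≥ N0`).
On `Ω × Y` the system over `A' = Fin k`: `E_z (ω, y) = B (PsiK a0 (yy y) (z.map castSucc)) ω` has `Bd N0 (γ/2)` (lengths `≤ N0 M`).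
`quant_line`: `(c0, w0)`, `e1 = |c0| + |w0| < N0`.  `Ex_update` in the coordinate `e1` and `exists_Ex_le`: a fixed `y*` such that the average
over `p = (y e1) ∈ Fin M × (Fin M → Γ)` is `≥ ρ`.  `psi_line` for `yy y*` gives `c, P, κ`.  With `x = ((ofFn p.2).take p.1).map κ`:
`ψ0 x = Ex_ω ind (B c ω ∧ ∀ i, B (P i.castSucc ++ rep i x) ω)` has average `≥ ρ`.
For every such `x`: by `LineFree` (with the `W` of `psi_line`) `B (P last ++ x) ω`, `B c ω`, `∀ i B (P i ++ rep i x) ω` never hold together;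
`∑_j ∏_i ind (Dj B c P j i x ω) = 1 - ind (B c ω ∧ ∀ i, B (P i.castSucc ++ rep i x) ω)` (sum over `j : Option (Fin k)`: take the first `i` with
`¬ B (P i ++ rep i x)`), so `∑_j Val … j x ≥ (γ - γρ/4) - (γ + γρ/4) (1 - ψ0 x) ≥ γ ψ0 x - γρ/2`; average over `p` and pigeonhole on `j`
(`k+1` values): some `j` has average `≥ γρ/(2(k+1))`. -/

namespace OVW

open scoped BigOperators

/-- the structured pieces -/
def Dj {k : ℕ} {Ω : Type} (B : Word (k + 1) → Ω → Prop) (c : Word (k + 1))
    (P : Fin (k + 1) → Word (k + 1)) (j : Option (Fin k)) (i : Fin k) (x : Word (k + 1)) (ω : Ω) :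
    Prop :=
  match j with
  | none => ¬ B c ω
  | some j0 => B c ω ∧ (i < j0 → B (P i.castSucc ++ rep i x) ω) ∧
      (i = j0 → ¬ B (P i.castSucc ++ rep i x) ω)

noncomputable def Val {k : ℕ} {Ω : Type} [Fintype Ω] (B : Word (k + 1) → Ω → Prop)
    (c : Word (k + 1)) (P : Fin (k + 1) → Word (k + 1)) (γ' : ℝ) (j : Option (Fin k))
    (x : Word (k + 1)) : ℝ :=
  Ex (fun ω => (ind (B (P (Fin.last k) ++ x) ω) - γ') * ∏ i, ind (Dj B c P j i x ω))

theorem inca_prod {k : ℕ} (p : Fin k → Prop) : ∏ i, ind (p i) = ind (∀ i, p i) := by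
  classical
  by_cases h : ∀ i, p i
  · rw [ind_true h]
    exact Finset.prod_eq_one fun i _ => ind_true (h i)
  · rw [ind_false h]
    push Not at h
    obtain ⟨i, hi⟩ := h
    exact Finset.prod_eq_zero (Finset.mem_univ i) (ind_false hi)

theorem inca_sum {k : ℕ} (a0 : Fin k) {Ω : Type} (B : Word (k + 1) → Ω → Prop) (c : Word (k + 1))
    (P : Fin (k + 1) → Word (k + 1)) (x : Word (k + 1)) (ω : Ω) :
    ∑ j : Option (Fin k), ∏ i, ind (Dj B c P j i x ω) =
      1 - ind (B c ω ∧ ∀ i : Fin k, B (P i.castSucc ++ rep i x) ω) := by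
  classical
  simp only [inca_prod]
  by_cases hc : B c ω
  · by_cases hall : ∀ i : Fin k, B (P i.castSucc ++ rep i x) ω
    · rw [ind_true ⟨hc, hall⟩, sub_self]
      refine Finset.sum_eq_zero fun j _ => ind_false fun h => ?_
      cases j with
      | none => exact (h a0) hc
      | some j0 => exact (h j0).2.2 rfl (hall j0)
    · rw [ind_false (fun h => hall h.2), sub_zero]
      push Not at hall
      -- the first failure
      obtain ⟨j0, hj0, hmin⟩ : ∃ j0 : Fin k, ¬ B (P j0.castSucc ++ rep j0 x) ω ∧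
          ∀ i < j0, B (P i.castSucc ++ rep i x) ω := by
        obtain ⟨i, hi⟩ := hall
        have hne : (Finset.univ.filter fun i : Fin k => ¬ B (P i.castSucc ++ rep i x) ω).Nonempty :=
          ⟨i, Finset.mem_filter.2 ⟨Finset.mem_univ _, hi⟩⟩
        refine ⟨Finset.min' _ hne, (Finset.mem_filter.1 (Finset.min'_mem _ hne)).2, fun i hi => ?_⟩
        by_contra hcon
        have hm : i ∈ Finset.univ.filter
            (fun i : Fin k => ¬ B (P i.castSucc ++ rep i x) ω) :=
          Finset.mem_filter.2 ⟨Finset.mem_univ i, hcon⟩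
        exact absurd hi (not_lt.2 (Finset.min'_le _ _ hm))
      rw [Finset.sum_eq_single (some j0)]
      · refine ind_true fun i => ⟨hc, fun h => hmin i h, fun h => ?_⟩
        rw [h]; exact hj0
      · intro j _ hj
        refine ind_false fun h => ?_
        cases j with
        | none => exact (h a0) hc
        | some j1 =>
          have hne : j1 ≠ j0 := fun h' => hj (by rw [h'])
          rcases lt_or_gt_of_ne hne with h1 | h1
          · exact (h j1).2.2 rfl (hmin j1 h1)
          · exact hj0 ((h j0).2.1 h1)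
      · intro h; exact absurd (Finset.mem_univ _) h
  · rw [ind_false (fun h => hc h.1), sub_zero, Finset.sum_eq_single none]
    · exact ind_true fun i => hc
    · intro j _ hj
      cases j with
      | none => exact absurd rfl hj
      | some j0 => exact ind_false fun h => hc (h a0).1
    · intro h; exact absurd (Finset.mem_univ _) h

/-- the pointwise estimate -/
theorem inca_val {k : ℕ} (a0 : Fin k) {Ω : Type} [Fintype Ω] [Nonempty Ω]
    (B : Word (k + 1) → Ω → Prop) (c : Word (k + 1)) (P : Fin (k + 1) → Word (k + 1))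
    (x : Word (k + 1)) {b γ' : ℝ} (hb : b ≤ Ex (fun ω => ind (B (P (Fin.last k) ++ x) ω)))
    (hno : ∀ ω, B c ω → (∀ i : Fin k, B (P i.castSucc ++ rep i x) ω) →
      ¬ B (P (Fin.last k) ++ x) ω) :
    b - γ' * (1 - Ex (fun ω => ind (B c ω ∧ ∀ i : Fin k, B (P i.castSucc ++ rep i x) ω))) ≤
      ∑ j : Option (Fin k), Val B c P γ' j x := by
  classical
  have h1 : ∑ j : Option (Fin k), Val B c P γ' j x =
      Ex (fun ω => (ind (B (P (Fin.last k) ++ x) ω) - γ') *
        (1 - ind (B c ω ∧ ∀ i : Fin k, B (P i.castSucc ++ rep i x) ω))) := by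
    unfold Val
    rw [← Ex_sum]
    congr 1
    funext ω
    rw [← Finset.mul_sum, inca_sum a0]
  have h2 : ∀ ω, (ind (B (P (Fin.last k) ++ x) ω) - γ') *
      (1 - ind (B c ω ∧ ∀ i : Fin k, B (P i.castSucc ++ rep i x) ω)) =
      ind (B (P (Fin.last k) ++ x) ω) -
        γ' * (1 - ind (B c ω ∧ ∀ i : Fin k, B (P i.castSucc ++ rep i x) ω)) := by
    intro ω
    by_cases hall : B c ω ∧ ∀ i : Fin k, B (P i.castSucc ++ rep i x) ω
    · rw [ind_true hall, ind_false (hno ω hall.1 hall.2)]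
      ring
    · rw [ind_false hall]
      ring
  rw [h1]
  simp only [h2]
  rw [Ex_sub, Ex_mul_left, Ex_sub, Ex_const]
  linarith

theorem inc_core {k : ℕ} (a0 : Fin k) (hD : D1 k) {γ : ℝ} (hγ : 0 < γ) :
    ∃ (N0 : ℕ) (ρ : ℝ), 0 < ρ ∧ ρ ≤ 1 ∧ ∀ M : ℕ, 0 < M →
      ∀ (Ω : Type) [Fintype Ω] [Nonempty Ω] (B : Word (k + 1) → Ω → Prop),
      LineFree (N0 * M + M) B → Bd (N0 * M + M) (γ - γ * ρ / 4) B →
      ∃ (c : Word (k + 1)) (P : Fin (k + 1) → Word (k + 1)) (κ : Fin k ⊕ Fin N0 → Fin (k + 1))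
        (j : Option (Fin k)), Function.Surjective κ ∧ (P (Fin.last k)).length ≤ N0 * M ∧
        γ * ρ / (2 * (k + 1)) ≤ Ex (fun p : Fin M × (Fin M → Fin k ⊕ Fin N0) =>
          Val B c P (γ + γ * ρ / 4) j (((List.ofFn p.2).take p.1).map κ)) := by
  classical
  obtain ⟨N0, ρ0, hρ0, hq⟩ := quant_line hD (β := γ / 2) (by linarith)
  set ρ : ℝ := min ρ0 1 with hρ
  have hρpos : 0 < ρ := lt_min hρ0 one_pos
  have hρ1 : ρ ≤ 1 := min_le_right _ _
  refine ⟨N0, ρ, hρpos, hρ1, ?_⟩
  intro M hM Ω _ _ B hLF hBd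
  have hMne : Nonempty (Fin M) := ⟨⟨0, hM⟩⟩
  have hΓne : Nonempty (Fin k ⊕ Fin N0) := ⟨Sum.inl a0⟩
  have hγρ : γ * ρ ≤ γ := mul_le_of_le_one_right hγ.le hρ1
  have hγρ0 : 0 < γ * ρ := mul_pos hγ hρpos
  let val : Fin M × (Fin M → Fin k ⊕ Fin N0) → List (Fin k ⊕ Fin N0) :=
    fun p => (List.ofFn p.2).take p.1
  have hval : ∀ p, (val p).length + 1 ≤ M := by
    intro p
    have h1 : (val p).length = min (p.1 : ℕ) M := by
      simp only [val, List.length_take, List.length_ofFn]
    have h2 := p.1.2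
    omega
  let yy : (Fin N0 → Fin M × (Fin M → Fin k ⊕ Fin N0)) → ℕ → List (Fin k ⊕ Fin N0) :=
    fun y j => if h : j < N0 then val (y ⟨j, h⟩) else []
  have hyy : ∀ y j, (yy y j).length + 1 ≤ M := by
    intro y j
    by_cases h : j < N0
    · simp only [yy, dif_pos h]
      exact hval _
    · simp only [yy, dif_neg h, List.length_nil]
      omega
  have hsum : ∀ y n, ∑ j ∈ Finset.range n, ((yy y j).length + 1) ≤ n * M := by
    intro y n
    refine (Finset.sum_le_sum fun j _ => hyy y j).trans ?_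
    rw [Finset.sum_const, Finset.card_range, smul_eq_mul]
  have hlen : ∀ (y) (z : Word k), z.length ≤ N0 →
      (PsiK a0 (yy y) (z.map Fin.castSucc)).length ≤ N0 * M := by
    intro y z hz
    rw [length_PsiK, List.length_map]
    exact (hsum y _).trans (Nat.mul_le_mul_right _ hz)
  -- the system over the small alphabet
  have hE : Bd N0 (γ / 2) (fun (z : Word k)
      (p : Ω × (Fin N0 → Fin M × (Fin M → Fin k ⊕ Fin N0))) =>
        B (PsiK a0 (yy p.2) (z.map Fin.castSucc)) p.1) := by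
    intro z hz
    rw [Ex_prod, Ex_comm]
    refine le_Ex_of_le fun y => ?_
    have h1 := hBd (PsiK a0 (yy y) (z.map Fin.castSucc)) ((hlen y z hz).trans (Nat.le_add_right _ _))
    linarith
  obtain ⟨c0, w0, hcw, hmain⟩ := hq _ _ hE
  set e1 : ℕ := c0.length + w0.length with he1
  have he1N : e1 < N0 := by omega
  let e : Fin N0 := ⟨e1, he1N⟩
  rw [Ex_prod, Ex_comm, Ex_update _ e] at hmain
  obtain ⟨ys, hys⟩ := exists_Ex_le (fun y : Fin N0 → Fin M × (Fin M → Fin k ⊕ Fin N0) =>
    Ex (fun x => (fun b => Ex (fun a => ind (B (PsiK a0 (yy b) (c0.map Fin.castSucc)) a ∧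
      ∀ a_1 : Fin k, B (PsiK a0 (yy b) ((c0 ++ a_1 :: sub a_1 w0).map Fin.castSucc)) a)))
      (Function.update y e x)))
  have hmain2 := hmain.trans hys
  obtain ⟨c, P, κ, hκ, hPlen, hPsi⟩ := psi_line a0 c0 w0 hcw (yy ys)
  have hupd : ∀ p, yy (Function.update ys e p) = Function.update (yy ys) e1 (val p) := by
    intro p
    funext j
    by_cases hj : j = e1
    · subst hj
      rw [Function.update_self]
      simp only [yy, dif_pos he1N]
      have : (⟨e1, he1N⟩ : Fin N0) = e := rfl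
      rw [this, Function.update_self]
    · rw [Function.update_of_ne hj]
      by_cases h : j < N0
      · simp only [yy, dif_pos h]
        rw [Function.update_of_ne]
        intro h'
        exact hj (congrArg Fin.val h')
      · simp only [yy, dif_neg h]
  have hPl : (P (Fin.last k)).length ≤ N0 * M := by
    rw [hPlen, ← he1]
    have h1 := hsum ys e1
    have h2 : (e1 + 1) * M ≤ N0 * M := Nat.mul_le_mul_right _ (by omega)
    have h3 : (e1 + 1) * M = e1 * M + M := by ring
    omega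
  -- the averages of the intersections
  have hψ : ρ ≤ Ex (fun p : Fin M × (Fin M → Fin k ⊕ Fin N0) => Ex (fun ω => ind (B c ω ∧
      ∀ i : Fin k, B (P i.castSucc ++ rep i ((val p).map κ)) ω))) := by
    refine (min_le_left _ _).trans (hmain2.trans (le_of_eq ?_))
    congr 1
    funext p
    simp only [hupd p]
    congr 1
    funext ω
    refine ind_congr (and_congr ?_ (forall_congr' fun i => ?_))
    · rw [(hPsi (val p)).1]
    · rw [(hPsi (val p)).2.1 i]
  -- pointwise estimate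
  have hpt : ∀ p : Fin M × (Fin M → Fin k ⊕ Fin N0),
      (γ - γ * ρ / 4) - (γ + γ * ρ / 4) * (1 - Ex (fun ω => ind (B c ω ∧
        ∀ i : Fin k, B (P i.castSucc ++ rep i ((val p).map κ)) ω))) ≤
      ∑ j : Option (Fin k), Val B c P (γ + γ * ρ / 4) j ((val p).map κ) := by
    intro p
    obtain ⟨-, -, W, hW1, hW2, hW3⟩ := hPsi (val p)
    have hvp := hval p
    refine inca_val a0 B c P _ (hBd _ ?_) ?_
    · rw [List.length_append, List.length_map]
      omega
    · intro ω hc hall hlast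
      refine hLF c W ω ?_ hc ?_
      · rw [hW1]; omega
      · intro a
        refine Fin.lastCases ?_ (fun i => ?_) a
        · rw [← hW2]; exact hlast
        · rw [← hW3 i]; exact hall i
  have hav : γ * ρ / 2 ≤ ∑ j : Option (Fin k), Ex (fun p : Fin M × (Fin M → Fin k ⊕ Fin N0) =>
      Val B c P (γ + γ * ρ / 4) j ((val p).map κ)) := by
    rw [← Ex_sum]
    refine le_trans ?_ (Ex_mono hpt)
    rw [Ex_sub, Ex_const, Ex_mul_left, Ex_sub, Ex_const]
    have h1 : γ * ρ ≤ γ * Ex (fun p : Fin M × (Fin M → Fin k ⊕ Fin N0) => Ex (fun ω => ind (B c ω ∧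
      ∀ i : Fin k, B (P i.castSucc ++ rep i ((val p).map κ)) ω))) :=
      mul_le_mul_of_nonneg_left hψ hγ.le
    have h2 : 0 ≤ γ * ρ / 4 * Ex (fun p : Fin M × (Fin M → Fin k ⊕ Fin N0) => Ex (fun ω =>
      ind (B c ω ∧ ∀ i : Fin k, B (P i.castSucc ++ rep i ((val p).map κ)) ω))) :=
      mul_nonneg (by linarith) (Ex_nonneg fun p => Ex_nonneg fun ω => ind_nonneg _)
    nlinarith
  have hj : ∃ j : Option (Fin k), γ * ρ / (2 * (k + 1)) ≤
      Ex (fun p : Fin M × (Fin M → Fin k ⊕ Fin N0) =>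
        Val B c P (γ + γ * ρ / 4) j ((val p).map κ)) := by
    by_contra hcon
    push Not at hcon
    have h1 : ∑ j : Option (Fin k), Ex (fun p : Fin M × (Fin M → Fin k ⊕ Fin N0) =>
        Val B c P (γ + γ * ρ / 4) j ((val p).map κ)) <
        ∑ _j : Option (Fin k), γ * ρ / (2 * (k + 1)) :=
      Finset.sum_lt_sum_of_nonempty ⟨none, Finset.mem_univ _⟩ fun j _ => hcon j
    rw [Finset.sum_const, Finset.card_univ, Fintype.card_option, Fintype.card_fin, nsmul_eq_mul]
      at h1
    have h2 : ((k + 1 : ℕ) : ℝ) * (γ * ρ / (2 * (k + 1))) = γ * ρ / 2 := by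
      push_cast
      field_simp
    rw [h2] at h1
    linarith
  obtain ⟨j, hj⟩ := hj
  exact ⟨c, P, κ, j, hκ, hPl, hj⟩

end OVW
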