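import Pool.Agent.H3.OVW.Fill
import Pool.Agent.H3.OVW.Bessel

/-! MODULE RT (project MP_d1c297_lc): random trees.

`U = (Fin (n+1) → Fin G) × (Fin L → Γ)` with `L = e ((n+1) G)`; for `(g, y)` let `m = lev e g`, `x p = κ (y p)` for `p < L`
(any letter for `p ≥ L`), `u0 = fill0 m x`, `u = fillv m x`, so that `tnode (u0 _) (u _) q = fill m x q` (module FILL).
Fix `q`, `r = q.length ≤ n`.  Claim: for fixed `g r` (so fixed `ℓ = m r = e (r G + g r)`),
  `|Ex_{g, y} ψ (fill m x q) - Ex_{y : Fin ℓ → Γ} ψ (ofFn (κ ∘ y))| ≤ r √(|Γ|/G)`: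
remove the forced letters one after the other; for the `j`-th one (`j < r`) the position is `e (j G + g j)`, `g j` uniform in
`Fin G`, everything else fixed: `force_one` with `H` = `ψ` of the word with the other letters still forced (they are at other
positions, so the updates commute).  Then average over `g r`. -/

namespace OVW

open scoped BigOperators

/-- extension by a default letter -/
def rtExt {A : Type} (a0 : A) {L : ℕ} (z : Fin L → A) (p : ℕ) : A :=
  if h : p < L then z ⟨p, h⟩ else a0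

theorem rtExt_update {A : Type} (a0 : A) {L : ℕ} (z : Fin L → A) (π : Fin L) (a : A) :
    rtExt a0 (Function.update z π a) = Function.update (rtExt a0 z) (π : ℕ) a := by
  funext p
  by_cases hp : p = (π : ℕ)
  · subst hp
    rw [Function.update_self]
    unfold rtExt
    rw [dif_pos π.2, Fin.eta, Function.update_self]
  · rw [Function.update_of_ne hp]
    unfold rtExt
    by_cases h : p < L
    · rw [dif_pos h, dif_pos h, Function.update_of_ne]
      intro h'
      exact hp (congrArg Fin.val h')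
    · rw [dif_neg h, dif_neg h]

theorem rt_range_map {A : Type} (a0 : A) {L ℓ : ℕ} (h : ℓ ≤ L) (z : Fin L → A) :
    (List.range ℓ).map (rtExt a0 z) = List.ofFn (fun i : Fin ℓ => z (Fin.castLE h i)) := by
  apply List.ext_getElem
  · simp
  · intro i h1 h2
    have hi : i < ℓ := by simpa using h1
    rw [List.getElem_map, List.getElem_range, List.getElem_ofFn]
    unfold rtExt
    rw [dif_pos (lt_of_lt_of_le hi h)]
    rfl

theorem rt_upd_append {A : Type} (m : ℕ → ℕ) (l : List A) (a : A) (x : ℕ → A) :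
    upd m (l ++ [a]) x = upd m l (Function.update x (m l.length) a) := by
  induction l generalizing m with
  | nil => rfl
  | cons b l ih =>
    change Function.update (upd (fun i => m (i + 1)) (l ++ [a]) x) (m 0) b = _
    rw [ih]
    rfl

theorem rt_upd_congr {A : Type} (m m' : ℕ → ℕ) (l : List A) (x : ℕ → A)
    (h : ∀ j < l.length, m j = m' j) : upd m l x = upd m' l x := by
  induction l generalizing m m' with
  | nil => rfl
  | cons b l ih =>
    change Function.update (upd (fun i => m (i + 1)) l x) (m 0) b =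
      Function.update (upd (fun i => m' (i + 1)) l x) (m' 0) b
    rw [ih (fun i => m (i + 1)) (fun i => m' (i + 1))
      (fun j hj => h (j + 1) (by simpa using hj)), h 0 (by simp)]

theorem rt_lev_update_ne (e : ℕ → ℕ) {n G : ℕ} (g : Fin (n + 1) → Fin G) (s : Fin (n + 1))
    (g' : Fin G) (j : ℕ) (hj : j ≠ (s : ℕ)) : lev e (Function.update g s g') j = lev e g j := by
  unfold lev gext
  by_cases h : j < n + 1
  · rw [dif_pos h, dif_pos h, Function.update_of_ne]
    intro h'
    exact hj (congrArg Fin.val h')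
  · rw [dif_neg h, dif_neg h]

theorem rt_lev_update_self (e : ℕ → ℕ) {n G : ℕ} (g : Fin (n + 1) → Fin G) (s : Fin (n + 1))
    (g' : Fin G) : lev e (Function.update g s g') s = e (s * G + g') := by
  unfold lev gext
  rw [dif_pos s.2, Fin.eta, Function.update_self]

/-- the average with the first `s` letters forced -/
noncomputable def rtA {k : ℕ} {Γ : Type} [Fintype Γ] (κ : Γ → Fin k) (n G : ℕ) (e : ℕ → ℕ)
    (ψ : Word k → ℝ) (a0 : Fin k) (r : ℕ) (q : Word k) : ℝ :=
  Ex (fun g : Fin (n + 1) → Fin G => Ex (fun y : Fin (e ((n + 1) * G)) → Γ =>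
    ψ ((List.range (lev e g r)).map (upd (lev e g) q (rtExt a0 (fun i => κ (y i)))))))

theorem rt_step {k : ℕ} {Γ : Type} [Fintype Γ] [Nonempty Γ] (κ : Γ → Fin k)
    (hκ : Function.Surjective κ) (n G : ℕ) (hG : 0 < G) (e : ℕ → ℕ) (he : StrictMono e)
    (ψ : Word k → ℝ) (hψ : ∀ x, |ψ x| ≤ 1) (a0 : Fin k) (r : ℕ) (hr : r ≤ n) (l : Word k)
    (a : Fin k) (hl : l.length < r) :
    |rtA κ n G e ψ a0 r (l ++ [a]) - rtA κ n G e ψ a0 r l| ≤
      Real.sqrt ((Fintype.card Γ : ℝ) / G) := by
  have : Nonempty (Fin G) := ⟨⟨0, hG⟩⟩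
  set s : Fin (n + 1) := ⟨l.length, by omega⟩ with hs
  have hlt : ∀ g' : Fin G, e (l.length * G + g') < e ((n + 1) * G) := by
    intro g'
    apply he
    have h1 : (g' : ℕ) < G := g'.2
    have h2 : (l.length + 1) * G ≤ (n + 1) * G := Nat.mul_le_mul_right G (by omega)
    have h3 : (l.length + 1) * G = l.length * G + G := by ring
    omega
  let P : Fin G → Fin (e ((n + 1) * G)) := fun g' => ⟨e (l.length * G + g'), hlt g'⟩
  have hP : Function.Injective P := by
    intro g1 g2 h
    have h1 : e (l.length * G + g1) = e (l.length * G + g2) := congrArg Fin.val h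
    have h2 := he.injective h1
    exact Fin.ext (by omega)
  unfold rtA
  rw [Ex_update (fun g : Fin (n + 1) → Fin G => Ex (fun y : Fin (e ((n + 1) * G)) → Γ =>
    ψ ((List.range (lev e g r)).map (upd (lev e g) (l ++ [a]) (rtExt a0 (fun i => κ (y i))))))) s,
    Ex_update (fun g : Fin (n + 1) → Fin G => Ex (fun y : Fin (e ((n + 1) * G)) → Γ =>
    ψ ((List.range (lev e g r)).map (upd (lev e g) l (rtExt a0 (fun i => κ (y i))))))) s,
    ← Ex_sub]
  refine abs_Ex_le fun g => ?_
  let H : (Fin (e ((n + 1) * G)) → Fin k) → ℝ := fun z =>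
    ψ ((List.range (lev e g r)).map (upd (lev e g) l (rtExt a0 z)))
  have hr' : r ≠ (s : ℕ) := by
    have : (s : ℕ) = l.length := rfl
    omega
  have hupd : ∀ (g' : Fin G) (x : ℕ → Fin k),
      upd (lev e (Function.update g s g')) l x = upd (lev e g) l x := by
    intro g' x
    apply rt_upd_congr
    intro j hj
    apply rt_lev_update_ne
    have : (s : ℕ) = l.length := rfl
    omega
  have h1 : ∀ g' : Fin G, Ex (fun y : Fin (e ((n + 1) * G)) → Γ =>
      ψ ((List.range (lev e (Function.update g s g') r)).map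
        (upd (lev e (Function.update g s g')) (l ++ [a]) (rtExt a0 (fun i => κ (y i)))))) =
      Ex (fun y : Fin (e ((n + 1) * G)) → Γ =>
        H (Function.update (fun i => κ (y i)) (P g') a)) := by
    intro g'
    congr 1
    funext y
    change _ = ψ ((List.range (lev e g r)).map (upd (lev e g) l (rtExt a0
      (Function.update (fun i => κ (y i)) (P g') a))))
    rw [rt_upd_append, hupd, rt_lev_update_ne e g s g' r hr', rtExt_update]
    have h2 : lev e (Function.update g s g') l.length = (P g' : ℕ) :=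
      rt_lev_update_self e g s g'
    rw [h2]
  have h2 : ∀ g' : Fin G, Ex (fun y : Fin (e ((n + 1) * G)) → Γ =>
      ψ ((List.range (lev e (Function.update g s g') r)).map
        (upd (lev e (Function.update g s g')) l (rtExt a0 (fun i => κ (y i)))))) =
      Ex (fun y : Fin (e ((n + 1) * G)) → Γ => H (fun i => κ (y i))) := by
    intro g'
    congr 1
    funext y
    rw [hupd, rt_lev_update_ne e g s g' r hr']
  rw [funext h1, funext h2, Ex_const]
  obtain ⟨b, hb⟩ := hκ a
  exact force_one κ a ⟨b, hb⟩ _ G hG P hP H (fun z => hψ _)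

theorem rt_all {k : ℕ} {Γ : Type} [Fintype Γ] [Nonempty Γ] (κ : Γ → Fin k)
    (hκ : Function.Surjective κ) (n G : ℕ) (hG : 0 < G) (e : ℕ → ℕ) (he : StrictMono e)
    (ψ : Word k → ℝ) (hψ : ∀ x, |ψ x| ≤ 1) (a0 : Fin k) (r : ℕ) (hr : r ≤ n) (q : Word k)
    (hq : q.length ≤ r) :
    rtA κ n G e ψ a0 r [] - q.length * Real.sqrt ((Fintype.card Γ : ℝ) / G) ≤
      rtA κ n G e ψ a0 r q := by
  induction q using List.reverseRecOn with
  | nil => simp
  | append_singleton l a ih =>
    have hl : l.length < r := by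
      rw [List.length_append, List.length_singleton] at hq
      omega
    have h1 := ih hl.le
    have h2 := (abs_le.1 (rt_step κ hκ n G hG e he ψ hψ a0 r hr l a hl)).1
    rw [List.length_append, List.length_singleton]
    push_cast
    linarith

theorem RT {k : ℕ} {Γ : Type} [Fintype Γ] [Nonempty Γ] (κ : Γ → Fin k)
    (hκ : Function.Surjective κ) (n G : ℕ) (hG : 0 < G) (e : ℕ → ℕ) (he : StrictMono e)
    (ψ : Word k → ℝ) (hψ : ∀ x, |ψ x| ≤ 1) (τ : ℝ)
    (h : ∀ t < (n + 1) * G, τ ≤ Ex (fun y : Fin (e t) → Γ => ψ (List.ofFn (fun i => κ (y i))))) :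
    ∃ (U : Type) (_ : Fintype U) (_ : Nonempty U) (u0 : U → Word k) (u : U → ℕ → XWord k),
      (∀ x j, j ≤ n → tlen (u0 x) (u x) j < e ((n + 1) * G)) ∧
      ∀ q : Word k, q.length ≤ n →
        τ - n * Real.sqrt ((Fintype.card Γ : ℝ) / G) ≤ Ex (fun x => ψ (tnode (u0 x) (u x) q)) := by
  have hGne : Nonempty (Fin G) := ⟨⟨0, hG⟩⟩
  obtain ⟨γ0⟩ := (inferInstance : Nonempty Γ)
  refine ⟨(Fin (n + 1) → Fin G) × (Fin (e ((n + 1) * G)) → Γ), inferInstance, inferInstance,
    fun p => fill0 (lev e p.1) (rtExt (κ γ0) (fun i => κ (p.2 i))),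
    fun p => fillv (lev e p.1) (rtExt (κ γ0) (fun i => κ (p.2 i))), ?_, ?_⟩
  · intro x j hj
    rw [tlen_fill (lev_strictMono he hG x.1)]
    exact lev_lt he hG x.1 hj
  · intro q hq
    have h1 := rt_all κ hκ n G hG e he ψ hψ (κ γ0) q.length hq q le_rfl
    have h2 : τ ≤ rtA κ n G e ψ (κ γ0) q.length [] := by
      refine le_Ex_of_le fun g => ?_
      have hlt : q.length * G + gext g q.length < (n + 1) * G := by
        unfold gext
        rw [dif_pos (by omega : q.length < n + 1)]
        have h3 : ((g ⟨q.length, by omega⟩ : Fin G) : ℕ) < G := (g _).2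
        have h4 : (q.length + 1) * G ≤ (n + 1) * G := Nat.mul_le_mul_right G (by omega)
        have h5 : (q.length + 1) * G = q.length * G + G := by ring
        omega
      have h3 : τ ≤ Ex (fun y : Fin (lev e g q.length) → Γ =>
          ψ (List.ofFn (fun i => κ (y i)))) := h _ hlt
      have hle : lev e g q.length ≤ e ((n + 1) * G) := (lev_lt he hG g hq).le
      refine h3.trans (le_of_eq ?_)
      rw [← Ex_castLE (X := Γ) hle (fun y => ψ (List.ofFn (fun i => κ (y i))))]
      congr 1
      funext y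
      change _ = ψ ((List.range (lev e g q.length)).map (rtExt (κ γ0) (fun i => κ (y i))))
      rw [rt_range_map (κ γ0) hle (fun i => κ (y i))]
    have h3 : (q.length : ℝ) * Real.sqrt ((Fintype.card Γ : ℝ) / G) ≤
        n * Real.sqrt ((Fintype.card Γ : ℝ) / G) := by
      refine mul_le_mul_of_nonneg_right ?_ (Real.sqrt_nonneg _)
      exact_mod_cast hq
    have h4 : Ex (fun x : (Fin (n + 1) → Fin G) × (Fin (e ((n + 1) * G)) → Γ) =>
        ψ (tnode (fill0 (lev e x.1) (rtExt (κ γ0) (fun i => κ (x.2 i))))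
          (fillv (lev e x.1) (rtExt (κ γ0) (fun i => κ (x.2 i)))) q)) =
        rtA κ n G e ψ (κ γ0) q.length q := by
      rw [Ex_prod]
      unfold rtA
      congr 1
      funext g
      congr 1
      funext y
      rw [← fill_eq (lev_strictMono he hG g)]
      rfl
    rw [h4]
    linarith

/-- choice of a strictly increasing enumeration hitting a large finite set of levels -/
theorem exists_enum (M : Finset ℕ) (T : ℕ) (hT : T ≤ M.card) :
    ∃ e : ℕ → ℕ, StrictMono e ∧ ∀ t < T, e t ∈ M := by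
  refine ⟨fun t => if h : t < M.card then M.orderEmbOfFin rfl ⟨t, h⟩ else M.sup id + 1 + t,
    ?_, ?_⟩
  · apply strictMono_nat_of_lt_succ
    intro t
    by_cases h1 : t + 1 < M.card
    · rw [dif_pos h1, dif_pos (by omega : t < M.card)]
      exact (M.orderEmbOfFin rfl).strictMono (Fin.mk_lt_mk.2 (Nat.lt_succ_self t))
    · rw [dif_neg h1]
      by_cases h2 : t < M.card
      · rw [dif_pos h2]
        have h3 : M.orderEmbOfFin rfl ⟨t, h2⟩ ≤ M.sup id :=
          Finset.le_sup (f := id) (M.orderEmbOfFin_mem rfl ⟨t, h2⟩)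
        omega
      · rw [dif_neg h2]
        omega
  · intro t ht
    change (if h : t < M.card then M.orderEmbOfFin rfl ⟨t, h⟩ else M.sup id + 1 + t) ∈ M
    rw [dif_pos (by omega : t < M.card)]
    exact M.orderEmbOfFin_mem rfl _

/-- choice of `G`: the error of `RT` is `≤ ε` -/
theorem exists_G (c : ℕ) (n : ℕ) {ε : ℝ} (hε : 0 < ε) :
    ∃ G : ℕ, 0 < G ∧ n * Real.sqrt ((c : ℝ) / G) ≤ ε := by
  obtain ⟨G, hG⟩ := exists_nat_gt ((n : ℝ) ^ 2 * c / ε ^ 2)
  have h0 : (0 : ℝ) ≤ (n : ℝ) ^ 2 * c / ε ^ 2 := by positivity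
  have hG0 : (0 : ℝ) < G := lt_of_le_of_lt h0 hG
  refine ⟨G, by exact_mod_cast hG0, ?_⟩
  have h1 : (n : ℝ) ^ 2 * c ≤ ε ^ 2 * G := by
    rw [div_lt_iff₀ (by positivity)] at hG
    nlinarith
  have h2 : (n : ℝ) * Real.sqrt ((c : ℝ) / G) = Real.sqrt ((n : ℝ) ^ 2 * (c / G)) := by
    rw [Real.sqrt_mul (by positivity), Real.sqrt_sq (Nat.cast_nonneg n)]
  rw [h2]
  apply Real.sqrt_le_iff.2
  refine ⟨hε.le, ?_⟩
  rw [← mul_div_assoc, div_le_iff₀ hG0]
  exact h1

end OVW
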