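import Pool.Agent.H3.OVW.IncA
import Pool.Agent.H3.OVW.RT
import Pool.Agent.H3.OVW.GP

/-! MODULE INCB (project MP_d1c297_lc): the density increment.

First `γ ≤ 1` (from `Sys (k+1) (γ - ε)` for all `ε`, since probabilities are `≤ 1`).  `(N0, ρ)` from `inc_core`; `η = γρ/4`,
`τ' = γρ/(4(k+1))`, answer `τ = τ'/2`.  Given the depth `n`: `Γ = Fin k ⊕ Fin N0`; `G` with `n √(|Γ|/G) ≤ τ'/4` (`exists_G`); `M` with
`τ' M ≥ (n+1) G + 1`, a line free `(Ω, B)` of depth `N0 M + M` with bound `γ - γρ/4` from `hS`; `inc_core` gives `c, P, κ, j`.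
`val x = Val B c P (γ+η) j x`, `|val x| ≤ 2`, `val x ≤ 1`.  By `Ex_prod`, `(ofFn y).take m = ofFn (y ∘ castLE)`, `Ex_castLE`:
average over `m < M` of `Ex_{y : Fin m → Γ} val (ofFn (κ ∘ y))` is `≥ 2τ'`, so (`Ex_markov`) at least `τ' M` levels `m < M` have
`Ex_y val (ofFn (κ∘y)) ≥ τ'`; `exists_enum` (`T = (n+1)G+1`) and `RT` with `ψ = val/2`: random tree `(U, u0, u)` of depth `n`, total length `< M`, with
`Ex_x val (tnode (u0 x) (u x) q) ≥ τ' - 2 n √(|Γ|/G) ≥ τ'/2`.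
New system on `Ω × U` (`Ex_prod`, `Ex_comm`): `B~_q (ω, x) = B (P last ++ tnode (u0 x) (u x) q) ω`, `D~_i q (ω, x) = Dj B c P j i (tnode … q) ω`.
Line free: `LineFree.tnode` for the tree with root `P last ++ u0 x`.  Insensitive: `Dj` depends on the word only through `rep i x`
and `rep_tnode`. -/

namespace OVW

open scoped BigOperators

theorem incb_le {k : ℕ} {Ω : Type} [Fintype Ω] [Nonempty Ω] (B : Word (k + 1) → Ω → Prop)
    (c : Word (k + 1)) (P : Fin (k + 1) → Word (k + 1)) {γ' : ℝ} (h0 : 0 ≤ γ')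
    (j : Option (Fin k)) (x : Word (k + 1)) : Val B c P γ' j x ≤ 1 := by
  unfold Val
  refine Ex_le_of_le fun ω => ?_
  rw [inca_prod]
  have h1 := ind_nonneg (B (P (Fin.last k) ++ x) ω)
  have h2 := ind_le_one (B (P (Fin.last k) ++ x) ω)
  have h3 := ind_nonneg (∀ i, Dj B c P j i x ω)
  have h4 := ind_le_one (∀ i, Dj B c P j i x ω)
  nlinarith [mul_nonneg h0 h3, mul_nonneg h1 h3, mul_nonneg (sub_nonneg.2 h2) h3]

theorem incb_abs {k : ℕ} {Ω : Type} [Fintype Ω] [Nonempty Ω] (B : Word (k + 1) → Ω → Prop)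
    (c : Word (k + 1)) (P : Fin (k + 1) → Word (k + 1)) {γ' : ℝ} (h0 : 0 ≤ γ') (h1 : γ' ≤ 2)
    (j : Option (Fin k)) (x : Word (k + 1)) : |Val B c P γ' j x| ≤ 2 := by
  unfold Val
  refine abs_Ex_le fun ω => ?_
  rw [inca_prod, abs_mul]
  have h2 := ind_nonneg (B (P (Fin.last k) ++ x) ω)
  have h3 := ind_le_one (B (P (Fin.last k) ++ x) ω)
  have h4 := ind_nonneg (∀ i, Dj B c P j i x ω)
  have h5 := ind_le_one (∀ i, Dj B c P j i x ω)
  have h6 : |ind (B (P (Fin.last k) ++ x) ω) - γ'| ≤ 2 := by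
    rw [abs_le]
    constructor <;> linarith
  have h7 : |ind (∀ i, Dj B c P j i x ω)| ≤ 1 := by
    rw [abs_of_nonneg h4]; exact h5
  calc |ind (B (P (Fin.last k) ++ x) ω) - γ'| * |ind (∀ i, Dj B c P j i x ω)|
      ≤ 2 * 1 := mul_le_mul h6 h7 (abs_nonneg _) (by norm_num)
    _ = 2 := by norm_num

theorem incb_take {X Y : Type} {M m : ℕ} (h : m ≤ M) (κ : X → Y) (y : Fin M → X) :
    ((List.ofFn y).take m).map κ = List.ofFn (fun i : Fin m => κ (y (Fin.castLE h i))) := by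
  apply List.ext_getElem
  · simp [h]
  · intro i h1 h2
    simp

/-- the averaged form gives many good levels -/
theorem incb_levels {k : ℕ} {Γ : Type} [Fintype Γ] [Nonempty Γ] (κ : Γ → Fin (k + 1))
    (f : Word (k + 1) → ℝ) (hf : ∀ x, f x ≤ 1) {τ : ℝ} (hτ : 0 ≤ τ) (M : ℕ) (hM : 0 < M)
    (h : 2 * τ ≤ Ex (fun p : Fin M × (Fin M → Γ) => f (((List.ofFn p.2).take p.1).map κ)))
    (T : ℕ) (hT : (T : ℝ) ≤ τ * M) :
    ∃ S : Finset ℕ, T ≤ S.card ∧ ∀ m ∈ S, m < M ∧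
      τ ≤ Ex (fun y : Fin m → Γ => f (List.ofFn (fun i => κ (y i)))) := by
  classical
  have hne : Nonempty (Fin M) := ⟨⟨0, hM⟩⟩
  have h1 : Ex (fun p : Fin M × (Fin M → Γ) => f (((List.ofFn p.2).take p.1).map κ)) =
      Ex (fun m : Fin M => Ex (fun y : Fin m → Γ => f (List.ofFn (fun i => κ (y i))))) := by
    rw [Ex_prod]
    congr 1
    funext m
    rw [← Ex_castLE (le_of_lt m.2) (fun y : Fin m → Γ => f (List.ofFn (fun i => κ (y i))))]
    congr 1
    funext y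
    simp only
    rw [incb_take (le_of_lt m.2)]
  rw [h1] at h
  have h2 := Ex_markov hτ (fun m : Fin M => Ex_le_of_le fun y : Fin m → Γ =>
    hf (List.ofFn (fun i => κ (y i)))) h
  set Q : ℕ → Prop := fun m => τ ≤ Ex (fun y : Fin m → Γ => f (List.ofFn (fun i => κ (y i))))
    with hQ
  refine ⟨(Finset.univ.filter fun m : Fin M => Q m).map Fin.valEmbedding, ?_, ?_⟩
  · rw [Finset.card_map]
    have h3 : Ex (fun m : Fin M => ind (Q m)) =
        ((Finset.univ.filter fun m : Fin M => Q m).card : ℝ) / M := by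
      unfold Ex
      rw [Fintype.card_fin]
      congr 1
      have : ∀ m : Fin M, ind (Q m) = if Q m then (1 : ℝ) else 0 := by
        intro m
        by_cases hq : Q m
        · rw [ind_true hq, if_pos hq]
        · rw [ind_false hq, if_neg hq]
      simp only [this]
      rw [Finset.sum_boole]
      congr!
    have h4 : τ ≤ ((Finset.univ.filter fun m : Fin M => Q m).card : ℝ) / M := by
      rw [← h3]; exact h2
    have hM' : (0 : ℝ) < M := by exact_mod_cast hM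
    rw [le_div_iff₀ hM'] at h4
    exact_mod_cast hT.trans h4
  · intro m hm
    rw [Finset.mem_map] at hm
    obtain ⟨m', hm', rfl⟩ := hm
    exact ⟨m'.2, (Finset.mem_filter.1 hm').2⟩

theorem incb_insens {k : ℕ} {Ω U : Type} (B : Word (k + 1) → Ω → Prop)
    (c : Word (k + 1)) (P : Fin (k + 1) → Word (k + 1)) (j : Option (Fin k)) (i : Fin k)
    (u0 : U → Word (k + 1)) (u : U → ℕ → XWord (k + 1)) :
    Insens i (fun q (x : Ω × U) => Dj B c P j i (tnode (u0 x.2) (u x.2) q) x.1) := by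
  intro q x
  simp only
  have h := rep_tnode i (u0 x.2) (u x.2) q
  cases j with
  | none => exact Iff.rfl
  | some j0 =>
    simp only [Dj]
    rw [h]

theorem Inc {k : ℕ} (hk : 0 < k) (hD : D1 k) {γ : ℝ} (hγ : 0 < γ)
    (hS : ∀ ε : ℝ, 0 < ε → Sys (k + 1) (γ - ε)) :
    ∃ η τ : ℝ, 0 < η ∧ 0 < τ ∧ Pr k (γ + η) Finset.univ τ := by
  classical
  have hγ1 : γ ≤ 1 := by
    by_contra hcon
    push Not at hcon
    obtain ⟨Ω, hf, hn, B, -, hB⟩ := hS ((γ - 1) / 2) (by linarith) 0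
    have h1 := hB [] (le_refl _)
    have h2 : Ex (fun ω => ind (B [] ω)) ≤ 1 := Ex_le_of_le fun ω => ind_le_one _
    linarith
  let a0 : Fin k := ⟨0, hk⟩
  obtain ⟨N0, ρ, hρ, hρ1, hcore⟩ := inc_core a0 hD hγ
  have hk1 : (0 : ℝ) < (k : ℝ) + 1 := by positivity
  have hγρ : 0 < γ * ρ := mul_pos hγ hρ
  have hγρ1 : γ * ρ ≤ 1 := by nlinarith
  set τ' : ℝ := γ * ρ / (4 * (k + 1)) with hτ'
  have hτ'pos : 0 < τ' := by positivity
  have h2τ : 2 * τ' = γ * ρ / (2 * (k + 1)) := by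
    rw [hτ']; field_simp; ring
  refine ⟨γ * ρ / 4, τ' / 2, by positivity, by positivity, ?_⟩
  intro n
  have hΓne : Nonempty (Fin k ⊕ Fin N0) := ⟨Sum.inl a0⟩
  obtain ⟨G, hG, hGn⟩ := exists_G (Fintype.card (Fin k ⊕ Fin N0)) n (ε := τ' / 4) (by positivity)
  obtain ⟨M, hM⟩ := exists_nat_gt ((((n + 1) * G + 1 : ℕ) : ℝ) / τ')
  have hM2 : (((n + 1) * G + 1 : ℕ) : ℝ) ≤ τ' * M := by
    rw [div_lt_iff₀ hτ'pos] at hM
    linarith
  have hM0 : 0 < M := by
    rcases Nat.eq_zero_or_pos M with h | h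
    · subst h
      exfalso
      have : (0 : ℝ) ≤ (((n + 1) * G + 1 : ℕ) : ℝ) / τ' := by positivity
      rw [Nat.cast_zero] at hM
      linarith
    · exact h
  obtain ⟨Ω, hfin, hne, B, hLF, hBd⟩ := hS (γ * ρ / 4) (by positivity) (N0 * M + M)
  obtain ⟨c, P, κ, j, hκ, hP, hav⟩ := hcore M hM0 Ω B hLF hBd
  rw [← h2τ] at hav
  have hγ'0 : 0 ≤ γ + γ * ρ / 4 := by positivity
  have hγ'2 : γ + γ * ρ / 4 ≤ 2 := by linarith
  obtain ⟨S, hS1, hS2⟩ := incb_levels κ (fun x => Val B c P (γ + γ * ρ / 4) j x)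
    (fun x => incb_le B c P hγ'0 j x) hτ'pos.le M hM0 hav ((n + 1) * G + 1) hM2
  obtain ⟨e, he, heS⟩ := exists_enum S _ hS1
  obtain ⟨U, hUf, hUn, u0, u, hU1, hU2⟩ := RT κ hκ n G hG e he
    (fun x => Val B c P (γ + γ * ρ / 4) j x / 2)
    (fun x => by
      rw [abs_div, abs_of_pos (by norm_num : (0 : ℝ) < 2)]
      have := incb_abs B c P hγ'0 hγ'2 j x
      linarith) (τ' / 2)
    (fun t ht => by
      have h1 := (hS2 _ (heS t (by omega))).2
      have h2 : Ex (fun y : Fin (e t) → Fin k ⊕ Fin N0 =>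
          Val B c P (γ + γ * ρ / 4) j (List.ofFn (fun i => κ (y i))) / 2) =
          Ex (fun y : Fin (e t) → Fin k ⊕ Fin N0 =>
          Val B c P (γ + γ * ρ / 4) j (List.ofFn (fun i => κ (y i)))) / 2 := by
        simp only [div_eq_mul_inv]
        rw [Ex_mul_right]
      rw [h2]
      linarith)
  have heM : e ((n + 1) * G) < M := (hS2 _ (heS _ (Nat.lt_succ_self _))).1
  refine ⟨Ω × U, inferInstance, inferInstance,
    fun q x => B (P (Fin.last k) ++ tnode (u0 x.2) (u x.2) q) x.1,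
    fun i q x => Dj B c P j i (tnode (u0 x.2) (u x.2) q) x.1, ?_, ?_, ?_⟩
  · have h1 := LineFree.tnode (Ω' := Ω × U) (n := n) hLF Prod.fst
      (fun x => P (Fin.last k) ++ u0 x.2) (fun x => u x.2) (fun x => by
        have h1 := hU1 x.2 n (le_refl _)
        unfold tlen at h1 ⊢
        rw [List.length_append]
        omega)
    have h2 : (fun (q : Word (k + 1)) (x : Ω × U) =>
        B (P (Fin.last k) ++ tnode (u0 x.2) (u x.2) q) x.1) =
        (fun q x => B (tnode (P (Fin.last k) ++ u0 x.2) (u x.2) q) x.1) := by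
      funext q x
      simp only [tnode, List.append_assoc]
    rw [h2]
    exact h1
  · intro i
    exact incb_insens B c P j i u0 u
  · intro z hz
    rw [Ex_prod, Ex_comm]
    have h1 := hU2 z hz
    have h2 : Ex (fun x => Val B c P (γ + γ * ρ / 4) j (tnode (u0 x) (u x) z) / 2) =
        Ex (fun x => Val B c P (γ + γ * ρ / 4) j (tnode (u0 x) (u x) z)) / 2 := by
      simp only [div_eq_mul_inv]
      rw [Ex_mul_right]
    rw [h2] at h1
    have h3 : τ' / 2 ≤ Ex (fun x => Val B c P (γ + γ * ρ / 4) j (tnode (u0 x) (u x) z)) := by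
      linarith
    exact h3

end OVW
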