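import Pool.Agent.H3.OVW.Fill
import Pool.Agent.H3.OVW.Bessel

/-! MODULE INFL (project MP_d1c297_lc): influence of one letter, and of all letters `last`.

`gword i m b z = fill m (p ↦ if b p then last else i) z`.  One step: `z = z1 ++ last :: z2`, `z' = z1 ++ i :: z2`, `j = z1.length < N2`.
For fixed levels `gg j'` (`j' ≠ j`) the words `gword … z`, `gword … z'` are `h` of the word of length `m |z|` (not depending on `gg j`
because `|z| > j`) with bits `b`, letters `z_{j'}` forced at the other positions `m j'`, and the bit at position `m j = j G + gg j`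
(`lev id gg j`) forced to `true` resp. `false`: exactly `force_bit` (`P g = j G + g`).  So one step costs `≤ 2/√G` after averaging over `gg j`
(resample `gg j` with `Ex_update`, or split the average with `Ex_prod`).
`rep i z` is obtained from `z` by at most `z.length ≤ N2` such steps (induction: change the letters one after the other). -/

namespace OVW

open scoped BigOperators

def gword {k : ℕ} (i : Fin k) (m : ℕ → ℕ) (b : ℕ → Bool) (z : Word (k + 1)) : Word (k + 1) :=
  fill m (fun p => if b p then Fin.last k else i.castSucc) z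

def bext {L : ℕ} (b : Fin L → Bool) (p : ℕ) : Bool := if h : p < L then b ⟨p, h⟩ else false

section
variable {k : ℕ}

/-- letter given by a bit -/
def inflLet (i : Fin k) (a : Bool) : Fin (k + 1) := if a then Fin.last k else i.castSucc

theorem infl_lev_div {N2 G : ℕ} (hG : 0 < G) (gg : Fin (N2 + 1) → Fin G) (j : ℕ) :
    lev id gg j / G = j := by
  have h1 : gext gg j < G := by
    unfold gext
    split_ifs with h
    · exact (gg _).2
    · exact hG
  unfold lev
  rw [id, Nat.mul_comm, Nat.mul_add_div hG, Nat.div_eq_of_lt h1, Nat.add_zero]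

theorem infl_lev_inj {N2 G : ℕ} (hG : 0 < G) (gg : Fin (N2 + 1) → Fin G) :
    Function.Injective (lev id gg) := by
  intro a b hab
  rw [← infl_lev_div hG gg a, ← infl_lev_div hG gg b, hab]

theorem infl_lev_update {N2 G : ℕ} (gg : Fin (N2 + 1) → Fin G) (j : Fin (N2 + 1)) (g : Fin G)
    {j' : ℕ} (h : j' ≠ j) : lev id (Function.update gg j g) j' = lev id gg j' := by
  unfold lev gext
  by_cases h1 : j' < N2 + 1
  · have h2 : (⟨j', h1⟩ : Fin (N2 + 1)) ≠ j := by
      intro h3
      exact h (by rw [← h3])
    rw [dif_pos h1, dif_pos h1, Function.update_of_ne h2]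
  · rw [dif_neg h1, dif_neg h1]

theorem infl_lev_update_self {N2 G : ℕ} (gg : Fin (N2 + 1) → Fin G) (j : Fin (N2 + 1))
    (g : Fin G) : lev id (Function.update gg j g) j = j * G + g := by
  unfold lev gext
  have h1 : (j : ℕ) < N2 + 1 := j.2
  rw [dif_pos h1]
  have h2 : (⟨(j : ℕ), h1⟩ : Fin (N2 + 1)) = j := rfl
  rw [h2, Function.update_self]
  rfl

/-- the word with the bit at the window `z1.length` free -/
def inflWord (i : Fin k) (G : ℕ) (z1 z2 : Word (k + 1)) {N2 L : ℕ} (gg : Fin (N2 + 1) → Fin G)
    (b : Fin L → Bool) : Word (k + 1) :=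
  (List.range (lev id gg (z1.length + 1 + z2.length))).map (fun p =>
    if p / G = z1.length then inflLet i (bext b p) else
      upd (lev id gg) (z1 ++ i.castSucc :: z2) (fun p => inflLet i (bext b p)) p)

theorem infl_bext_update {L : ℕ} (b : Fin L → Bool) (π : Fin L) (a : Bool) {p : ℕ}
    (h : p ≠ π) : bext (Function.update b π a) p = bext b p := by
  unfold bext
  by_cases h1 : p < L
  · have h2 : (⟨p, h1⟩ : Fin L) ≠ π := by
      intro h3
      exact h (by rw [← h3])
    rw [dif_pos h1, dif_pos h1, Function.update_of_ne h2]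
  · rw [dif_neg h1, dif_neg h1]

theorem infl_bext_update_self {L : ℕ} (b : Fin L → Bool) (π : Fin L) (a : Bool) :
    bext (Function.update b π a) π = a := by
  unfold bext
  have h1 : (π : ℕ) < L := π.2
  rw [dif_pos h1]
  have h2 : (⟨(π : ℕ), h1⟩ : Fin L) = π := rfl
  rw [h2, Function.update_self]

theorem infl_getElem (z1 z2 : Word (k + 1)) (a a' : Fin (k + 1)) {j : ℕ}
    (h : j ≠ z1.length) (h1 : j < (z1 ++ a :: z2).length) (h2 : j < (z1 ++ a' :: z2).length) :
    (z1 ++ a :: z2)[j] = (z1 ++ a' :: z2)[j] := by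
  rw [List.getElem_append, List.getElem_append]
  by_cases h3 : j < z1.length
  · rw [dif_pos h3, dif_pos h3]
  · rw [dif_neg h3, dif_neg h3, List.getElem_cons, List.getElem_cons]
    have h4 : j - z1.length ≠ 0 := by omega
    rw [dif_neg h4, dif_neg h4]

theorem infl_word_eq (i : Fin k) (N2 G : ℕ) (hG : 0 < G) (L : ℕ) (z1 z2 : Word (k + 1))
    (gg : Fin (N2 + 1) → Fin G) (b : Fin L → Bool) (π : Fin L)
    (hπ : (π : ℕ) = lev id gg z1.length) (a : Bool) :
    gword i (lev id gg) (bext b) (z1 ++ inflLet i a :: z2) =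
      inflWord i G z1 z2 gg (Function.update b π a) := by
  unfold gword fill inflWord
  have hlen : (z1 ++ inflLet i a :: z2).length = z1.length + 1 + z2.length := by
    rw [List.length_append, List.length_cons]
    omega
  rw [hlen]
  apply List.map_congr_left
  intro p _
  have hinj := infl_lev_inj hG gg
  by_cases hp : p / G = z1.length
  · rw [if_pos hp]
    by_cases hpm : p = lev id gg z1.length
    · rw [hpm, upd_of_eq (lev id gg) hinj _ _ z1.length (by omega), ← hπ,
        infl_bext_update_self]
      simp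
    · rw [upd_of_ne, infl_bext_update b π a (by rw [hπ]; exact hpm)]
      · rfl
      · intro j' _ h2
        have h3 := infl_lev_div hG gg j'
        rw [h2, hp] at h3
        rw [← h3] at h2
        exact hpm h2.symm
  · rw [if_neg hp]
    have hpπ : p ≠ π := by
      intro h
      rw [hπ] at h
      rw [h, infl_lev_div hG gg] at hp
      exact hp rfl
    by_cases hex : ∃ j' < z1.length + 1 + z2.length, lev id gg j' = p
    · obtain ⟨j', hj', rfl⟩ := hex
      rw [infl_lev_div hG gg] at hp
      have h2 : (z1 ++ i.castSucc :: z2).length = z1.length + 1 + z2.length := by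
        rw [List.length_append, List.length_cons]
        omega
      rw [upd_of_eq (lev id gg) hinj _ _ j' (by omega),
        upd_of_eq (lev id gg) hinj _ _ j' (by omega)]
      exact infl_getElem z1 z2 _ _ hp _ _
    · push Not at hex
      rw [upd_of_ne _ _ _ _ (by rw [hlen]; exact hex), upd_of_ne _ _ _ _ (by
        rw [List.length_append, List.length_cons]
        intro j' hj'
        exact hex j' (by omega))]
      rw [infl_bext_update b π a hpπ]
      rfl

theorem infl_word_indep (i : Fin k) (N2 G : ℕ) (hG : 0 < G) (L : ℕ) (z1 z2 : Word (k + 1))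
    (hz : z1.length + 1 + z2.length ≤ N2) (j : Fin (N2 + 1)) (hj : (j : ℕ) = z1.length)
    (gg : Fin (N2 + 1) → Fin G) (g : Fin G) (b : Fin L → Bool) :
    inflWord i G z1 z2 (Function.update gg j g) b = inflWord i G z1 z2 gg b := by
  unfold inflWord
  rw [infl_lev_update gg j g (by omega : z1.length + 1 + z2.length ≠ j)]
  apply List.map_congr_left
  intro p _
  by_cases hp : p / G = z1.length
  · rw [if_pos hp, if_pos hp]
  · rw [if_neg hp, if_neg hp]
    have h2 : (z1 ++ i.castSucc :: z2).length = z1.length + 1 + z2.length := by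
      rw [List.length_append, List.length_cons]
      omega
    by_cases hex : ∃ j' < z1.length + 1 + z2.length, lev id gg j' = p
    · obtain ⟨j', hj', rfl⟩ := hex
      rw [infl_lev_div hG gg] at hp
      rw [upd_of_eq (lev id gg) (infl_lev_inj hG gg) _ _ j' (by omega)]
      rw [← infl_lev_update gg j g (by omega : j' ≠ j)]
      rw [upd_of_eq _ (infl_lev_inj hG _) _ _ j' (by omega)]
    · push Not at hex
      have hex' : ∀ j' < z1.length + 1 + z2.length,
          lev id (Function.update gg j g) j' ≠ p := by
        intro j' hj' h3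
        have h4 := infl_lev_div hG (Function.update gg j g) j'
        rw [h3] at h4
        have h5 : j' ≠ j := by
          intro h6
          apply hp
          rw [h4, h6, hj]
        rw [infl_lev_update gg j g h5] at h3
        exact hex j' hj' h3
      rw [upd_of_ne _ _ _ _ (by rw [h2]; exact hex'),
        upd_of_ne _ _ _ _ (by rw [h2]; exact hex)]

end

theorem infl_one {k : ℕ} (i : Fin k) (N2 G : ℕ) (hG : 0 < G) (L : ℕ) (hL : (N2 + 1) * G ≤ L)
    (h : Word (k + 1) → ℝ) (hh : ∀ x, |h x| ≤ 1) (z1 z2 : Word (k + 1))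
    (hz : z1.length + 1 + z2.length ≤ N2) :
    Ex (fun gg : Fin (N2 + 1) → Fin G =>
      |Ex (fun b : Fin L → Bool => h (gword i (lev id gg) (bext b) (z1 ++ Fin.last k :: z2)))
        - Ex (fun b : Fin L → Bool => h (gword i (lev id gg) (bext b) (z1 ++ i.castSucc :: z2)))|) ≤
      2 / Real.sqrt G := by
  have hnG : Nonempty (Fin G) := ⟨⟨0, hG⟩⟩
  set j : Fin (N2 + 1) := ⟨z1.length, by omega⟩ with hj
  rw [Ex_update _ j]
  apply Ex_le_of_le
  intro gg
  have hPlt : ∀ g : Fin G, z1.length * G + (g : ℕ) < L := by
    intro g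
    have h1 := g.2
    have h2 : z1.length ≤ N2 := by omega
    calc z1.length * G + (g : ℕ) < z1.length * G + G := by omega
      _ = (z1.length + 1) * G := by ring
      _ ≤ (N2 + 1) * G := Nat.mul_le_mul_right _ (by omega)
      _ ≤ L := hL
  have hfb := force_bit L G hG (fun g => ⟨z1.length * G + (g : ℕ), hPlt g⟩) (by
    intro g g' hgg
    have : z1.length * G + (g : ℕ) = z1.length * G + (g' : ℕ) := by
      simpa using hgg
    apply Fin.ext
    omega) (fun b => h (inflWord i G z1 z2 gg b)) (fun x => hh _)
  refine le_trans (le_of_eq ?_) hfb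
  congr 1
  funext g
  have hlev : lev id (Function.update gg j g) z1.length = z1.length * G + (g : ℕ) :=
    infl_lev_update_self gg j g
  have e1 : ∀ b : Fin L → Bool, gword i (lev id (Function.update gg j g)) (bext b)
      (z1 ++ Fin.last k :: z2) = inflWord i G z1 z2 gg
        (Function.update b ⟨z1.length * G + (g : ℕ), hPlt g⟩ true) := by
    intro b
    have h1 := infl_word_eq i N2 G hG L z1 z2 (Function.update gg j g) b
      ⟨z1.length * G + (g : ℕ), hPlt g⟩ hlev.symm true
    rw [infl_word_indep i N2 G hG L z1 z2 hz j rfl gg g] at h1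
    exact h1
  have e2 : ∀ b : Fin L → Bool, gword i (lev id (Function.update gg j g)) (bext b)
      (z1 ++ i.castSucc :: z2) = inflWord i G z1 z2 gg
        (Function.update b ⟨z1.length * G + (g : ℕ), hPlt g⟩ false) := by
    intro b
    have h1 := infl_word_eq i N2 G hG L z1 z2 (Function.update gg j g) b
      ⟨z1.length * G + (g : ℕ), hPlt g⟩ hlev.symm false
    rw [infl_word_indep i N2 G hG L z1 z2 hz j rfl gg g] at h1
    exact h1
  simp only [e1, e2]

theorem infl_aux {k : ℕ} (i : Fin k) (N2 G : ℕ) (hG : 0 < G) (L : ℕ) (hL : (N2 + 1) * G ≤ L)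
    (h : Word (k + 1) → ℝ) (hh : ∀ x, |h x| ≤ 1) (z2 : Word (k + 1)) :
    ∀ (z1 : Word (k + 1)), z1.length + z2.length ≤ N2 →
    Ex (fun gg : Fin (N2 + 1) → Fin G =>
      |Ex (fun b : Fin L → Bool => h (gword i (lev id gg) (bext b) (z1 ++ z2)))
        - Ex (fun b : Fin L → Bool => h (gword i (lev id gg) (bext b) (z1 ++ rep i z2)))|) ≤
      z2.length * (2 / Real.sqrt G) := by
  have hnG : Nonempty (Fin G) := ⟨⟨0, hG⟩⟩
  induction z2 with
  | nil =>
    intro z1 _
    apply Ex_le_of_le
    intro gg
    simp [rep]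
  | cons a t ih =>
    intro z1 hz
    rw [List.length_cons] at hz
    set a' : Fin (k + 1) := if a = Fin.last k then i.castSucc else a with ha'
    have hrep : rep i (a :: t) = a' :: rep i t := rfl
    rw [hrep]
    have h1 := ih (z1 ++ [a']) (by rw [List.length_append]; simp; omega)
    have h2 : Ex (fun gg : Fin (N2 + 1) → Fin G =>
      |Ex (fun b : Fin L → Bool => h (gword i (lev id gg) (bext b) (z1 ++ a :: t)))
        - Ex (fun b : Fin L → Bool => h (gword i (lev id gg) (bext b) (z1 ++ a' :: t)))|) ≤
        2 / Real.sqrt G := by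
      by_cases ha : a = Fin.last k
      · rw [ha', if_pos ha, ha]
        exact infl_one i N2 G hG L hL h hh z1 t (by omega)
      · rw [ha', if_neg ha]
        apply Ex_le_of_le
        intro gg
        rw [sub_self, abs_zero]
        positivity
    have h3 : ∀ q : Word (k + 1), z1 ++ a' :: q = (z1 ++ [a']) ++ q := by
      intro q
      simp
    rw [h3 (rep i t)]
    rw [h3 t] at h2
    have h4 : Ex (fun gg : Fin (N2 + 1) → Fin G =>
      |Ex (fun b : Fin L → Bool => h (gword i (lev id gg) (bext b) (z1 ++ a :: t)))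
        - Ex (fun b : Fin L → Bool =>
          h (gword i (lev id gg) (bext b) ((z1 ++ [a']) ++ rep i t)))|) ≤
      Ex (fun gg : Fin (N2 + 1) → Fin G =>
      |Ex (fun b : Fin L → Bool => h (gword i (lev id gg) (bext b) (z1 ++ a :: t)))
        - Ex (fun b : Fin L → Bool => h (gword i (lev id gg) (bext b) ((z1 ++ [a']) ++ t)))| +
      |Ex (fun b : Fin L → Bool => h (gword i (lev id gg) (bext b) ((z1 ++ [a']) ++ t)))
        - Ex (fun b : Fin L → Bool =>
          h (gword i (lev id gg) (bext b) ((z1 ++ [a']) ++ rep i t)))|) :=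
      Ex_mono fun gg => abs_sub_le _ _ _
    rw [Ex_add] at h4
    rw [List.length_cons]
    push_cast
    linarith

theorem infl {k : ℕ} (i : Fin k) (N2 G : ℕ) (hG : 0 < G) (L : ℕ) (hL : (N2 + 1) * G ≤ L)
    (h : Word (k + 1) → ℝ) (hh : ∀ x, |h x| ≤ 1) (z : Word (k + 1)) (hz : z.length ≤ N2) :
    Ex (fun gg : Fin (N2 + 1) → Fin G =>
      |Ex (fun b : Fin L → Bool => h (gword i (lev id gg) (bext b) z))
        - Ex (fun b : Fin L → Bool => h (gword i (lev id gg) (bext b) (rep i z)))|) ≤
      N2 * (2 / Real.sqrt G) := by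
  have h1 := infl_aux i N2 G hG L hL h hh z [] (by simpa using hz)
  refine le_trans h1 ?_
  apply mul_le_mul_of_nonneg_right
  · exact_mod_cast hz
  · positivity

end OVW
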