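import Pool.Agent.H3.OVW.Tree

/-! MODULE PSI (project MP_d1c297_lc): the interleaved embedding `Ψ`.

`Ψ(z) = z_0 · y_0[z] · z_1 · y_1[z] ⋯`, where in the word `y_j` the symbol `inl a` is the letter `ι a` and the symbol `inr i` is `z_i` if `i ≤ j`
(and the fixed letter `x0` otherwise).  `Psi` is natural in the type `X` of letters (take `X = Fin (k+1)`, or `X = Option (Fin (k+1))` and
then substitute with `Option.getD · a`).

`psi_line`: let `e1 = |c0| + |w0|` (so the line `(c0, w0)` has length `e1 + 1`), `x` = the value of `y_{e1}` (the last segment).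
`zz a = c0 ++ a :: sub a w0` over `A = Fin (k+1)` (constants via `castSucc`), `P a` = `Ψ (zz a)` with `y_{e1}` empty, `c = Ψ c0`,
`κ (inl a) = a.castSucc`, `κ (inr i) = (zz last).getD i a0`.  `κ` is onto: `last` is the value at the position `|c0| < n0` of the first `⋆`.
`rep i (κ s) = lk (zz i) s` for `i : Fin k`.  For `W`: `Ψ` of the extended word `c0 ++ ⋆ :: w0` over `X = Option (Fin (k+1))` is
`c ++ ⋆ :: W`, and substituting `a` gives `P a ++ (κ-word with last replaced by a)`. -/

namespace OVW

open scoped BigOperators

/-- lookup of a symbol -/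
def lk {X : Type} {k n0 : ℕ} (ι : Fin k → X) (x0 : X) (z : List X) : Fin k ⊕ Fin n0 → X
  | Sum.inl a => ι a
  | Sum.inr i => z.getD i x0

def Psi {X : Type} {k n0 : ℕ} (ι : Fin k → X) (x0 : X) (y : ℕ → List (Fin k ⊕ Fin n0)) :
    List X → List X → List X
  | _, [] => []
  | acc, a :: q => a :: ((y acc.length).map (lk ι x0 (acc ++ [a])) ++ Psi ι x0 y (acc ++ [a]) q)

/-- the embedding for words over `Fin (k+1)` -/
def PsiK {k n0 : ℕ} (a0 : Fin k) (y : ℕ → List (Fin k ⊕ Fin n0)) (z : Word (k + 1)) :
    Word (k + 1) := Psi Fin.castSucc a0.castSucc y [] z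

section
variable {X X' : Type} {k n0 : ℕ}

theorem psi_append (ι : Fin k → X) (x0 : X) (y : ℕ → List (Fin k ⊕ Fin n0)) (p q : List X) :
    ∀ acc : List X, Psi ι x0 y acc (p ++ q) = Psi ι x0 y acc p ++ Psi ι x0 y (acc ++ p) q := by
  induction p with
  | nil => intro acc; simp [Psi]
  | cons a p ih =>
    intro acc
    simp only [List.cons_append, Psi, ih]
    simp [List.append_assoc]

theorem psi_length (ι : Fin k → X) (x0 : X) (y : ℕ → List (Fin k ⊕ Fin n0)) (q : List X) :
    ∀ acc : List X, (Psi ι x0 y acc q).length =
      ∑ j ∈ Finset.range q.length, ((y (acc.length + j)).length + 1) := by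
  induction q with
  | nil => intro acc; simp [Psi]
  | cons a q ih =>
    intro acc
    rw [List.length_cons, Finset.sum_range_succ']
    simp only [Psi, List.length_cons, List.length_append, List.length_map, ih, List.length_nil,
      add_zero]
    have : ∀ j, acc.length + (0 + 1) + j = acc.length + (j + 1) := by intro j; omega
    simp only [this]
    omega

theorem psi_lk_map (h : X → X') (ι : Fin k → X) (x0 : X) (z : List X) (s : Fin k ⊕ Fin n0) :
    h (lk ι x0 z s) = lk (h ∘ ι) (h x0) (z.map h) s := by
  cases s with
  | inl a => rfl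
  | inr i =>
    simp only [lk]
    rw [List.getD_eq_getElem?_getD, List.getD_eq_getElem?_getD, List.getElem?_map]
    cases z[(i : ℕ)]? <;> rfl

theorem psi_map (h : X → X') (ι : Fin k → X) (x0 : X) (y : ℕ → List (Fin k ⊕ Fin n0))
    (q : List X) : ∀ acc : List X,
    (Psi ι x0 y acc q).map h = Psi (h ∘ ι) (h x0) y (acc.map h) (q.map h) := by
  induction q with
  | nil => intro acc; simp [Psi]
  | cons a q ih =>
    intro acc
    simp only [Psi, List.map_cons, List.map_append, ih, List.length_map, List.map_map]
    congr 2
    refine List.map_congr_left (fun s _ => ?_)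
    rw [Function.comp_apply, psi_lk_map h]
    simp

theorem psi_congr (ι : Fin k → X) (x0 : X) (y y' : ℕ → List (Fin k ⊕ Fin n0)) (q : List X) :
    ∀ acc : List X, (∀ j, acc.length ≤ j → j < acc.length + q.length → y j = y' j) →
      Psi ι x0 y acc q = Psi ι x0 y' acc q := by
  induction q with
  | nil => intro acc _; simp [Psi]
  | cons a q ih =>
    intro acc h
    simp only [Psi]
    rw [h acc.length le_rfl (by simp), ih]
    intro j h1 h2
    simp only [List.length_append, List.length_cons, List.length_nil] at h1 h2
    exact h j (by omega) (by simp only [List.length_cons]; omega)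

theorem psi_last (ι : Fin k → X) (x0 : X) (y : ℕ → List (Fin k ⊕ Fin n0)) (e : ℕ)
    (x : List (Fin k ⊕ Fin n0)) (z : List X) (hz : z.length = e + 1) :
    Psi ι x0 (Function.update y e x) [] z =
      Psi ι x0 (Function.update y e []) [] z ++ x.map (lk ι x0 z) := by
  have hne : z ≠ [] := by intro h; simp [h] at hz
  obtain ⟨p, l, rfl⟩ : ∃ p l, z = p ++ [l] := ⟨z.dropLast, z.getLast hne,
    (List.dropLast_append_getLast hne).symm⟩
  have hp : p.length = e := by simpa using hz
  rw [psi_append, psi_append]
  rw [psi_congr ι x0 (Function.update y e x) (Function.update y e []) p []]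
  · simp [Psi, hp]
  · intro j _ h2
    simp only [List.length_nil, zero_add] at h2
    have : j ≠ e := by omega
    simp [Function.update_of_ne this]

end

theorem length_PsiK {k n0 : ℕ} (a0 : Fin k) (y : ℕ → List (Fin k ⊕ Fin n0)) (z : Word (k + 1)) :
    (PsiK a0 y z).length = ∑ j ∈ Finset.range z.length, ((y j).length + 1) := by
  unfold PsiK
  rw [psi_length]
  simp

theorem psi_line {k n0 : ℕ} (a0 : Fin k) (c0 : Word k) (w0 : XWord k)
    (he : c0.length + w0.length + 1 ≤ n0) (y : ℕ → List (Fin k ⊕ Fin n0)) :
    ∃ (c : Word (k + 1)) (P : Fin (k + 1) → Word (k + 1)) (κ : Fin k ⊕ Fin n0 → Fin (k + 1)),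
      Function.Surjective κ ∧
      (∀ a, (P a).length = 1 + ∑ j ∈ Finset.range (c0.length + w0.length), ((y j).length + 1)) ∧
      ∀ x : List (Fin k ⊕ Fin n0),
        PsiK a0 (Function.update y (c0.length + w0.length) x) (c0.map Fin.castSucc) = c ∧
        (∀ i : Fin k, PsiK a0 (Function.update y (c0.length + w0.length) x)
          ((c0 ++ i :: sub i w0).map Fin.castSucc) = P i.castSucc ++ rep i (x.map κ)) ∧
        ∃ W : XWord (k + 1), c.length + W.length + 1 = (P (Fin.last k)).length + x.length ∧
          P (Fin.last k) ++ x.map κ = c ++ Fin.last k :: sub (Fin.last k) W ∧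
          ∀ i : Fin k, P i.castSucc ++ rep i (x.map κ) = c ++ i.castSucc :: sub i.castSucc W := by
  set e := c0.length + w0.length with hedef
  -- the extended word over `Option (Fin (k+1))`
  set w1 : XWord (k + 1) := w0.map (Option.map Fin.castSucc) with hw1
  set V : XWord (k + 1) := (c0.map Fin.castSucc).map some ++ none :: w1 with hV
  have hsubV : ∀ a, sub a V = c0.map Fin.castSucc ++ a :: sub a w1 := by
    intro a
    simp [hV, sub, List.map_append, List.map_map, Function.comp_def]
  have hVl : ∀ a, (sub a V).length = e + 1 := by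
    intro a
    rw [hsubV]
    simp [sub, hw1, hedef]
    omega
  have hVi : ∀ i : Fin k, (c0 ++ i :: sub i w0).map Fin.castSucc = sub i.castSucc V := by
    intro i
    rw [hsubV]
    simp only [List.map_append, List.map_cons]
    congr 2
    simp only [sub, hw1, List.map_map]
    refine List.map_congr_left (fun o _ => ?_)
    cases o <;> rfl
  have hVmem : ∀ o ∈ V, o = none ∨ ∃ b : Fin k, o = some b.castSucc := by
    intro o ho
    rw [hV, List.mem_append, List.mem_cons] at ho
    rcases ho with h | h | h
    · simp only [List.map_map, List.mem_map, Function.comp_apply] at h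
      obtain ⟨b, _, rfl⟩ := h
      exact Or.inr ⟨b, rfl⟩
    · exact Or.inl h
    · rw [hw1, List.mem_map] at h
      obtain ⟨b, _, rfl⟩ := h
      cases b with
      | none => exact Or.inl rfl
      | some b => exact Or.inr ⟨b, rfl⟩
  set κ : Fin k ⊕ Fin n0 → Fin (k + 1) :=
    lk Fin.castSucc a0.castSucc (sub (Fin.last k) V) with hκ
  have hlk : ∀ (a : Fin (k + 1)) (s : Fin k ⊕ Fin n0),
      lk Fin.castSucc a0.castSucc (sub a V) s =
        ((lk (fun b => some b.castSucc) (some a0.castSucc) V s : Option (Fin (k + 1)))).getD a := by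
    intro a s
    have := psi_lk_map (n0 := n0) (fun o : Option (Fin (k + 1)) => o.getD a)
      (fun b : Fin k => some b.castSucc) (some a0.castSucc) V s
    exact this.symm
  have hlkV : ∀ s : Fin k ⊕ Fin n0,
      (lk (fun b => some b.castSucc) (some a0.castSucc) V s : Option (Fin (k + 1))) = none ∨
      ∃ b : Fin k, (lk (fun b => some b.castSucc) (some a0.castSucc) V s : Option (Fin (k + 1))) =
        some b.castSucc := by
    intro s
    cases s with
    | inl b => exact Or.inr ⟨b, rfl⟩
    | inr i =>
      simp only [lk]
      by_cases hi : (i : ℕ) < V.length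
      · rw [List.getD_eq_getElem _ _ hi]
        exact hVmem _ (List.getElem_mem hi)
      · rw [List.getD_eq_default _ _ (by omega)]
        exact Or.inr ⟨a0, rfl⟩
  have hrep : ∀ (i : Fin k) (s : Fin k ⊕ Fin n0),
      lk Fin.castSucc a0.castSucc (sub i.castSucc V) s =
        if κ s = Fin.last k then i.castSucc else κ s := by
    intro i s
    rw [hκ, hlk, hlk]
    rcases hlkV s with h | ⟨b, h⟩
    · rw [h]; simp
    · rw [h]
      have : b.castSucc ≠ Fin.last k := (Fin.castSucc_lt_last b).ne
      simp [this]
  have hrepx : ∀ (i : Fin k) (x : List (Fin k ⊕ Fin n0)),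
      x.map (lk Fin.castSucc a0.castSucc (sub i.castSucc V)) = rep i (x.map κ) := by
    intro i x
    unfold rep
    rw [List.map_map]
    exact List.map_congr_left (fun s _ => hrep i s)
  refine ⟨PsiK a0 y (c0.map Fin.castSucc), fun a => PsiK a0 (Function.update y e []) (sub a V), κ,
    ?_, ?_, ?_⟩
  · intro b
    rcases Fin.eq_castSucc_or_eq_last b with ⟨b, rfl⟩ | rfl
    · exact ⟨Sum.inl b, rfl⟩
    · refine ⟨Sum.inr ⟨c0.length, by omega⟩, ?_⟩
      rw [hκ]
      simp only [lk]
      rw [hsubV, List.getD_eq_getElem?_getD]
      simp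
  · intro a
    rw [length_PsiK, hVl, Finset.sum_range_succ]
    simp only [Function.update_self, List.length_nil, zero_add]
    rw [add_comm]
    congr 1
    refine Finset.sum_congr rfl (fun j hj => ?_)
    rw [Function.update_of_ne (Finset.mem_range.1 hj).ne]
  · intro x
    have hA : ∀ a, PsiK a0 (Function.update y e x) (sub a V) =
        PsiK a0 (Function.update y e []) (sub a V) ++
          x.map (lk Fin.castSucc a0.castSucc (sub a V)) := fun a =>
      psi_last Fin.castSucc a0.castSucc y e x (sub a V) (hVl a)
    have hC : PsiK a0 (Function.update y e x) (c0.map Fin.castSucc) =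
        PsiK a0 y (c0.map Fin.castSucc) := by
      unfold PsiK
      refine psi_congr _ _ _ _ _ _ (fun j _ h2 => ?_)
      simp only [List.length_nil, zero_add, List.length_map] at h2
      have : j ≠ e := by omega
      rw [Function.update_of_ne this]
    -- the extended image
    obtain ⟨W, hW⟩ : ∃ W : XWord (k + 1),
        Psi (fun b : Fin k => some b.castSucc) (some a0.castSucc) (Function.update y e x) [] V =
        (PsiK a0 y (c0.map Fin.castSucc)).map some ++ none :: W := by
      rw [hV, psi_append]
      have h1 : Psi (fun b : Fin k => some b.castSucc) (some a0.castSucc)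
          (Function.update y e x) [] ((c0.map Fin.castSucc).map some) =
          (PsiK a0 y (c0.map Fin.castSucc)).map some := by
        rw [← hC]
        unfold PsiK
        rw [psi_map]
        rfl
      rw [h1]
      exact ⟨_, rfl⟩
    have hB : ∀ a, PsiK a0 (Function.update y e x) (sub a V) =
        PsiK a0 y (c0.map Fin.castSucc) ++ a :: sub a W := by
      intro a
      have h1 := psi_map (fun o : Option (Fin (k + 1)) => o.getD a)
        (fun b : Fin k => some b.castSucc) (some a0.castSucc) (Function.update y e x) V []
      rw [hW] at h1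
      have h2 : PsiK a0 (Function.update y e x) (sub a V) =
        Psi ((fun o : Option (Fin (k + 1)) => o.getD a) ∘ fun b : Fin k => some b.castSucc)
          ((some a0.castSucc).getD a) (Function.update y e x) (List.map (fun o : Option (Fin (k + 1)) => o.getD a) [])
          (List.map (fun o => o.getD a) V) := rfl
      rw [h2, ← h1]
      simp [sub, Function.comp_def]
    refine ⟨hC, fun i => ?_, W, ?_, ?_, fun i => ?_⟩
    · rw [hVi, hA, hrepx]
    · have h1 := (hB (Fin.last k)).symm.trans (hA (Fin.last k))
      have h2 := congrArg List.length h1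
      rw [List.length_append, List.length_append, List.length_cons, List.length_map] at h2
      have h3 : (sub (Fin.last k) W).length = W.length := by simp [sub]
      rw [h3] at h2
      simp only
      omega
    · rw [← hB, hA]
    · rw [← hB, hA, hrepx]

end OVW
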