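import Mathlib

/-! The definitions used in the statement of the result (project MP_d1c297_lc). -/

namespace OVW

/-- Words over the letters `Fin k` and the variable `⋆` are lists over `Option (Fin k)`, `⋆` being
`none`.  `sub a w` is the word `w[a]`: every `⋆` in `w` is replaced by the letter `a`. -/
def sub {k : ℕ} (a : Fin k) (w : List (Option (Fin k))) : List (Fin k) := w.map (fun o => o.getD a)

/-- A left variable word: the first letter is the variable `⋆`, represented by `none`. -/
def LeftVar {k : ℕ} (w : List (Option (Fin k))) : Prop := w.head? = some none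

/-- `inst w [a₁, …, aₙ] = w₁[a₁] w₂[a₂] ⋯ wₙ[aₙ]` for the sequence `w 0 = w₁, w 1 = w₂, …`. -/
def inst {k : ℕ} : (ℕ → List (Option (Fin k))) → List (Fin k) → List (Fin k)
  | _, [] => []
  | w, a :: q => sub a (w 0) ++ inst (fun i => w (i + 1)) q

/-- `(c₀, w 0, w 1, …)` is a solution of the instance `f` of the Ordered Variable Word theorem. -/
structure IsSolution {k l : ℕ} (f : List (Fin k) → Fin l) (c₀ : List (Fin k))
    (w : ℕ → List (Option (Fin k))) : Prop where
  left : ∀ i, LeftVar (w i)
  mono : ∃ col : Fin l, ∀ a : List (Fin k), f (c₀ ++ inst w a) = col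

/-- The sequence `c₀, w 0, w 1, …`, all terms regarded as words over the letters and `⋆`. -/
def sol {k : ℕ} (c₀ : List (Fin k)) (w : ℕ → List (Option (Fin k))) : ℕ → List (Option (Fin k))
  | 0 => c₀.map some
  | j + 1 => w j

/-- The sequence `(c₀, w 0, w 1, …)` coded as a set of natural numbers: the graph
`{⟨j, code of the j-th term⟩ : j ∈ ℕ}`. -/
def solCode {k : ℕ} (c₀ : List (Fin k)) (w : ℕ → List (Option (Fin k))) : Set ℕ :=
  {m | ∃ j : ℕ, m = Nat.pair j (Encodable.encode (sol c₀ w j))}

open Classical in
/-- The characteristic function of a set of natural numbers, as an oracle. -/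
noncomputable def chi (X : Set ℕ) : ℕ →. ℕ := fun n => Part.some (if n ∈ X then 1 else 0)

end OVW
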