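import Pool.Agent.H3.OVW.Ex

/-! MODULE TREE (project MP_d1c297_lc).  Elementary lemmas on words and trees. -/

namespace OVW

open scoped BigOperators

variable {k : ℕ}

theorem length_sub (a : Fin k) (w : XWord k) : (sub a w).length = w.length := by
  simp [sub]

theorem sub_append (a : Fin k) (w w' : XWord k) : sub a (w ++ w') = sub a w ++ sub a w' := by
  simp [sub]

theorem sub_map_some (a : Fin k) (w : Word k) : sub a (w.map some) = w := by
  simp [sub]

theorem sub_cons_none (a : Fin k) (w : XWord k) : sub a (none :: w) = a :: sub a w := by
  simp [sub]

theorem sub_cons_some (a b : Fin k) (w : XWord k) : sub a (some b :: w) = b :: sub a w := by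
  simp [sub]

theorem sub_nil (a : Fin k) : sub a ([] : XWord k) = [] := rfl

theorem length_node (v : ℕ → XWord k) (q : Word k) :
    (node v q).length = ∑ i ∈ Finset.range q.length, ((v i).length + 1) := by
  induction q generalizing v with
  | nil => simp [node]
  | cons a q ih =>
    rw [List.length_cons, Finset.sum_range_succ']
    simp only [node, List.length_cons, List.length_append, length_sub]
    rw [ih]
    ring

theorem length_tnode (v0 : Word k) (v : ℕ → XWord k) (q : Word k) :
    (tnode v0 v q).length = tlen v0 v q.length := by
  rw [tnode, List.length_append, length_node]; rfl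

theorem tlen_mono (v0 : Word k) (v : ℕ → XWord k) {m n : ℕ} (h : m ≤ n) :
    tlen v0 v m ≤ tlen v0 v n := by
  unfold tlen
  have : ∑ i ∈ Finset.range m, ((v i).length + 1) ≤ ∑ i ∈ Finset.range n, ((v i).length + 1) :=
    Finset.sum_le_sum_of_subset (Finset.range_mono h)
  omega

theorem node_append (v : ℕ → XWord k) (q q' : Word k) :
    node v (q ++ q') = node v q ++ node (fun i => v (q.length + i)) q' := by
  induction q generalizing v with
  | nil => simp [node]
  | cons a q ih =>
    simp only [List.cons_append, node, List.length_cons, List.append_assoc]
    rw [ih]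
    congr 4
    funext i
    congr 1
    omega

/-- substitution of a word with variables into a tree -/
def xnode : (ℕ → XWord k) → XWord k → XWord k
  | _, [] => []
  | v, none :: q => none :: (v 0 ++ xnode (fun i => v (i + 1)) q)
  | v, some a :: q => some a :: ((sub a (v 0)).map some ++ xnode (fun i => v (i + 1)) q)

theorem sub_xnode (a : Fin k) (v : ℕ → XWord k) (w : XWord k) :
    sub a (xnode v w) = node v (sub a w) := by
  induction w generalizing v with
  | nil => rfl
  | cons o w ih =>
    cases o with
    | none =>
      simp only [xnode, sub_cons_none, sub_append, node]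
      rw [ih]
    | some b =>
      simp only [xnode, sub_cons_some, sub_append, node, sub_map_some]
      rw [ih]

theorem length_xnode (v : ℕ → XWord k) (w : XWord k) :
    (xnode v w).length = ∑ i ∈ Finset.range w.length, ((v i).length + 1) := by
  induction w generalizing v with
  | nil => simp [xnode]
  | cons o w ih =>
    rw [List.length_cons, Finset.sum_range_succ']
    cases o with
    | none =>
      simp only [xnode, List.length_cons, List.length_append]
      rw [ih]; ring
    | some b =>
      simp only [xnode, List.length_cons, List.length_append, List.length_map, length_sub]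
      rw [ih]; ring

theorem tlen_add (v0 : Word k) (v : ℕ → XWord k) (m n : ℕ) :
    tlen v0 v (m + n) = tlen v0 v m + ∑ i ∈ Finset.range n, ((v (m + i)).length + 1) := by
  unfold tlen
  rw [Finset.sum_range_add]
  ring

/-- trees map Carlson–Simpson lines to Carlson–Simpson lines -/
theorem tnode_line (v0 : Word k) (v : ℕ → XWord k) (c : Word k) (w : XWord k) :
    ∃ W : XWord k, (tnode v0 v c).length + W.length + 1 = tlen v0 v (c.length + w.length + 1) ∧
      ∀ a : Fin k, tnode v0 v (c ++ a :: sub a w) = tnode v0 v c ++ a :: sub a W := by
  refine ⟨v c.length ++ xnode (fun i => v (c.length + (i + 1))) w, ?_, ?_⟩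
  · rw [length_tnode, List.length_append, length_xnode]
    rw [show c.length + w.length + 1 = c.length + (w.length + 1) by ring, tlen_add,
      Finset.sum_range_succ']
    simp only [Nat.add_zero]
    ring
  · intro a
    simp only [tnode]
    rw [node_append, List.append_assoc]
    congr 2
    simp only [node, Nat.add_zero]
    rw [sub_append, sub_xnode]

/-- trees compose -/
theorem tnode_comp (u0 : Word k) (u : ℕ → XWord k) (v0 : Word k) (v : ℕ → XWord k) :
    ∃ (t0 : Word k) (t : ℕ → XWord k), (∀ q, tnode u0 u (tnode v0 v q) = tnode t0 t q) ∧
      ∀ n, tlen t0 t n = tlen u0 u (tlen v0 v n) := by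
  refine ⟨tnode u0 u v0, fun i => u (tlen v0 v i) ++
    xnode (fun j => u (tlen v0 v i + (j + 1))) (v i), ?_, ?_⟩
  · intro q
    have key : ∀ (q : Word k) (m : ℕ) (x : Word k), x.length = tlen v0 v m →
        node u (x ++ node (fun i => v (m + i)) q) = node u x ++
          node (fun i => u (tlen v0 v (m + i)) ++
            xnode (fun j => u (tlen v0 v (m + i) + (j + 1))) (v (m + i))) q := by
      intro q
      induction q with
      | nil => intro m x _; simp [node]
      | cons a q ih =>
        intro m x hx
        have h1 : x ++ node (fun i => v (m + i)) (a :: q) =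
            (x ++ a :: sub a (v m)) ++ node (fun i => v ((m + 1) + i)) q := by
          simp only [node, Nat.add_zero, List.append_assoc, List.cons_append]
          congr 4
          funext i
          congr 1
          omega
        have h2 : (x ++ a :: sub a (v m)).length = tlen v0 v (m + 1) := by
          rw [tlen_add, List.length_append, List.length_cons, length_sub, hx]
          simp
        rw [h1, ih (m + 1) _ h2, node_append, List.append_assoc]
        congr 1
        simp only [node, Nat.add_zero, hx]
        rw [sub_append, sub_xnode]
        simp only [List.cons_append, List.append_assoc]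
        congr 4
        funext i
        rw [show m + 1 + i = m + (i + 1) by ring]
    have := key q 0 v0 (by simp [tlen])
    simp only [Nat.zero_add] at this
    simp only [tnode]
    rw [this, List.append_assoc]
  · intro n
    induction n with
    | zero => simp only [tlen, Finset.range_zero, Finset.sum_empty, Nat.add_zero]
              rw [tnode, List.length_append, length_node]
    | succ n ih =>
      have h1 : tlen (tnode u0 u v0) (fun i => u (tlen v0 v i) ++
        xnode (fun j => u (tlen v0 v i + (j + 1))) (v i)) (n + 1) =
        tlen (tnode u0 u v0) (fun i => u (tlen v0 v i) ++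
        xnode (fun j => u (tlen v0 v i + (j + 1))) (v i)) n + ((u (tlen v0 v n)).length +
          ∑ i ∈ Finset.range (v n).length, ((u (tlen v0 v n + (i + 1))).length + 1) + 1) := by
        rw [tlen_add]
        simp [length_xnode]
      rw [h1, ih, tlen_add v0 v n 1]
      simp only [Finset.range_one, Finset.sum_singleton, Nat.add_zero]
      rw [tlen_add u0 u _ ((v n).length + 1), Finset.sum_range_succ']
      simp only [Nat.add_zero]
      ring

/-- the image of a line free system under a tree (with any map of probability spaces) is line free -/
theorem LineFree.tnode {Ω Ω' : Type} {N n : ℕ} {B : Word k → Ω → Prop} (hB : LineFree N B)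
    (π : Ω' → Ω) (u0 : Ω' → Word k) (u : Ω' → ℕ → XWord k)
    (h : ∀ x, tlen (u0 x) (u x) n ≤ N) :
    LineFree n (fun q x => B (tnode (u0 x) (u x) q) (π x)) := by
  intro c w x hlen hc hall
  obtain ⟨W, hW1, hW2⟩ := tnode_line (u0 x) (u x) c w
  refine hB (OVW.tnode (u0 x) (u x) c) W (π x) ?_ hc ?_
  · rw [hW1]
    exact (tlen_mono _ _ hlen).trans (h x)
  · intro a
    rw [← hW2]
    exact hall a

end OVW
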